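import Mathlib
import Pool.Agent.H.MP_6c077c_gt.Defs

/-!
Conformal gap theorem for hyperspheres: common definitions.
`Inward F e x`: `x` is a point of the hypersurface `{F = 0}` where the normal pointing out of
`{F ≤ 0}` is `-e`.
-/

set_option autoImplicit false

namespace Pool.Schoen

open scoped ContDiff RealInnerProductSpace
open Metric Set

section level

variable {V : Type*} [NormedAddCommGroup V] [InnerProductSpace ℝ V] [FiniteDimensional ℝ V]

/-- `x` is a point of `{F = 0}` with outer normal `-e`. -/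
def Inward (F : V → ℝ) (e x : V) : Prop := F x = 0 ∧ ∃ l : ℝ, 0 < l ∧ gradient F x = -(l • e)

/-- The second derivative of `F` at `x` is positive on the orthogonal complement of `e`. -/
def PosAt (F : V → ℝ) (e x : V) : Prop :=
  ∀ w : V, ⟪w, e⟫ = 0 → w ≠ 0 → 0 < fderiv ℝ (fderiv ℝ F) x w w

/-- The second derivative of `F` at `x` is negative on the orthogonal complement of `e`. -/
def NegAt (F : V → ℝ) (e x : V) : Prop :=
  ∀ w : V, ⟪w, e⟫ = 0 → w ≠ 0 → fderiv ℝ (fderiv ℝ F) x w w < 0

end level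

section sphere

variable {E : Type*} [NormedAddCommGroup E] [InnerProductSpace ℝ E] [FiniteDimensional ℝ E]

/-- Data of a hypersurface parametrised by the unit sphere of `E`; `f` and the unit normal `ν` are
extended to `E` minus the origin as functions which are constant on rays. -/
structure HSphere (f ν : E → E) : Prop where
  sf : ContDiffOn ℝ ∞ f {0}ᶜ
  sν : ContDiffOn ℝ ∞ ν {0}ᶜ
  hf : ∀ t : ℝ, 0 < t → ∀ x : E, x ≠ 0 → f (t • x) = f x
  hν : ∀ t : ℝ, 0 < t → ∀ x : E, x ≠ 0 → ν (t • x) = ν x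
  inj : InjOn f (sphere 0 1)
  imm : ∀ p ∈ sphere (0 : E) 1, ∀ u : E, ⟪u, p⟫ = 0 → fderiv ℝ f p u = 0 → u = 0
  unit : ∀ p ∈ sphere (0 : E) 1, ‖ν p‖ = 1
  orth : ∀ p ∈ sphere (0 : E) 1, ∀ u : E, ⟪fderiv ℝ f p u, ν p⟫ = 0

/-- The linear map which equals the derivative of `f` on the tangent space of the sphere at `p` and
maps `p` to the normal `ν p`. -/
noncomputable def cgL (f ν : E → E) (p : E) : E →L[ℝ] E :=
  fderiv ℝ f p + (innerSL ℝ p).smulRight (ν p)

/-- The shape operator of `f` at `p`: it maps `Df(p) u` to `Dν(p) u` for `u` tangent to the sphere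
and `ν p` to zero. -/
noncomputable def cgS (f ν : E → E) (p : E) : E →L[ℝ] E :=
  (fderiv ℝ ν p).comp (cgL f ν p).inverse

/-- `S + ν ⊗ ν`. -/
noncomputable def cgK (S : E →L[ℝ] E) (v : E) : E →L[ℝ] E := S + (innerSL ℝ v).smulRight v

/-- Norm of the trace free part of an operator `S` of an `n + 1` dimensional space with a kernel
direction: the square root of `tr (S * S) - (tr S)² / n`. -/
noncomputable def cgT (n : ℕ) (S : E →L[ℝ] E) : ℝ :=
  Real.sqrt (LinearMap.trace ℝ E ((S : E →ₗ[ℝ] E) ∘ₗ (S : E →ₗ[ℝ] E)) -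
    LinearMap.trace ℝ E (S : E →ₗ[ℝ] E) ^ 2 / n)

end sphere

end Pool.Schoen
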