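import Mathlib
import Pool.Agent.H.MP_6c077c_gt.CG.Defs

/-! Conformal gap theorem: connectedness of the two sides. -/

set_option autoImplicit false

namespace Pool.Schoen

open scoped ContDiff RealInnerProductSpace
open Metric Set

variable {V : Type*} [NormedAddCommGroup V] [InnerProductSpace ℝ V] [FiniteDimensional ℝ V]

/-- A closed part `W` of a preconnected set `B` is preconnected if it contains a preconnected set
`M` through which it is attached to the rest of `B`. -/
theorem cgConn_aux {X : Type*} [TopologicalSpace X] {B W M C : Set X} (hB : IsPreconnected B)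
    (hWB : W ⊆ B) (hW : IsClosed W) (hMW : M ⊆ W) (hM : IsPreconnected M) (hC : IsClosed C)
    (hC1 : ∀ x ∈ B, x ∉ W → x ∈ C) (hC2 : ∀ x ∈ C, x ∈ W → x ∈ M) : IsPreconnected W := by
  rw [isPreconnected_iff_subset_of_disjoint_closed]
  have key : ∀ u v : Set X, IsClosed u → IsClosed v → W ⊆ u ∪ v → W ∩ (u ∩ v) = ∅ → M ⊆ u →
      W ⊆ u ∨ W ⊆ v := by
    intro u v hu hv huv hd hMu
    rw [isPreconnected_iff_subset_of_disjoint_closed] at hB
    have h1 := hB (W ∩ v) (C ∪ (W ∩ u)) (hW.inter hv) (hC.union (hW.inter hu)) (by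
      intro x hx
      by_cases hxW : x ∈ W
      · rcases huv hxW with h | h
        · exact Or.inr (Or.inr ⟨hxW, h⟩)
        · exact Or.inl ⟨hxW, h⟩
      · exact Or.inr (Or.inl (hC1 x hx hxW))) (by
      rw [Set.eq_empty_iff_forall_notMem]
      rintro x ⟨_, ⟨hxW, hxv⟩, hx | hx⟩
      · have : x ∈ W ∩ (u ∩ v) := ⟨hxW, hMu (hC2 x hx hxW), hxv⟩
        rw [hd] at this
        exact this
      · have : x ∈ W ∩ (u ∩ v) := ⟨hxW, hx.2, hxv⟩
        rw [hd] at this
        exact this)
    rcases h1 with h1 | h1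
    · exact Or.inr (fun x hx => (h1 (hWB hx)).2)
    · left
      intro x hx
      rcases h1 (hWB hx) with h | h
      · exact hMu (hC2 x h hx)
      · exact h.2
  intro u v hu hv huv hd
  rcases (isPreconnected_iff_subset_of_disjoint_closed.1 hM) u v hu hv (hMW.trans huv) (by
    rw [Set.eq_empty_iff_forall_notMem]
    rintro x ⟨hx, hx'⟩
    have : x ∈ W ∩ (u ∩ v) := ⟨hMW hx, hx'⟩
    rw [hd] at this
    exact this) with h | h
  · exact key u v hu hv huv hd h
  · exact (key v u hv hu (by rwa [Set.union_comm]) (by rwa [Set.inter_comm v u]) h).symm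

/-- The inside is connected.

PROOF.  `W = {F ≤ 0}` is closed.  Use `isPreconnected_closed_iff`/`..._subset_of_disjoint_closed`:
let `X, Y` be closed, `W ⊆ X ∪ Y`, `W ∩ X ∩ Y = ∅`.  `M = {F = 0} ⊆ W` is preconnected, so by
symmetry `M ⊆ X`.  Then `W ∩ Y = {x | F x < 0} ∩ Xᶜ` is closed and open in `V`; `V` is connected
(`isPreconnected_univ`), so it is empty (then `W ⊆ X`) or all of `V` (then `W ⊆ Y`). -/
theorem cg_conn_inner [Nontrivial V] (F : V → ℝ) (hF : Continuous F)
    (hb : Bornology.IsBounded {x | F x ≤ 0}) (hM : IsPreconnected {x | F x = 0}) :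
    IsPreconnected {x | F x ≤ 0} := by
  refine cgConn_aux (B := Set.univ) (M := {x | F x = 0}) (C := {x | 0 ≤ F x})
    isPreconnected_univ (Set.subset_univ _) (isClosed_le hF continuous_const) ?_ hM
    (isClosed_le continuous_const hF) ?_ ?_
  · intro x hx
    exact le_of_eq hx
  · intro x _ hx
    rw [Set.mem_setOf_eq, not_le] at hx
    exact hx.le
  · intro x hx hx'
    exact le_antisymm hx' hx

/-- The outside, inside a large ball, is connected.

PROOF.  Let `B = closedBall 0 R` (convex, so preconnected), `Y₀ = {0 ≤ F} ∩ B`, `X₁, X₂` closed,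
`Y₀ ⊆ X₁ ∪ X₂`, `Y₀ ∩ X₁ ∩ X₂ = ∅`; `M = {F = 0} ⊆ Y₀`, so by symmetry `M ⊆ X₁`.
`Y' = Y₀ ∩ X₂` is closed and `Y' = B ∩ {F > 0} ∩ X₁ᶜ` is open in `B`; so `Y' = ∅` (then
`Y₀ ⊆ X₁`) or `Y' = B` (then `Y₀ ⊆ X₂`).  Concretely: the two closed sets `Y'` and
`(B ∩ {F ≤ 0}) ∪ (B ∩ X₁)`... cover `B` and are disjoint; use `B` preconnected. -/
theorem cg_conn_outer (F : V → ℝ) (hF : Continuous F) (R : ℝ) (hR : ∀ x, F x ≤ 0 → ‖x‖ < R)
    (hM : IsPreconnected {x | F x = 0}) : IsPreconnected {x | 0 ≤ F x ∧ ‖x‖ ≤ R} := by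
  refine cgConn_aux (B := closedBall (0 : V) R) (M := {x | F x = 0}) (C := {x | F x ≤ 0})
    (convex_closedBall _ _).isPreconnected ?_ ?_ ?_ hM (isClosed_le hF continuous_const) ?_ ?_
  · intro x hx
    rw [mem_closedBall_zero_iff]
    exact hx.2
  · exact (isClosed_le continuous_const hF).inter (isClosed_le continuous_norm continuous_const)
  · intro x hx
    exact ⟨ge_of_eq hx, (hR x (le_of_eq hx)).le⟩
  · intro x hx hx'
    rw [mem_closedBall_zero_iff] at hx
    by_contra h
    exact hx' ⟨(not_le.1 h).le, hx⟩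
  · intro x hx hx'
    exact le_antisymm hx hx'.1

end Pool.Schoen
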