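import Mathlib
import Pool.Agent.H.MP_6c077c_gt.CG.Defs

/-! Conformal gap theorem: the function describing the outer side inside a large ball. -/

set_option autoImplicit false

namespace Pool.Schoen

open scoped ContDiff RealInnerProductSpace
open Metric Set

variable {V : Type*} [NormedAddCommGroup V] [InnerProductSpace ℝ V] [FiniteDimensional ℝ V]

/-- The function describing the outside inside the ball of radius `R`. -/
noncomputable def cgY (F : V → ℝ) (R : ℝ) (x : V) : ℝ := -(F x) * (R ^ 2 - ‖x‖ ^ 2)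

/-- First derivative: product rule, `fderiv (‖·‖²) x w = 2 ⟪x, w⟫`. -/
theorem cg_Y_fderiv (F : V → ℝ) (hF : ContDiff ℝ ∞ F) (R : ℝ) (x w : V) :
    fderiv ℝ (cgY F R) x w = -(R ^ 2 - ‖x‖ ^ 2) * fderiv ℝ F x w + 2 * F x * ⟪x, w⟫ := by
  have hd : HasFDerivAt F (fderiv ℝ F x) x :=
    ((hF.differentiable (by simp)) x).hasFDerivAt
  have hn : HasFDerivAt (fun y : V => ‖y‖ ^ 2) (2 • (innerSL ℝ x)) x :=
    (hasStrictFDerivAt_norm_sq x).hasFDerivAt
  have h1 : HasFDerivAt (cgY F R)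
      (-(F x) • (-(2 • (innerSL ℝ x))) + (R ^ 2 - ‖x‖ ^ 2) • (-(fderiv ℝ F x))) x :=
    (hd.neg).mul (hn.const_sub (R ^ 2))
  rw [h1.fderiv]
  simp
  ring

theorem cg_Y_smooth (F : V → ℝ) (hF : ContDiff ℝ ∞ F) (R : ℝ) : ContDiff ℝ ∞ (cgY F R) :=
  hF.neg.mul (contDiff_const.sub (contDiff_norm_sq ℝ))

private theorem flip_fderiv_apply (G : V → ℝ) (hG : ContDiff ℝ ∞ G) (x w : V) :
    fderiv ℝ (fun y => fderiv ℝ G y w) x w = fderiv ℝ (fderiv ℝ G) x w w := by
  have hdd : DifferentiableAt ℝ (fderiv ℝ G) x :=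
    ((hG.fderiv_right (m := ∞) (by simp)).differentiable (by simp)) x
  rw [fderiv_clm_apply hdd (differentiableAt_const w)]
  simp

private theorem flip_gradient (F : V → ℝ) (hF : ContDiff ℝ ∞ F) (R : ℝ) (x : V) :
    gradient (cgY F R) x = (-(R ^ 2 - ‖x‖ ^ 2)) • gradient F x + (2 * F x) • x := by
  refine ext_inner_right ℝ fun w => ?_
  rw [inner_add_left, real_inner_smul_left, real_inner_smul_left, inner_gradient_left,
    inner_gradient_left, cg_Y_fderiv F hF R x w]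

private theorem flip_zero (F : V → ℝ) (R : ℝ) (hR0 : 0 < R) (x : V) (h : cgY F R x = 0) :
    F x = 0 ∨ ‖x‖ = R := by
  unfold cgY at h
  rcases mul_eq_zero.1 h with h | h
  · left; linarith
  · right
    have h2 : ‖x‖ ^ 2 = R ^ 2 := by linarith
    exact (pow_left_inj₀ (norm_nonneg x) hR0.le (by norm_num)).1 h2

private theorem flip_pos (F : V → ℝ) (R : ℝ) (hR : ∀ x, F x ≤ 0 → ‖x‖ < R) (x : V)
    (h : ‖x‖ = R) : 0 < F x := by
  by_contra hc
  have := hR x (not_lt.1 hc)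
  linarith

private theorem flip_sq (F : V → ℝ) (R : ℝ) (hR0 : 0 < R) (hR : ∀ x, F x ≤ 0 → ‖x‖ < R) (x : V)
    (h : F x = 0) : 0 < R ^ 2 - ‖x‖ ^ 2 := by
  have h1 := hR x h.le
  have h2 := norm_nonneg x
  nlinarith

/-- Second derivative: differentiate `cg_Y_fderiv` once more (for fixed `w`,
`fderiv (fderiv G) x w w = fderiv (fun y => fderiv G y w) x w` as `fderiv G` is differentiable). -/
theorem cg_Y_second (F : V → ℝ) (hF : ContDiff ℝ ∞ F) (R : ℝ) (x w : V) :
    fderiv ℝ (fderiv ℝ (cgY F R)) x w w = -(R ^ 2 - ‖x‖ ^ 2) * fderiv ℝ (fderiv ℝ F) x w w +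
      4 * ⟪x, w⟫ * fderiv ℝ F x w + 2 * F x * ‖w‖ ^ 2 := by
  have hs := cg_Y_smooth F hF R
  have e1 : fderiv ℝ (fun y => fderiv ℝ (cgY F R) y w) x w
      = fderiv ℝ (fderiv ℝ (cgY F R)) x w w := flip_fderiv_apply _ hs x w
  have e2 : fderiv ℝ (fun y => fderiv ℝ F y w) x w
      = fderiv ℝ (fderiv ℝ F) x w w := flip_fderiv_apply _ hF x w
  rw [← e1, ← e2]
  have hfun : (fun y => fderiv ℝ (cgY F R) y w)
      = fun y => -(R ^ 2 - ‖y‖ ^ 2) * fderiv ℝ F y w + 2 * F y * ⟪y, w⟫ := by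
    funext y
    exact cg_Y_fderiv F hF R y w
  rw [hfun]
  have hd : HasFDerivAt F (fderiv ℝ F x) x :=
    ((hF.differentiable (by simp)) x).hasFDerivAt
  have hn : HasFDerivAt (fun y : V => ‖y‖ ^ 2) (2 • (innerSL ℝ x)) x :=
    (hasStrictFDerivAt_norm_sq x).hasFDerivAt
  have hdd : DifferentiableAt ℝ (fderiv ℝ F) x :=
    ((hF.fderiv_right (m := ∞) (by simp)).differentiable (by simp)) x
  have hg : HasFDerivAt (fun y => fderiv ℝ F y w)
      (fderiv ℝ (fun y => fderiv ℝ F y w) x) x :=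
    (hdd.clm_apply (differentiableAt_const w)).hasFDerivAt
  have hi : HasFDerivAt (fun y : V => ⟪y, w⟫) (innerSL ℝ w) x := by
    have := (innerSL ℝ w).hasFDerivAt (x := x)
    refine this.congr_of_eventuallyEq ?_
    filter_upwards with y
    simp [real_inner_comm]
  have h1 : HasFDerivAt (fun y => -(R ^ 2 - ‖y‖ ^ 2) * fderiv ℝ F y w + 2 * F y * ⟪y, w⟫)
      ((-(R ^ 2 - ‖x‖ ^ 2)) • (fderiv ℝ (fun y => fderiv ℝ F y w) x)
        + (fderiv ℝ F x w) • (-(-(2 • (innerSL ℝ x))))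
        + ((2 * F x) • (innerSL ℝ w) + ⟪x, w⟫ • ((2 : ℝ) • (fderiv ℝ F x)))) x :=
    ((hn.const_sub (R ^ 2)).neg.mul hg).add ((hd.const_mul 2).mul hi)
  rw [h1.fderiv]
  simp
  ring

/-- PROOF.  `cgY F R x ≤ 0` iff `F x * (R² - ‖x‖²) ≥ 0`: either both factors are `≥ 0`, or both are
`≤ 0`; in the second case `F x ≤ 0` gives `‖x‖ < R`, so `R² - ‖x‖² > 0` and it would have to be
`≤ 0`: impossible unless ... precisely, `R² - ‖x‖² ≤ 0` and `‖x‖ < R` (`R > 0`) contradict. -/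
theorem cg_Y_set (F : V → ℝ) (R : ℝ) (hR0 : 0 < R) (hR : ∀ x, F x ≤ 0 → ‖x‖ < R) :
    {x | cgY F R x ≤ 0} = {x | 0 ≤ F x ∧ ‖x‖ ≤ R} := by
  ext x
  simp only [mem_setOf_eq, cgY]
  have h2 := norm_nonneg x
  constructor
  · intro h
    by_contra hc
    rcases lt_or_ge (F x) 0 with h1 | h1
    · have h3 := hR x h1.le
      have h4 : 0 < R ^ 2 - ‖x‖ ^ 2 := by nlinarith
      nlinarith [mul_pos (neg_pos.2 h1) h4]
    · have h3 : R < ‖x‖ := by
        by_contra h5
        exact hc ⟨h1, not_lt.1 h5⟩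
      have h4 : 0 < F x := by
        by_contra h5
        have := hR x (not_lt.1 h5)
        linarith
      have h6 : R ^ 2 - ‖x‖ ^ 2 < 0 := by nlinarith
      nlinarith [mul_pos h4 (neg_pos.2 h6)]
  · rintro ⟨h, h3⟩
    have h4 : 0 ≤ R ^ 2 - ‖x‖ ^ 2 := by nlinarith
    nlinarith [mul_nonneg h h4]

/-- PROOF.  `cgY F R x = 0` iff `F x = 0` (then `‖x‖ < R`, and by `cg_Y_fderiv` the gradient is
`-(R² - ‖x‖²) • gradient F x ≠ 0`) or `‖x‖ = R` (then `F x > 0` and the gradient is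
`(2 F x) • x ≠ 0`).  To pass between `gradient` and `fderiv` use
`fderiv F x w = ⟪gradient F x, w⟫` and `ext_inner_right`. -/
theorem cg_Y_reg (F : V → ℝ) (hF : ContDiff ℝ ∞ F) (hreg : ∀ x, F x = 0 → gradient F x ≠ 0)
    (R : ℝ) (hR0 : 0 < R) (hR : ∀ x, F x ≤ 0 → ‖x‖ < R) :
    ∀ x, cgY F R x = 0 → gradient (cgY F R) x ≠ 0 := by
  intro x hx hg
  rw [flip_gradient F hF R x] at hg
  rcases flip_zero F R hR0 x hx with h | h
  · have h1 := flip_sq F R hR0 hR x h
    rw [h, mul_zero, zero_smul, add_zero, smul_eq_zero] at hg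
    rcases hg with hg | hg
    · linarith
    · exact hreg x h hg
  · have h1 := flip_pos F R hR x h
    rw [h, sub_self, neg_zero, zero_smul, zero_add, smul_eq_zero] at hg
    rcases hg with hg | hg
    · linarith
    · rw [hg, norm_zero] at h
      linarith

/-- The points of the outer region with outer normal `e`.

PROOF.  As in `cg_Y_reg`.  If `F x = 0`: `gradient (cgY F R) x = -(R²-‖x‖²) • gradient F x`, which
is `-(l • (-e)) = l • e` with `l > 0` iff `gradient F x = -(l' • e)`, `l' = l / (R² - ‖x‖²) > 0`.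
If `‖x‖ = R`, `F x > 0`: the gradient is `(2 F x) • x`, which equals `l • e`, `l > 0`, iff `x` is a
positive multiple of `e`, i.e. `x = R • e`. -/
theorem cg_Y_inward (F : V → ℝ) (hF : ContDiff ℝ ∞ F) (R : ℝ) (hR0 : 0 < R)
    (hR : ∀ x, F x ≤ 0 → ‖x‖ < R) (e : V) (he : ‖e‖ = 1) (x : V) :
    Inward (cgY F R) (-e) x ↔ (Inward F e x ∨ x = R • e) := by
  constructor
  · rintro ⟨hx, l, hl, hg⟩
    rw [flip_gradient F hF R x, smul_neg, neg_neg] at hg
    rcases flip_zero F R hR0 x hx with h | h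
    · left
      have h1 := flip_sq F R hR0 hR x h
      rw [h, mul_zero, zero_smul, add_zero] at hg
      refine ⟨h, l / (R ^ 2 - ‖x‖ ^ 2), by positivity, ?_⟩
      have h2 : (R ^ 2 - ‖x‖ ^ 2) • gradient F x = -(l • e) := by
        rw [← hg, neg_smul, neg_neg]
      have h3 : gradient F x
          = (R ^ 2 - ‖x‖ ^ 2)⁻¹ • ((R ^ 2 - ‖x‖ ^ 2) • gradient F x) := by
        rw [smul_smul, inv_mul_cancel₀ h1.ne', one_smul]
      rw [h3, h2, smul_neg, smul_smul, div_eq_inv_mul]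
    · right
      have h1 := flip_pos F R hR x h
      rw [h, sub_self, neg_zero, zero_smul, zero_add] at hg
      have h3 : x = (2 * F x)⁻¹ • ((2 * F x) • x) := by
        rw [smul_smul, inv_mul_cancel₀ (by linarith), one_smul]
      rw [hg, smul_smul] at h3
      have h4 : 0 < (2 * F x)⁻¹ * l := by positivity
      have h5 : ‖x‖ = (2 * F x)⁻¹ * l := by
        conv_lhs => rw [h3]
        rw [norm_smul, he, mul_one, Real.norm_of_nonneg h4.le]
      rw [← h, h5]
      exact h3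
  · rintro (⟨h, l, hl, hg⟩ | hx)
    · have h1 := flip_sq F R hR0 hR x h
      refine ⟨by simp [cgY, h], (R ^ 2 - ‖x‖ ^ 2) * l, by positivity, ?_⟩
      rw [flip_gradient F hF R x, h, mul_zero, zero_smul, add_zero, hg, smul_neg, neg_smul,
        neg_neg, smul_neg, neg_neg, smul_smul]
    · have h : ‖x‖ = R := by
        rw [hx, norm_smul, he, mul_one, Real.norm_of_nonneg hR0.le]
      have h1 := flip_pos F R hR x h
      refine ⟨by simp [cgY, h], 2 * F x * R, by positivity, ?_⟩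
      rw [flip_gradient F hF R x, h, sub_self, neg_zero, zero_smul, zero_add, smul_neg, neg_neg,
        mul_smul (2 * F x) R e, ← hx]

/-- PROOF.  At an `Inward F e x` point `F x = 0`, `‖x‖ < R`, and `fderiv F x w = 0` for `w ⊥ e`; so
by `cg_Y_second` the second derivative of `cgY F R` on `w ⊥ e` is `-(R² - ‖x‖²)` times that of `F`.
At `x = R • e` (`F x > 0` because `‖x‖ = R`), `⟪x, w⟫ = 0` for `w ⊥ e`, `R² - ‖x‖² = 0`, and the
second derivative is `2 F x ‖w‖² > 0`. -/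
theorem cg_Y_def (F : V → ℝ) (hF : ContDiff ℝ ∞ F) (R : ℝ) (hR0 : 0 < R)
    (hR : ∀ x, F x ≤ 0 → ‖x‖ < R) (e : V) (he : ‖e‖ = 1) :
    (∀ x, Inward F e x → NegAt F e x → PosAt (cgY F R) (-e) x) ∧
    (∀ x, Inward F e x → PosAt F e x → NegAt (cgY F R) (-e) x) ∧
    PosAt (cgY F R) (-e) (R • e) := by
  have key : ∀ x, Inward F e x → ∀ w : V, ⟪w, -e⟫ = 0 →
      ⟪w, e⟫ = 0 ∧ fderiv ℝ (fderiv ℝ (cgY F R)) x w w
        = -(R ^ 2 - ‖x‖ ^ 2) * fderiv ℝ (fderiv ℝ F) x w w := by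
    rintro x ⟨h, l, hl, hg⟩ w hw
    have hw' : ⟪w, e⟫ = 0 := by
      rw [inner_neg_right] at hw
      linarith
    refine ⟨hw', ?_⟩
    have h1 : fderiv ℝ F x w = 0 := by
      rw [← inner_gradient_left, hg, inner_neg_left, real_inner_smul_left, real_inner_comm, hw']
      simp
    rw [cg_Y_second F hF R x w, h1, h]
    ring
  refine ⟨?_, ?_, ?_⟩
  · intro x hx hN w hw hw0
    obtain ⟨hw', h2⟩ := key x hx w hw
    have h1 := flip_sq F R hR0 hR x hx.1
    rw [h2]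
    nlinarith [mul_pos h1 (neg_pos.2 (hN w hw' hw0))]
  · intro x hx hN w hw hw0
    obtain ⟨hw', h2⟩ := key x hx w hw
    have h1 := flip_sq F R hR0 hR x hx.1
    rw [h2]
    nlinarith [mul_pos h1 (hN w hw' hw0)]
  · intro w hw hw0
    have hw' : ⟪w, e⟫ = 0 := by
      rw [inner_neg_right] at hw
      linarith
    have h : ‖R • e‖ = R := by
      rw [norm_smul, he, mul_one, Real.norm_of_nonneg hR0.le]
    have h1 := flip_pos F R hR (R • e) h
    have h3 : ⟪R • e, w⟫ = 0 := by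
      rw [real_inner_smul_left, real_inner_comm, hw', mul_zero]
    rw [cg_Y_second F hF R (R • e) w, h3, h, sub_self]
    have h4 : 0 < ‖w‖ := norm_pos_iff.2 hw0
    have : 0 < 2 * F (R • e) * ‖w‖ ^ 2 := by positivity
    linarith

end Pool.Schoen
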