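import Mathlib
import Pool.Agent.H.MP_6c077c_gt.CG.Defs

/-! Conformal gap theorem: local shape of the domain near a point with normal `-e`. -/

set_option autoImplicit false

namespace Pool.Schoen

open scoped ContDiff RealInnerProductSpace
open Metric Set

variable {V : Type*} [NormedAddCommGroup V] [InnerProductSpace ℝ V] [FiniteDimensional ℝ V]

theorem cgLocal_grad {F : V → ℝ} {e p : V} {l : ℝ} (h : gradient F p = -(l • e)) (w : V) :
    fderiv ℝ F p w = -(l * ⟪w, e⟫) := by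
  have h1 : ⟪gradient F p, w⟫ = fderiv ℝ F p w := by
    rw [gradient, InnerProductSpace.toDual_symm_apply]
  rw [← h1, h, inner_neg_left, real_inner_smul_left, real_inner_comm]

omit [FiniteDimensional ℝ V] in
theorem cgLocal_deriv {F : V → ℝ} (hF : ContDiff ℝ ∞ F) (x w : V) (t : ℝ) :
    HasDerivAt (fun t : ℝ => F (x + t • w)) (fderiv ℝ F (x + t • w) w) t := by
  have h1 : HasFDerivAt F (fderiv ℝ F (x + t • w)) (x + t • w) :=
    (hF.differentiable (by simp)).differentiableAt.hasFDerivAt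
  have h2 : HasDerivAt (fun t : ℝ => x + t • w) w t := by
    have := ((hasDerivAt_id t).smul_const w).const_add x
    simpa using this
  exact h1.comp_hasDerivAt t h2

omit [FiniteDimensional ℝ V] in
theorem cgLocal_deriv2 {F : V → ℝ} (hF : ContDiff ℝ ∞ F) (x w : V) (t : ℝ) :
    HasDerivAt (fun t : ℝ => fderiv ℝ F (x + t • w) w)
      (fderiv ℝ (fderiv ℝ F) (x + t • w) w w) t := by
  have hF1 : ContDiff ℝ ∞ (fderiv ℝ F) := hF.fderiv_right (m := ∞) (by simp)
  have h1 : HasFDerivAt (fderiv ℝ F) (fderiv ℝ (fderiv ℝ F) (x + t • w)) (x + t • w) :=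
    (hF1.differentiable (by simp)).differentiableAt.hasFDerivAt
  have h2 : HasDerivAt (fun t : ℝ => x + t • w) w t := by
    have := ((hasDerivAt_id t).smul_const w).const_add x
    simpa using this
  have h3 := h1.comp_hasDerivAt t h2
  have h4 := h3.clm_apply (hasDerivAt_const t w)
  simpa using h4

/-- Uniform sign of the second derivative near `p` (both signs: `s = 1` or `s = -1`).

PROOF.  `x ↦ fderiv F x e` is continuous and equals `⟪gradient F p, e⟫ = -l < 0` at `p`, so it is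
negative near `p`.  The set `K = {w | ⟪w,e⟫ = 0 ∧ ‖w‖ = 1}` is compact and
`(x, w) ↦ s * fderiv (fderiv F) x w w` is continuous and positive on `{p} × K`, hence positive on
`U × K` for a neighbourhood `U` of `p` (`IsCompact.eventually_forall_of_forall_eventually` or the
tube lemma); scale to get all `w ≠ 0`. -/
theorem cg_uniform (F : V → ℝ) (hF : ContDiff ℝ ∞ F) (e : V) (he : ‖e‖ = 1) (p : V)
    (hp : Inward F e p) (s : ℝ)
    (hd : ∀ w : V, ⟪w, e⟫ = 0 → w ≠ 0 → 0 < s * fderiv ℝ (fderiv ℝ F) p w w) :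
    ∃ ρ : ℝ, 0 < ρ ∧ ∀ x ∈ closedBall p ρ, fderiv ℝ F x e < 0 ∧
      ∀ w : V, ⟪w, e⟫ = 0 → w ≠ 0 → 0 < s * fderiv ℝ (fderiv ℝ F) x w w := by
  have h1 : ContDiff ℝ ∞ (fderiv ℝ F) := hF.fderiv_right (m := ∞) (by simp)
  have c1 : Continuous (fderiv ℝ F) := h1.continuous
  have c2 : Continuous (fderiv ℝ (fderiv ℝ F)) := h1.continuous_fderiv (by simp)
  obtain ⟨hp0, l, hl, hg⟩ := hp
  have e1 : fderiv ℝ F p e = -l := by
    rw [cgLocal_grad hg, real_inner_self_eq_norm_sq, he]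
    ring
  have U1 : ∀ᶠ x in nhds p, fderiv ℝ F x e < 0 := by
    have h2 : Continuous fun x => fderiv ℝ F x e := c1.clm_apply continuous_const
    exact h2.continuousAt.eventually_lt continuousAt_const (by rw [e1]; linarith)
  obtain ⟨K, hK⟩ : ∃ K : Set V, K = {w | ⟪w, e⟫ = 0} ∩ sphere 0 1 := ⟨_, rfl⟩
  have hKc : IsCompact K := by
    rw [hK]
    exact (isCompact_sphere 0 1).inter_left (isClosed_eq (by fun_prop) continuous_const)
  have U2 : ∀ᶠ x in nhds p, ∀ w ∈ K, 0 < s * fderiv ℝ (fderiv ℝ F) x w w := by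
    apply hKc.eventually_forall_of_forall_eventually
    intro w hw
    rw [hK] at hw
    have h3 : Continuous fun z : V × V => s * fderiv ℝ (fderiv ℝ F) z.1 z.2 z.2 := by
      refine continuous_const.mul ?_
      exact ((c2.comp continuous_fst).clm_apply continuous_snd).clm_apply continuous_snd
    have h4 : w ≠ 0 := by
      intro h5
      have := hw.2
      rw [h5] at this
      simp at this
    exact continuousAt_const.eventually_lt h3.continuousAt (hd w hw.1 h4)
  obtain ⟨ρ, hρ, h⟩ := (Metric.nhds_basis_closedBall.eventually_iff).1 (U1.and U2)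
  refine ⟨ρ, hρ, fun x hx => ⟨(h hx).1, fun w hw hw0 => ?_⟩⟩
  have hwn : 0 < ‖w‖ := norm_pos_iff.2 hw0
  have h5 : ‖w‖⁻¹ • w ∈ K := by
    rw [hK]
    refine ⟨?_, ?_⟩
    · show ⟪‖w‖⁻¹ • w, e⟫ = 0
      rw [real_inner_smul_left, hw, mul_zero]
    · rw [mem_sphere_zero_iff_norm, norm_smul, norm_inv, norm_norm, inv_mul_cancel₀ hwn.ne']
  have h6 := (h hx).2 _ h5
  rw [map_smul, map_smul, smul_apply, smul_eq_mul, smul_eq_mul] at h6
  have h7 : s * (‖w‖⁻¹ * (‖w‖⁻¹ * fderiv ℝ (fderiv ℝ F) x w w))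
      = (‖w‖⁻¹ * ‖w‖⁻¹) * (s * fderiv ℝ (fderiv ℝ F) x w w) := by ring
  rw [h7] at h6
  exact (pos_iff_pos_of_mul_pos h6).1 (by positivity)

/-- Strict convexity along a segment: `g t = s * F (x + t w)` has `g' 0 = 0`, `g'' > 0` on `[0,1]`.

PROOF.  `g t = s * F (x + t • w)` has derivative `g' t = s * fderiv F (x + t • w) w`, and `g'` has
derivative `s * fderiv (fderiv F) (x + t•w) w w > 0` on `[0,1]`; so `g'` is strictly increasing on
`[0,1]` (`strictMonoOn_of_deriv_pos`), `g' 0 = 0`, hence `g' > 0` on `(0,1]`, hence `g` is strictly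
increasing on `[0,1]` and `g 0 < g 1`. -/
theorem cg_segment (F : V → ℝ) (hF : ContDiff ℝ ∞ F) (x w : V) (s : ℝ)
    (h0 : fderiv ℝ F x w = 0)
    (h2 : ∀ t ∈ Icc (0 : ℝ) 1, 0 < s * fderiv ℝ (fderiv ℝ F) (x + t • w) w w) :
    s * F x < s * F (x + w) := by
  obtain ⟨g, hg⟩ : ∃ g : ℝ → ℝ, g = fun t => s * F (x + t • w) := ⟨_, rfl⟩
  obtain ⟨g', hg'⟩ : ∃ g' : ℝ → ℝ, g' = fun t => s * fderiv ℝ F (x + t • w) w := ⟨_, rfl⟩
  have d1 : ∀ t, HasDerivAt g (g' t) t := by
    intro t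
    rw [hg, hg']
    exact (cgLocal_deriv hF x w t).const_mul s
  have d2 : ∀ t, HasDerivAt g' (s * fderiv ℝ (fderiv ℝ F) (x + t • w) w w) t := by
    intro t
    rw [hg']
    exact (cgLocal_deriv2 hF x w t).const_mul s
  have c1 : Continuous g := continuous_iff_continuousAt.2 fun t => (d1 t).continuousAt
  have c2 : Continuous g' := continuous_iff_continuousAt.2 fun t => (d2 t).continuousAt
  have m2 : StrictMonoOn g' (Icc 0 1) := by
    apply strictMonoOn_of_deriv_pos (convex_Icc 0 1) c2.continuousOn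
    intro t ht
    rw [interior_Icc] at ht
    rw [(d2 t).deriv]
    exact h2 t ⟨ht.1.le, ht.2.le⟩
  have g0 : g' 0 = 0 := by rw [hg']; simp [h0]
  have m1 : StrictMonoOn g (Icc 0 1) := by
    apply strictMonoOn_of_deriv_pos (convex_Icc 0 1) c1.continuousOn
    intro t ht
    rw [interior_Icc] at ht
    rw [(d1 t).deriv, ← g0]
    exact m2 ⟨le_rfl, zero_le_one⟩ ⟨ht.1.le, ht.2.le⟩ ht.1
  have := m1 ⟨le_rfl, zero_le_one⟩ ⟨zero_le_one, le_rfl⟩ zero_lt_one
  rw [hg] at this
  simpa using this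

/-- Strict monotonicity in the direction `e`: if the derivative in direction `e` is negative on the
segment from `x` to `x + t e` (`t < 0`), then `F x < F (x + t e)`.

PROOF.  `r ↦ F (x + r • e)` has negative derivative on `[t, 0]`, so it is strictly decreasing. -/
theorem cg_vertical (F : V → ℝ) (hF : ContDiff ℝ ∞ F) (x e : V) (t : ℝ) (ht : t < 0)
    (h1 : ∀ r ∈ Icc t 0, fderiv ℝ F (x + r • e) e < 0) : F x < F (x + t • e) := by
  obtain ⟨g, hg⟩ : ∃ g : ℝ → ℝ, g = fun t => F (x + t • e) := ⟨_, rfl⟩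
  have d1 : ∀ t, HasDerivAt g (fderiv ℝ F (x + t • e) e) t := by
    intro t
    rw [hg]
    exact cgLocal_deriv hF x e t
  have c1 : Continuous g := continuous_iff_continuousAt.2 fun t => (d1 t).continuousAt
  have m1 : StrictAntiOn g (Icc t 0) := by
    apply strictAntiOn_of_deriv_neg (convex_Icc t 0) c1.continuousOn
    intro r hr
    rw [interior_Icc] at hr
    rw [(d1 r).deriv]
    exact h1 r ⟨hr.1.le, hr.2.le⟩
  have := m1 ⟨le_rfl, ht.le⟩ ⟨ht.le, le_rfl⟩ ht
  rw [hg] at this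
  simpa using this

/-- A point with normal `-e` and positive second fundamental form is a strict local minimum of the
height on the domain.

PROOF.  Take `ρ` from `cg_uniform` with `s = 1`.  Let `F x ≤ 0`, `dist x p < ρ`, `x ≠ p`, and
suppose `t := ⟪x - p, e⟫ ≤ 0`.  Put `w = x - p - t • e`, so `⟪w, e⟫ = 0`, `‖w‖ ≤ ‖x - p‖`,
`|t| ≤ ‖x - p‖`, and all points `p + r•w + r'•e` used below are in `closedBall p ρ`.  If `w ≠ 0`,
`cg_segment` at `p` (`fderiv F p w = ⟪gradient F p, w⟫ = 0`) gives `0 = F p < F (p + w)`; if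
`w = 0`, `F (p + w) = 0`.  If `t < 0`, `cg_vertical` at `p + w` gives
`F (p + w) < F (p + w + t•e) = F x`.  As `w ≠ 0` or `t < 0`, `F x > 0`, a contradiction. -/
theorem cg_min_local (F : V → ℝ) (hF : ContDiff ℝ ∞ F) (e : V) (he : ‖e‖ = 1) (p : V)
    (hp : Inward F e p) (hd : PosAt F e p) :
    ∃ ρ : ℝ, 0 < ρ ∧ ∀ x, F x ≤ 0 → dist x p < ρ → x ≠ p → ⟪p, e⟫ < ⟪x, e⟫ := by
  obtain ⟨ρ, hρ, h⟩ := cg_uniform F hF e he p hp 1 (by simpa [PosAt] using hd)
  obtain ⟨hp0, l, hl, hg⟩ := hp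
  refine ⟨ρ, hρ, fun x hx hxp hne => ?_⟩
  by_contra hcon
  obtain ⟨t, ht⟩ : ∃ t, t = ⟪x - p, e⟫ := ⟨_, rfl⟩
  have ht0 : t ≤ 0 := by
    rw [ht, inner_sub_left]
    linarith [not_lt.1 hcon]
  obtain ⟨w, hw⟩ : ∃ w, w = x - p - t • e := ⟨_, rfl⟩
  have hee : ⟪e, e⟫ = 1 := by rw [real_inner_self_eq_norm_sq, he]; norm_num
  have hwe : ⟪w, e⟫ = 0 := by
    rw [hw, inner_sub_left, real_inner_smul_left, hee, ← ht]
    ring
  have hnorm : ∀ r : ℝ, ‖w + r • e‖ ^ 2 = ‖w‖ ^ 2 + r ^ 2 := by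
    intro r
    rw [norm_add_sq_real, real_inner_smul_right, hwe, norm_smul, he]
    simp
  have hxp' : ‖x - p‖ < ρ := by rwa [← dist_eq_norm]
  have hx' : x - p = w + t • e := by rw [hw]; abel
  have hle : ∀ r : ℝ, r ^ 2 ≤ t ^ 2 → ‖w + r • e‖ ≤ ρ := by
    intro r hr
    have h1 : ‖w + r • e‖ ^ 2 ≤ ‖x - p‖ ^ 2 := by
      rw [hx', hnorm, hnorm]
      linarith
    have h2 := abs_le_of_sq_le_sq h1 (norm_nonneg _)
    rw [abs_of_nonneg (norm_nonneg _)] at h2
    linarith
  have hwρ : ‖w‖ ≤ ρ := by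
    have := hle 0 (by nlinarith [sq_nonneg t])
    simpa using this
  have a1 : 0 ≤ F (p + w) ∧ (w ≠ 0 → 0 < F (p + w)) := by
    have h1 : w ≠ 0 → 0 < F (p + w) := by
      intro hw0
      have h2 := cg_segment F hF p w 1 (by rw [cgLocal_grad hg, hwe]; simp) (by
        intro r hr
        refine (h _ ?_).2 w hwe hw0
        rw [mem_closedBall, dist_eq_norm]
        have : p + r • w - p = r • w := by abel
        rw [this, norm_smul, Real.norm_eq_abs, abs_of_nonneg hr.1]
        nlinarith [hr.2, norm_nonneg w])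
      rw [one_mul, one_mul, hp0] at h2
      exact h2
    refine ⟨?_, h1⟩
    by_cases hw0 : w = 0
    · rw [hw0, add_zero, hp0]
    · exact (h1 hw0).le
  have hxx : x = p + w + t • e := by
    have : x = p + (x - p) := by abel
    rw [this, hx']; abel
  have a2 : t < 0 → F (p + w) < F x := by
    intro ht1
    have h2 := cg_vertical F hF (p + w) e t ht1 (by
      intro r hr
      refine (h _ ?_).1
      rw [mem_closedBall, dist_eq_norm]
      have : p + w + r • e - p = w + r • e := by abel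
      rw [this]
      apply hle
      nlinarith [hr.1, hr.2])
    rwa [← hxx] at h2
  rcases lt_or_eq_of_le ht0 with h3 | h3
  · linarith [a2 h3, a1.1]
  · have hw0 : w ≠ 0 := by
      intro h4
      apply hne
      rw [hxx, h4, h3]
      simp
    have h5 : x = p + w := by rw [hxx, h3]; simp
    have := a1.2 hw0
    rw [← h5] at this
    linarith

/-- A point with normal `-e` and negative second fundamental form is not a local minimum of the
height on the domain.

PROOF.  As the dimension is at least 2 there is a unit `w ⊥ e`.  Take `ρ₀` from `cg_uniform` with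
`s = -1` and `0 < r < min ρ ρ₀`, `r ≤ ρ/2`; by `cg_segment` (`s = -1`) `F (p + r•w) < 0`.  By
continuity `F (p + r•w - t•e) < 0` for small `t > 0`, `t < ρ/2`, and its height is
`⟪p,e⟫ - t`. -/
theorem cg_not_min (hdim : 2 ≤ Module.finrank ℝ V) (F : V → ℝ) (hF : ContDiff ℝ ∞ F) (e : V)
    (he : ‖e‖ = 1) (p : V) (hp : Inward F e p) (hd : NegAt F e p) (ρ : ℝ) (hρ : 0 < ρ) :
    ∃ x, F x ≤ 0 ∧ dist x p < ρ ∧ ⟪x, e⟫ < ⟪p, e⟫ := by
  obtain ⟨w₀, hw₀e, hw₀⟩ : ∃ w₀ : V, ⟪w₀, e⟫ = 0 ∧ w₀ ≠ 0 := by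
    by_contra hcon
    push Not at hcon
    have hinj : Function.Injective (innerSL ℝ e : V →L[ℝ] ℝ).toLinearMap := by
      rw [← LinearMap.ker_eq_bot, LinearMap.ker_eq_bot']
      intro v hv
      apply hcon
      rw [real_inner_comm]
      exact hv
    have h1 := LinearMap.finrank_le_finrank_of_injective hinj
    rw [Module.finrank_self] at h1
    omega
  obtain ⟨w, hwe, hw1⟩ : ∃ w : V, ⟪w, e⟫ = 0 ∧ ‖w‖ = 1 := by
    refine ⟨‖w₀‖⁻¹ • w₀, ?_, ?_⟩
    · rw [real_inner_smul_left, hw₀e, mul_zero]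
    · rw [norm_smul, norm_inv, norm_norm, inv_mul_cancel₀ (norm_ne_zero_iff.2 hw₀)]
  have hw0 : w ≠ 0 := by
    intro h
    rw [h, norm_zero] at hw1
    norm_num at hw1
  obtain ⟨ρ₀, hρ₀, h⟩ := cg_uniform F hF e he p hp (-1) (by
    intro w hw hw0
    have := hd w hw hw0
    linarith)
  obtain ⟨hp0, l, hl, hg⟩ := hp
  obtain ⟨r, hr⟩ : ∃ r, r = min ρ ρ₀ / 2 := ⟨_, rfl⟩
  have hr0 : 0 < r := by
    rw [hr]
    have := lt_min hρ hρ₀
    linarith
  have hr1 : r ≤ ρ / 2 := by
    rw [hr]; linarith [min_le_left ρ ρ₀]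
  have hr2 : r ≤ ρ₀ / 2 := by
    rw [hr]; linarith [min_le_right ρ ρ₀]
  have h1 := cg_segment F hF p (r • w) (-1)
    (by rw [cgLocal_grad hg, real_inner_smul_left, hwe]; simp) (by
    intro t ht
    refine (h _ ?_).2 (r • w) (by rw [real_inner_smul_left, hwe, mul_zero])
      (smul_ne_zero hr0.ne' hw0)
    rw [mem_closedBall, dist_eq_norm]
    have : p + t • r • w - p = t • r • w := by abel
    rw [this, norm_smul, norm_smul, hw1, Real.norm_eq_abs, Real.norm_eq_abs,
      abs_of_nonneg ht.1, abs_of_pos hr0]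
    nlinarith [ht.1, ht.2])
  have h2 : F (p + r • w) < 0 := by
    rw [hp0] at h1
    linarith
  have h3 : ∀ᶠ t : ℝ in nhds 0, F (p + r • w - t • e) < 0 := by
    have hc : Continuous fun t : ℝ => F (p + r • w - t • e) := by
      have := hF.continuous
      fun_prop
    refine hc.continuousAt.eventually_lt continuousAt_const ?_
    simpa using h2
  obtain ⟨ε, hε, h4⟩ := (Metric.nhds_basis_ball.eventually_iff).1 h3
  obtain ⟨t, ht⟩ : ∃ t, t = min ε ρ / 4 := ⟨_, rfl⟩
  have ht0 : 0 < t := by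
    rw [ht]
    have := lt_min hε hρ
    linarith
  have ht1 : t < ε := by
    rw [ht]; linarith [min_le_left ε ρ]
  have ht2 : t < ρ / 2 := by
    rw [ht]; linarith [min_le_right ε ρ]
  refine ⟨p + r • w - t • e, (h4 ?_).le, ?_, ?_⟩
  · rw [mem_ball, dist_zero_right, Real.norm_eq_abs, abs_of_pos ht0]
    exact ht1
  · rw [dist_eq_norm]
    have : p + r • w - t • e - p = r • w - t • e := by abel
    rw [this]
    refine (norm_sub_le _ _).trans_lt ?_
    rw [norm_smul, norm_smul, hw1, he, Real.norm_eq_abs, Real.norm_eq_abs, abs_of_pos hr0,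
      abs_of_pos ht0]
    linarith
  · rw [inner_sub_left, inner_add_left, real_inner_smul_left, real_inner_smul_left, hwe,
      real_inner_self_eq_norm_sq, he]
    linarith

end Pool.Schoen
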