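import Mathlib
import Pool.Agent.H.MP_6c077c_gt.CG.Local

/-! Conformal gap theorem: a connected ring below a point with negative second fundamental form. -/

set_option autoImplicit false

namespace Pool.Schoen

open scoped ContDiff RealInnerProductSpace
open Metric Set

variable {V : Type*} [NormedAddCommGroup V] [InnerProductSpace ℝ V] [FiniteDimensional ℝ V]

/-- height above `p` -/
noncomputable def Ring_t (p e x : V) : ℝ := ⟪x - p, e⟫

/-- the component of `x - p` orthogonal to `e` -/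
noncomputable def Ring_w (p e x : V) : V := x - p - Ring_t p e x • e

theorem Ring_eq (p e x : V) : p + Ring_w p e x + Ring_t p e x • e = x := by
  rw [Ring_w]; abel

theorem Ring_orth {e : V} (he : ‖e‖ = 1) (p x : V) : ⟪Ring_w p e x, e⟫ = 0 := by
  rw [Ring_w, inner_sub_left, real_inner_smul_left, real_inner_self_eq_norm_sq, he, Ring_t]
  ring

theorem Ring_t_mk {e : V} (he : ‖e‖ = 1) (p : V) {w : V} (hw : ⟪w, e⟫ = 0) (t : ℝ) :
    Ring_t p e (p + w + t • e) = t := by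
  have e1 : p + w + t • e - p = w + t • e := by abel
  rw [Ring_t, e1, inner_add_left, real_inner_smul_left, real_inner_self_eq_norm_sq, he, hw]
  ring

theorem Ring_w_mk {e : V} (he : ‖e‖ = 1) (p : V) {w : V} (hw : ⟪w, e⟫ = 0) (t : ℝ) :
    Ring_w p e (p + w + t • e) = w := by
  rw [Ring_w, Ring_t_mk he p hw]
  abel

theorem Ring_cont_t (p e : V) : Continuous (Ring_t p e) := by
  unfold Ring_t
  fun_prop

theorem Ring_cont_w (p e : V) : Continuous (Ring_w p e) := by
  unfold Ring_w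
  exact (continuous_id.sub continuous_const).sub ((Ring_cont_t p e).smul continuous_const)

theorem Ring_dist {e : V} (he : ‖e‖ = 1) (p x : V) :
    dist x p ≤ ‖Ring_w p e x‖ + |Ring_t p e x| := by
  rw [dist_eq_norm]
  have e1 : x - p = Ring_w p e x + Ring_t p e x • e := by rw [Ring_w]; abel
  have e2 : ‖Ring_t p e x • e‖ = |Ring_t p e x| := by
    rw [norm_smul, he, mul_one, Real.norm_eq_abs]
  calc ‖x - p‖ = ‖Ring_w p e x + Ring_t p e x • e‖ := by rw [← e1]
    _ ≤ ‖Ring_w p e x‖ + ‖Ring_t p e x • e‖ := norm_add_le _ _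
    _ = _ := by rw [e2]

theorem Ring_le (p e x : V) : ⟪x, e⟫ ≤ ⟪p, e⟫ ↔ Ring_t p e x ≤ 0 := by
  rw [Ring_t, inner_sub_left]
  exact sub_nonpos.symm

theorem Ring_fd {F : V → ℝ} {e x w : V} (h : Inward F e x) (hw : ⟪w, e⟫ = 0) :
    fderiv ℝ F x w = 0 := by
  obtain ⟨_, l, _, hl⟩ := h
  have e1 : ⟪gradient F x, w⟫ = fderiv ℝ F x w := by
    rw [gradient]
    exact InnerProductSpace.toDual_symm_apply
  rw [← e1, hl, inner_neg_left, real_inner_smul_left, real_inner_comm, hw, mul_zero, neg_zero]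

/-- The equator is preconnected. -/
theorem Ring_equator (hdim : 3 ≤ Module.finrank ℝ V) {e : V} (he : ‖e‖ = 1) (p : V) (r : ℝ) :
    IsPreconnected {x : V | ‖Ring_w p e x‖ = r ∧ Ring_t p e x = 0} := by
  have he0 : e ≠ 0 := by
    rintro rfl
    simp at he
  have hfr : Module.finrank ℝ (ℝ ∙ e)ᗮ + 1 = Module.finrank ℝ V := by
    have h1 := Submodule.finrank_add_finrank_orthogonal (ℝ ∙ e)
    rw [finrank_span_singleton he0] at h1
    omega
  have hrank : 1 < Module.rank ℝ (ℝ ∙ e)ᗮ := by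
    rw [← Module.finrank_eq_rank]
    have : 2 ≤ Module.finrank ℝ (ℝ ∙ e)ᗮ := by omega
    exact_mod_cast this
  have h2 := (isPreconnected_sphere hrank (0 : (ℝ ∙ e)ᗮ) r).image
    (fun w : (ℝ ∙ e)ᗮ => p + (w : V)) (by fun_prop)
  have h3 : {x : V | ‖Ring_w p e x‖ = r ∧ Ring_t p e x = 0} =
      (fun w : (ℝ ∙ e)ᗮ => p + (w : V)) '' sphere 0 r := by
    ext x
    constructor
    · rintro ⟨hw, ht⟩
      have hmem : Ring_w p e x ∈ (ℝ ∙ e)ᗮ := by
        rw [Submodule.mem_orthogonal_singleton_iff_inner_left]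
        exact Ring_orth he p x
      refine ⟨⟨Ring_w p e x, hmem⟩, ?_, ?_⟩
      · rw [mem_sphere, dist_zero_right]
        exact hw
      · have := Ring_eq p e x
        rw [ht, zero_smul, add_zero] at this
        exact this
    · rintro ⟨w, hw, rfl⟩
      rw [mem_sphere, dist_zero_right] at hw
      have hw0 : ⟪(w : V), e⟫ = 0 :=
        Submodule.mem_orthogonal_singleton_iff_inner_left.1 w.2
      have h4 := Ring_w_mk he p hw0 0
      have h5 := Ring_t_mk he p hw0 0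
      rw [zero_smul, add_zero] at h4 h5
      refine ⟨?_, h5⟩
      show ‖Ring_w p e (p + (w : V))‖ = r
      rw [h4]
      exact hw
  rw [h3]
  exact h2

/-- Near a point `p` with normal `-e` and negative second fundamental form, the part of the domain
below `p` is separated from `p` by a connected set.

PROOF.  Take `ρ₀` from `cg_uniform` with `s = -1`, and `ρ' > 0` with `ρ' < ρ₀/2`, `ρ' < ε/2`.  For a
point `x` write `t = ⟪x - p, e⟫`, `w = x - p - t•e` (so `x = p + w + t•e`, `w ⊥ e`,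
`‖x - p‖² = ‖w‖² + t²`).
(a) `F (p - ρ'•e) > 0` by `cg_vertical` at `p`; by continuity there is `r ∈ (0, ρ')` with
`F (p + w - ρ'•e) > 0` for all `‖w‖ ≤ r`.
(b) `F (p + t•e) > 0` for `-ρ' ≤ t < 0` (`cg_vertical`).
(c) `F (p + w) < 0` for `w ⊥ e`, `0 < ‖w‖ ≤ r` (`cg_segment`, `s = -1`).
(d) if `-ρ' ≤ t ≤ 0`, `‖w‖ ≤ r`, `w ⊥ e`, and `x = p + w + t•e` is `Inward`, then `x = p`: if
`w ≠ 0`, apply `cg_segment` with `s = -1` at `x` with the vector `-w` (`fderiv F x w = 0` because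
the gradient is a multiple of `e`): `F (p + t•e) < F x = 0`, but `F (p + t•e) ≥ 0`; if `w = 0`,
then `F x = 0` forces `t = 0` by (b).
Put `U = {x | ‖w‖ < r ∧ |t| < ρ'}` and `A = {x | ‖w‖ = r ∧ -ρ' ≤ t ∧ t ≤ 0 ∧ F x ≤ 0}`.
`U` is open, contains `p`; `U, A ⊆ ball p ε` since `r² + ρ'² < ε²`.  `A` is closed and bounded, so
compact.  A point of `frontier U` satisfies `‖w‖ ≤ r`, `|t| ≤ ρ'` and (`‖w‖ = r` or `|t| = ρ'`); if
moreover `F x ≤ 0` and `t ≤ 0`, then `t = -ρ'` is excluded by (a), so `‖w‖ = r` and `x ∈ A` (if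
`|t| = ρ'` and `t ≤ 0` then `t = -ρ'`).
`A` is preconnected: the equator `Q = {p + w | w ⊥ e, ‖w‖ = r} ⊆ A` is the image of a sphere of
the subspace `(ℝ ∙ e)ᗮ` of dimension `≥ 2` (`isPreconnected_sphere`), and for `x ∈ A` the vertical
segment `{p + w + t'•e | t ≤ t' ≤ 0}` from `x` to `p + w ∈ Q` lies in `A` (`F` decreases when `t'`
increases, `cg_vertical` or monotonicity); so `A` is the union of the preconnected sets
`Q ∪ segment`, which all contain `Q` (`isPreconnected_sUnion` / `isPreconnected_iUnion`).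
Last two claims: (d). -/
theorem cg_ring (hdim : 3 ≤ Module.finrank ℝ V) (F : V → ℝ) (hF : ContDiff ℝ ∞ F) (e : V)
    (he : ‖e‖ = 1) (p : V) (hp : Inward F e p) (hd : NegAt F e p) (ε : ℝ) (hε : 0 < ε) :
    ∃ U A : Set V, IsOpen U ∧ p ∈ U ∧ U ⊆ ball p ε ∧ IsCompact A ∧ IsPreconnected A ∧
      (∀ x ∈ A, F x ≤ 0 ∧ ⟪x, e⟫ ≤ ⟪p, e⟫ ∧ dist x p < ε ∧ ¬ Inward F e x) ∧
      (∀ x ∈ frontier U, F x ≤ 0 → ⟪x, e⟫ ≤ ⟪p, e⟫ → x ∈ A) ∧
      (∀ x ∈ U, Inward F e x → ⟪x, e⟫ ≤ ⟪p, e⟫ → x = p) := by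
  obtain ⟨ρ₀, hρ₀, hρ⟩ := cg_uniform F hF e he p hp (-1) (fun w hw hw0 => by
    have := hd w hw hw0
    linarith)
  obtain ⟨ρ, hρ0, hρ1, hρ2⟩ : ∃ ρ : ℝ, 0 < ρ ∧ 4 * ρ ≤ ρ₀ ∧ 4 * ρ ≤ ε :=
    ⟨min ρ₀ ε / 4, by positivity, by linarith [min_le_left ρ₀ ε], by
      linarith [min_le_right ρ₀ ε]⟩
  have hball : ∀ (w : V) (t : ℝ), ‖w‖ ≤ ρ → |t| ≤ ρ → p + w + t • e ∈ closedBall p ρ₀ := by
    intro w t hw ht
    rw [mem_closedBall, dist_eq_norm]
    have e1 : p + w + t • e - p = w + t • e := by abel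
    rw [e1]
    refine (norm_add_le _ _).trans ?_
    rw [norm_smul, he, mul_one, Real.norm_eq_abs]
    linarith
  have hvert : ∀ (w : V) (t t' : ℝ), ‖w‖ ≤ ρ → -ρ ≤ t → t < t' → t' ≤ ρ →
      F (p + w + t' • e) < F (p + w + t • e) := by
    intro w t t' hw h1 h2 h3
    have h4 := cg_vertical F hF (p + w + t' • e) e (t - t') (by linarith) (fun r hr => by
      have e1 : p + w + t' • e + r • e = p + w + (t' + r) • e := by rw [add_smul]; abel
      rw [e1]
      exact (hρ _ (hball w _ hw (abs_le.2 ⟨by linarith [hr.1], by linarith [hr.2]⟩))).1)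
    have e1 : p + w + t' • e + (t - t') • e = p + w + t • e := by rw [sub_smul]; abel
    rwa [e1] at h4
  have hF0 : F (p + 0 + (0 : ℝ) • e) = 0 := by
    rw [zero_smul, add_zero, add_zero]; exact hp.1
  have hb : ∀ t : ℝ, -ρ ≤ t → t < 0 → 0 < F (p + 0 + t • e) := by
    intro t h1 h2
    have h3 := hvert 0 t 0 (by rw [norm_zero]; exact hρ0.le) h1 h2 hρ0.le
    rwa [hF0] at h3
  have hb' : ∀ t : ℝ, -ρ ≤ t → t ≤ 0 → 0 ≤ F (p + 0 + t • e) := by
    intro t h1 h2
    rcases h2.lt_or_eq with h3 | rfl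
    · exact (hb t h1 h3).le
    · exact hF0.ge
  have hcont : Continuous F := hF.continuous
  obtain ⟨r₁, hr₁, hr₁'⟩ : ∃ r₁ > 0, ∀ w : V, ‖w‖ < r₁ → 0 < F (p + w + (-ρ) • e) := by
    have hc : Continuous fun w : V => F (p + w + (-ρ) • e) := by fun_prop
    have h1 := (hc.continuousAt (x := (0 : V))).eventually
      (lt_mem_nhds (hb (-ρ) le_rfl (by linarith)))
    obtain ⟨r₁, hr₁, h⟩ := Metric.eventually_nhds_iff.1 h1
    refine ⟨r₁, hr₁, fun w hw => h ?_⟩
    rw [dist_zero_right]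
    exact hw
  obtain ⟨r, hr0, hrρ, hr1⟩ : ∃ r : ℝ, 0 < r ∧ r < ρ ∧ r < r₁ := by
    refine ⟨min ρ r₁ / 2, by positivity, ?_, ?_⟩
    · linarith [min_le_left ρ r₁]
    · linarith [min_le_right ρ r₁]
  have hc : ∀ w : V, ⟪w, e⟫ = 0 → w ≠ 0 → ‖w‖ ≤ ρ → F (p + w) < 0 := by
    intro w hw hw0 hwρ
    have h1 := cg_segment F hF p w (-1) (Ring_fd hp hw) (fun t ht => by
      have hmem := hball (t • w) 0 (by
        rw [norm_smul, Real.norm_eq_abs, abs_of_nonneg ht.1]
        nlinarith [norm_nonneg w, ht.2]) (by rw [abs_zero]; exact hρ0.le)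
      rw [zero_smul, add_zero] at hmem
      exact (hρ _ hmem).2 w hw hw0)
    rw [hp.1] at h1
    linarith
  have hdd : ∀ (w : V) (t : ℝ), ⟪w, e⟫ = 0 → ‖w‖ ≤ ρ → -ρ ≤ t → t ≤ 0 →
      Inward F e (p + w + t • e) → w = 0 ∧ t = 0 := by
    intro w t hw hwρ h1 h2 hin
    by_cases hw0 : w = 0
    · refine ⟨hw0, ?_⟩
      subst hw0
      by_contra ht
      have h3 := hb t h1 (lt_of_le_of_ne h2 ht)
      rw [hin.1] at h3
      exact lt_irrefl _ h3
    · exfalso
      have hwn : ⟪-w, e⟫ = 0 := by rw [inner_neg_left, hw, neg_zero]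
      have h3 := cg_segment F hF (p + w + t • e) (-w) (-1) (Ring_fd hin hwn) (fun s hs => by
        have e1 : p + w + t • e + s • -w = p + (1 - s) • w + t • e := by
          rw [smul_neg, sub_smul, one_smul]; abel
        rw [e1]
        have hmem := hball ((1 - s) • w) t (by
          rw [norm_smul, Real.norm_eq_abs, abs_of_nonneg (by linarith [hs.2])]
          nlinarith [norm_nonneg w, hs.1]) (abs_le.2 ⟨h1, by linarith⟩)
        exact (hρ _ hmem).2 (-w) hwn (neg_ne_zero.2 hw0))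
      rw [hin.1] at h3
      have e2 : p + w + t • e + -w = p + 0 + t • e := by abel
      rw [e2] at h3
      have h4 := hb' t h1 h2
      linarith
  have hct := Ring_cont_t p e
  have hcw := (Ring_cont_w p e).norm
  have habs : ∀ x : V, -ρ ≤ Ring_t p e x → Ring_t p e x ≤ 0 → |Ring_t p e x| ≤ ρ := fun x h1 h2 =>
    abs_le.2 ⟨h1, by linarith⟩
  refine ⟨{x | ‖Ring_w p e x‖ < r ∧ |Ring_t p e x| < ρ},
    {x | ‖Ring_w p e x‖ = r ∧ -ρ ≤ Ring_t p e x ∧ Ring_t p e x ≤ 0 ∧ F x ≤ 0},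
    ?_, ?_, ?_, ?_, ?_, ?_, ?_, ?_⟩
  · exact (isOpen_lt hcw continuous_const).inter (isOpen_lt hct.abs continuous_const)
  · have h1 : Ring_t p e p = 0 := by rw [Ring_t, sub_self, inner_zero_left]
    have h2 : Ring_w p e p = 0 := by rw [Ring_w, h1, sub_self, zero_smul, sub_zero]
    exact ⟨by rw [h2, norm_zero]; exact hr0, by rw [h1, abs_zero]; exact hρ0⟩
  · rintro x ⟨h1, h2⟩
    rw [mem_ball]
    have h3 := Ring_dist he p x
    linarith
  · refine Metric.isCompact_of_isClosed_isBounded ?_ ?_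
    · exact (isClosed_eq hcw continuous_const).inter ((isClosed_le continuous_const hct).inter
        ((isClosed_le hct continuous_const).inter (isClosed_le hcont continuous_const)))
    · refine (Metric.isBounded_closedBall (x := p) (r := ρ₀)).subset ?_
      rintro x ⟨h1, h2, h3, _⟩
      rw [mem_closedBall]
      have h4 := Ring_dist he p x
      have h5 := habs x h2 h3
      linarith
  · -- connectedness
    have hQA : {x : V | ‖Ring_w p e x‖ = r ∧ Ring_t p e x = 0} ⊆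
        {x | ‖Ring_w p e x‖ = r ∧ -ρ ≤ Ring_t p e x ∧ Ring_t p e x ≤ 0 ∧ F x ≤ 0} := by
      rintro x ⟨h1, h2⟩
      refine ⟨h1, by rw [h2]; linarith, h2.le, ?_⟩
      have h3 := Ring_eq p e x
      rw [h2, zero_smul, add_zero] at h3
      rw [← h3]
      refine (hc _ (Ring_orth he p x) ?_ (by rw [h1]; exact hrρ.le)).le
      intro h4
      rw [h4, norm_zero] at h1
      exact hr0.ne h1
    have hQ := Ring_equator hdim he p r
    have hseg : ∀ x ∈ {x | ‖Ring_w p e x‖ = r ∧ -ρ ≤ Ring_t p e x ∧ Ring_t p e x ≤ 0 ∧ F x ≤ 0},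
        ∃ S : Set V, S ⊆
          {x | ‖Ring_w p e x‖ = r ∧ -ρ ≤ Ring_t p e x ∧ Ring_t p e x ≤ 0 ∧ F x ≤ 0} ∧
          x ∈ S ∧ p + Ring_w p e x ∈ S ∧ IsPreconnected S := by
      rintro x ⟨h1, h2, h3, h4⟩
      refine ⟨(fun t : ℝ => p + Ring_w p e x + t • e) '' Icc (Ring_t p e x) 0, ?_, ?_, ?_, ?_⟩
      · rintro _ ⟨t, ht, rfl⟩
        have ho := Ring_orth he p x
        refine ⟨?_, ?_, ?_, ?_⟩
        · show ‖Ring_w p e (p + Ring_w p e x + t • e)‖ = r
          rw [Ring_w_mk he p ho]; exact h1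
        · show -ρ ≤ Ring_t p e (p + Ring_w p e x + t • e)
          rw [Ring_t_mk he p ho]; exact h2.trans ht.1
        · show Ring_t p e (p + Ring_w p e x + t • e) ≤ 0
          rw [Ring_t_mk he p ho]; exact ht.2
        · rcases ht.1.lt_or_eq with h5 | h5
          · have h6 := hvert (Ring_w p e x) (Ring_t p e x) t (by rw [h1]; exact hrρ.le) h2 h5
              (by linarith [ht.2])
            rw [Ring_eq p e x] at h6
            exact h6.le.trans h4
          · show F (p + Ring_w p e x + t • e) ≤ 0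
            rw [← h5, Ring_eq p e x]
            exact h4
      · exact ⟨Ring_t p e x, ⟨le_rfl, h3⟩, Ring_eq p e x⟩
      · refine ⟨0, ⟨h3, le_rfl⟩, ?_⟩
        show p + Ring_w p e x + (0 : ℝ) • e = _
        rw [zero_smul, add_zero]
      · exact isPreconnected_Icc.image _ (by fun_prop)
    have hbase : ∀ x : V, ‖Ring_w p e x‖ = r →
        p + Ring_w p e x ∈ {x : V | ‖Ring_w p e x‖ = r ∧ Ring_t p e x = 0} := by
      intro x hx
      have ho := Ring_orth he p x
      have h4 := Ring_w_mk he p ho 0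
      have h5 := Ring_t_mk he p ho 0
      rw [zero_smul, add_zero] at h4 h5
      refine ⟨?_, h5⟩
      show ‖Ring_w p e (p + Ring_w p e x)‖ = r
      rw [h4]; exact hx
    refine isPreconnected_of_forall_pair ?_
    intro x hx y hy
    obtain ⟨S, hS1, hS2, hS3, hS4⟩ := hseg x hx
    obtain ⟨S', hS1', hS2', hS3', hS4'⟩ := hseg y hy
    refine ⟨(S ∪ {x : V | ‖Ring_w p e x‖ = r ∧ Ring_t p e x = 0}) ∪ S', ?_, Or.inl (Or.inl hS2),
      Or.inr hS2', ?_⟩
    · exact union_subset (union_subset hS1 hQA) hS1'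
    · refine IsPreconnected.union (p + Ring_w p e y) (Or.inr (hbase y hy.1)) hS3' ?_ hS4'
      exact IsPreconnected.union (p + Ring_w p e x) hS3 (hbase x hx.1) hS4 hQ
  · rintro x ⟨h1, h2, h3, h4⟩
    refine ⟨h4, (Ring_le p e x).2 h3, ?_, ?_⟩
    · have h5 := Ring_dist he p x
      have h6 := habs x h2 h3
      linarith
    · intro hin
      rw [← Ring_eq p e x] at hin
      have h5 := hdd _ _ (Ring_orth he p x) (by rw [h1]; exact hrρ.le) h2 h3 hin
      rw [h5.1, norm_zero] at h1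
      exact hr0.ne h1
  · intro x hx hFx hxe
    have ht := (Ring_le p e x).1 hxe
    have hU : IsOpen {x : V | ‖Ring_w p e x‖ < r ∧ |Ring_t p e x| < ρ} :=
      (isOpen_lt hcw continuous_const).inter (isOpen_lt hct.abs continuous_const)
    rw [hU.frontier_eq] at hx
    have hcl : closure {x : V | ‖Ring_w p e x‖ < r ∧ |Ring_t p e x| < ρ} ⊆
        {x : V | ‖Ring_w p e x‖ ≤ r ∧ |Ring_t p e x| ≤ ρ} := by
      refine closure_minimal (fun y hy => ⟨hy.1.le, hy.2.le⟩) ?_
      exact (isClosed_le hcw continuous_const).inter (isClosed_le hct.abs continuous_const)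
    obtain ⟨h1, h2⟩ := hcl hx.1
    have h3 := (abs_le.1 h2).1
    refine ⟨?_, h3, ht, hFx⟩
    by_contra hne
    have hlt : ‖Ring_w p e x‖ < r := lt_of_le_of_ne h1 hne
    have h4 : ¬ |Ring_t p e x| < ρ := fun h => hx.2 ⟨hlt, h⟩
    rw [abs_of_nonpos ht] at h4
    have h5 : Ring_t p e x = -ρ := by linarith
    have h6 := hr₁' (Ring_w p e x) (hlt.trans hr1)
    rw [← h5, Ring_eq p e x] at h6
    linarith
  · rintro x ⟨h1, h2⟩ hin hxe
    have ht := (Ring_le p e x).1 hxe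
    rw [← Ring_eq p e x] at hin
    have h5 := hdd _ _ (Ring_orth he p x) (h1.le.trans hrρ.le) (abs_lt.1 h2).1.le ht hin
    have h6 := Ring_eq p e x
    rw [h5.1, h5.2, zero_smul, add_zero, add_zero] at h6
    exact h6.symm

end Pool.Schoen
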