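import Mathlib

/-! Conformal gap theorem: two facts on connected sets. -/

set_option autoImplicit false

namespace Pool.Schoen

open Set

/-- Auxiliary form of `cg_surgery` for one closed decomposition. -/
private theorem topo_surgery_aux {X : Type*} [TopologicalSpace X] (C U A S T : Set X)
    (hC : IsClosed C) (hCc : IsPreconnected C) (hU : IsOpen U)
    (hfr : C ∩ frontier U ⊆ A) (hne : (C ∩ U).Nonempty)
    (hS : IsClosed S) (hT : IsClosed T) (hcov : (C \ U) ∪ A ⊆ S ∪ T)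
    (hdis : ((C \ U) ∪ A) ∩ (S ∩ T) = ∅) (hAS : A ⊆ S) : (C \ U) ∪ A ⊆ S := by
  have hCU : IsClosed (C \ U) := hC.sdiff hU
  have hY : IsClosed ((C \ U) ∩ T) := hCU.inter hT
  have hZ : IsClosed ((C ∩ closure U) ∪ ((C \ U) ∩ S)) :=
    (hC.inter isClosed_closure).union (hCU.inter hS)
  have hcov2 : C ⊆ ((C \ U) ∩ T) ∪ ((C ∩ closure U) ∪ ((C \ U) ∩ S)) := by
    intro x hx
    by_cases hxU : x ∈ U
    · exact Or.inr (Or.inl ⟨hx, subset_closure hxU⟩)
    · rcases hcov (Or.inl ⟨hx, hxU⟩) with h | h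
      · exact Or.inr (Or.inr ⟨⟨hx, hxU⟩, h⟩)
      · exact Or.inl ⟨⟨hx, hxU⟩, h⟩
  have hdis2 : ((C \ U) ∩ T) ∩ ((C ∩ closure U) ∪ ((C \ U) ∩ S)) = ∅ := by
    ext x
    simp only [mem_inter_iff, mem_union, mem_empty_iff_false, iff_false]
    rintro ⟨⟨hxC, hxT⟩, h | h⟩
    · have hxf : x ∈ frontier U := by
        rw [frontier, hU.interior_eq]
        exact ⟨h.2, hxC.2⟩
      have hxA : x ∈ A := hfr ⟨hxC.1, hxf⟩
      have : x ∈ ((C \ U) ∪ A) ∩ (S ∩ T) := ⟨Or.inr hxA, hAS hxA, hxT⟩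
      rw [hdis] at this
      exact this
    · have : x ∈ ((C \ U) ∪ A) ∩ (S ∩ T) := ⟨Or.inl hxC, h.2, hxT⟩
      rw [hdis] at this
      exact this
  have key := isPreconnected_closed_iff.1 hCc _ _ hY hZ hcov2
  have hYe : (C \ U) ∩ T = ∅ := by
    by_contra hcon
    obtain ⟨y, hy⟩ := nonempty_iff_ne_empty.2 hcon
    obtain ⟨c, hc⟩ := hne
    have h3 := key ⟨y, hy.1.1, hy⟩ ⟨c, hc.1, Or.inl ⟨hc.1, subset_closure hc.2⟩⟩
    obtain ⟨z, -, hz⟩ := h3
    rw [hdis2] at hz
    exact hz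
  intro x hx
  rcases hx with hx | hx
  · rcases hcov (Or.inl hx) with h | h
    · exact h
    · have : x ∈ (C \ U) ∩ T := ⟨hx, h⟩
      rw [hYe] at this
      exact absurd this (notMem_empty x)
  · exact hAS hx

/-- Replacing the part of a connected closed set in an open set `U` by a connected set containing
its trace on the frontier. -/
theorem cg_surgery {X : Type*} [TopologicalSpace X] (C U A : Set X) (hC : IsClosed C)
    (hCc : IsPreconnected C) (hU : IsOpen U) (hA : IsClosed A) (hAc : IsPreconnected A)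
    (hfr : C ∩ frontier U ⊆ A) (hne : (C ∩ U).Nonempty) : IsPreconnected ((C \ U) ∪ A) := by
  have hcl : IsClosed ((C \ U) ∪ A) := (hC.sdiff hU).union hA
  rw [isPreconnected_iff_subset_of_fully_disjoint_closed hcl]
  intro S T hS hT hcov hST
  have hd1 : ((C \ U) ∪ A) ∩ (S ∩ T) = ∅ := by
    rw [hST.inter_eq, inter_empty]
  rw [isPreconnected_iff_subset_of_fully_disjoint_closed hA] at hAc
  rcases hAc S T hS hT (subset_union_right.trans hcov) hST with h | h
  · exact Or.inl (topo_surgery_aux C U A S T hC hCc hU hfr hne hS hT hcov hd1 h)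
  · refine Or.inr (topo_surgery_aux C U A T S hC hCc hU hfr hne hT hS ?_ ?_ h)
    · rw [union_comm T S]; exact hcov
    · rw [inter_comm T S]; exact hd1

/-- A decreasing intersection of compact connected sets is connected. -/
theorem cg_nested {X : Type*} [TopologicalSpace X] [T2Space X] (K : ℕ → Set X) (hK : Antitone K)
    (hc : ∀ n, IsCompact (K n)) (hp : ∀ n, IsPreconnected (K n)) :
    IsPreconnected (⋂ n, K n) := by
  have hKc : ∀ n, IsClosed (K n) := fun n => (hc n).isClosed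
  have hcl : IsClosed (⋂ n, K n) := isClosed_iInter hKc
  rw [isPreconnected_iff_subset_of_fully_disjoint_closed hcl]
  intro S T hS hT hcov hST
  by_contra hcon
  push Not at hcon
  obtain ⟨h1, h2⟩ := hcon
  obtain ⟨x, hx, hxS⟩ := not_subset.1 h1
  obtain ⟨y, hy, hyT⟩ := not_subset.1 h2
  have hxT : x ∈ T := (hcov hx).resolve_left hxS
  have hyS : y ∈ S := (hcov hy).resolve_right hyT
  have hIc : IsCompact (⋂ n, K n) := (hc 0).of_isClosed_subset hcl (iInter_subset _ 0)
  have hcS : IsCompact ((⋂ n, K n) ∩ S) := hIc.inter_right hS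
  have hcT : IsCompact ((⋂ n, K n) ∩ T) := hIc.inter_right hT
  have hd : Disjoint ((⋂ n, K n) ∩ S) ((⋂ n, K n) ∩ T) :=
    hST.mono inter_subset_right inter_subset_right
  obtain ⟨O1, O2, hO1, hO2, hs1, hs2, hO⟩ := SeparatedNhds.of_isCompact_isCompact hcS hcT hd
  have hdir : Directed (· ⊇ ·) K := directed_of_isDirected_le fun i j h => hK h
  obtain ⟨n, hn⟩ := exists_subset_nhds_of_isCompact' hdir hc hKc (U := O1 ∪ O2) (by
    intro z hz
    refine (hO1.union hO2).mem_nhds ?_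
    rcases hcov hz with h | h
    · exact Or.inl (hs1 ⟨hz, h⟩)
    · exact Or.inr (hs2 ⟨hz, h⟩))
  obtain ⟨z, -, hz1, hz2⟩ := hp n O1 O2 hO1 hO2 hn
    ⟨y, mem_iInter.1 hy n, hs1 ⟨hy, hyS⟩⟩ ⟨x, mem_iInter.1 hx n, hs2 ⟨hx, hxT⟩⟩
  exact disjoint_left.1 hO hz1 hz2

end Pool.Schoen
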