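import Mathlib
import Pool.Agent.H.MP_6c077c_gt.CG.Ring
import Pool.Agent.H.MP_6c077c_gt.CG.Topo

/-! Conformal gap theorem: removing the points with normal `-e` from a continuum. -/

set_option autoImplicit false

namespace Pool.Schoen

open scoped ContDiff RealInnerProductSpace
open Metric Set

variable {V : Type*} [NormedAddCommGroup V] [InnerProductSpace ℝ V] [FiniteDimensional ℝ V]

/-- Getting rid of the points with normal `-e` at the top level of a continuum.

PROOF.  Induction on the finset `S` (for all `C`).  `S = ∅`: take `C' = C`.  Step: let `p ∈ S`;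
choose `ε > 0` smaller than the distances from `p` to `q₁`, `q₂` (both `≠ p`, as `p ∈ S` is `NegAt`
and `q₁, q₂ ∉ S` by hypothesis) and to the other points of `S`.  Let `U, A` be from `cg_ring`.  Put
`C₁ = (C \ U) ∪ A`: compact, contains `q₁, q₂` (they are not in `U ⊆ ball p ε`), contained in
`{F ≤ 0} ∩ {height ≤ s}` (`⟪p,e⟫ = s`), preconnected by `cg_surgery`
(`C ∩ frontier U ⊆ A` by the frontier property of `cg_ring`; `p ∈ C ∩ U`).  The points of `C₁` which
are `Inward` and have height `s` are exactly those of `S.erase p`: a point of `A` is not `Inward`;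
a point of `C \ U` which is Inward of height `s` is in `S` and `≠ p`; conversely the points of
`S.erase p` are in `C` and not in `U`.  Apply the induction hypothesis to `C₁`, `S.erase p`. -/
theorem cg_clean (hdim : 3 ≤ Module.finrank ℝ V) (F : V → ℝ) (hF : ContDiff ℝ ∞ F) (e : V)
    (he : ‖e‖ = 1) (q₁ q₂ : V) (s : ℝ) (S : Finset V) :
    ∀ C : Set V, IsCompact C → IsPreconnected C → q₁ ∈ C → q₂ ∈ C → q₁ ∉ S → q₂ ∉ S →
      (∀ x ∈ C, F x ≤ 0 ∧ ⟪x, e⟫ ≤ s) →
      (∀ x, x ∈ S ↔ x ∈ C ∧ Inward F e x ∧ ⟪x, e⟫ = s) → (∀ x ∈ S, NegAt F e x) →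
      ∃ C' : Set V, IsCompact C' ∧ IsPreconnected C' ∧ q₁ ∈ C' ∧ q₂ ∈ C' ∧
        (∀ x ∈ C', F x ≤ 0 ∧ ⟪x, e⟫ ≤ s) ∧ (∀ x ∈ C', Inward F e x → ⟪x, e⟫ ≠ s) := by
  classical
  induction S using Finset.induction_on with
  | empty =>
    intro C hC hCp h1 h2 _ _ hle hS _
    refine ⟨C, hC, hCp, h1, h2, hle, fun x hx hi hs => ?_⟩
    exact absurd ((hS x).mpr ⟨hx, hi, hs⟩) (Finset.notMem_empty x)
  | insert p S hpS ih =>
    intro C hC hCp h1 h2 h3 h4 hle hS hneg
    have hpm : p ∈ insert p S := Finset.mem_insert_self p S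
    have hp := (hS p).mp hpm
    have hq1 : q₁ ≠ p := fun h => h3 (by rw [h]; exact hpm)
    have hq2 : q₂ ≠ p := fun h => h4 (by rw [h]; exact hpm)
    have hfin : ((S : Set V) ∪ {q₁, q₂}).Finite :=
      (Finset.finite_toSet S).union ((Set.finite_singleton q₂).insert q₁)
    have hpn : p ∈ ((S : Set V) ∪ {q₁, q₂})ᶜ := by
      rintro (h | h | h)
      · exact hpS h
      · exact hq1 h.symm
      · exact hq2 h.symm
    obtain ⟨ε, hε, hball⟩ := Metric.isOpen_iff.mp hfin.isClosed.isOpen_compl p hpn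
    obtain ⟨U, A, hU, hpU, hUb, hA, hAp, hA1, hA2, hA3⟩ :=
      cg_ring hdim F hF e he p hp.2.1 (hneg p hpm) ε hε
    have hout : ∀ x ∈ ((S : Set V) ∪ {q₁, q₂}), x ∉ U := fun x hx hxU => hball (hUb hxU) hx
    refine ih ((C \ U) ∪ A) ((hC.diff hU).union hA) ?_ ?_ ?_ ?_ ?_ ?_ ?_ ?_
    · refine cg_surgery C U A hC.isClosed hCp hU hA.isClosed hAp ?_ ⟨p, hp.1, hpU⟩
      intro x hx
      exact hA2 x hx.2 (hle x hx.1).1 (by rw [hp.2.2]; exact (hle x hx.1).2)
    · exact Or.inl ⟨h1, hout q₁ (Or.inr (Or.inl rfl))⟩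
    · exact Or.inl ⟨h2, hout q₂ (Or.inr (Or.inr rfl))⟩
    · exact fun h => h3 (Finset.mem_insert_of_mem h)
    · exact fun h => h4 (Finset.mem_insert_of_mem h)
    · rintro x (hx | hx)
      · exact hle x hx.1
      · obtain ⟨a1, a2, _, _⟩ := hA1 x hx
        exact ⟨a1, by rw [← hp.2.2]; exact a2⟩
    · intro x
      constructor
      · intro hx
        obtain ⟨b1, b2, b3⟩ := (hS x).mp (Finset.mem_insert_of_mem hx)
        exact ⟨Or.inl ⟨b1, hout x (Or.inl hx)⟩, b2, b3⟩
      · rintro ⟨hx | hx, b2, b3⟩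
        · have h5 := (hS x).mpr ⟨hx.1, b2, b3⟩
          rcases Finset.mem_insert.mp h5 with h6 | h6
          · exact absurd (by rw [h6]; exact hpU) hx.2
          · exact h6
        · exact absurd b2 (hA1 x hx).2.2.2
    · exact fun x hx => hneg x (Finset.mem_insert_of_mem hx)

end Pool.Schoen
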