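import Mathlib
import Pool.Agent.H.MP_6c077c_gt.CG.Defs

/-! Conformal gap theorem: a map of the domain to itself which lowers the height. -/

set_option autoImplicit false

namespace Pool.Schoen

open scoped ContDiff RealInnerProductSpace
open Metric Set

variable {V : Type*} [NormedAddCommGroup V] [InnerProductSpace ℝ V] [FiniteDimensional ℝ V]

private theorem descend_fd (F : V → ℝ) (x v : V) : fderiv ℝ F x v = ⟪gradient F x, v⟫ := by
  unfold gradient
  rw [InnerProductSpace.toDual_symm_apply]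

private theorem descend_fderiv_smooth (F : V → ℝ) (hF : ContDiff ℝ ∞ F) :
    ContDiff ℝ ∞ (fderiv ℝ F) := hF.fderiv_right (m := ∞) (by simp)

private theorem descend_grad_cont (F : V → ℝ) (hF : ContDiff ℝ ∞ F) :
    Continuous (gradient F) := by
  unfold gradient
  exact (LinearIsometryEquiv.continuous _).comp (descend_fderiv_smooth F hF).continuous

private theorem descend_compact (F : V → ℝ) (hF : ContDiff ℝ ∞ F)
    (hb : Bornology.IsBounded {x | F x ≤ 0}) : IsCompact {x | F x ≤ 0} := by
  have : ProperSpace V := FiniteDimensional.proper_real V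
  exact Metric.isCompact_of_isClosed_isBounded (isClosed_le hF.continuous continuous_const) hb

/-- Second order Taylor bound on a bounded set.

PROOF.  Let `R` bound the norm on `W`.  `fderiv ℝ F` is `C¹`, so its derivative is bounded by some
`C₀` on the compact ball `closedBall 0 (R + 2)`, and by the mean value inequality on this convex
set `‖fderiv F y - fderiv F x‖ ≤ C₀ ‖y - x‖` for `x, y` in it.  For `x ∈ W`, `‖v‖ ≤ 2`,
`τ ∈ [0,1]` apply `Convex.norm_image_sub_le_of_norm_hasFDerivWithin_le` (or the `fderiv` version)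
to `y ↦ F y - fderiv F x y` on the convex set `closedBall x (τ‖v‖) ⊆ closedBall 0 (R+2)`, where
its derivative has norm at most `C₀ τ ‖v‖`; so `|F (x+τv) - F x - τ fderiv F x v| ≤ C₀ τ² ‖v‖²`.
Take `C = C₀ + 1` (or `max`). -/
theorem cg_taylor (F : V → ℝ) (hF : ContDiff ℝ ∞ F) (hb : Bornology.IsBounded {x | F x ≤ 0}) :
    ∃ C : ℝ, 0 < C ∧ ∀ x v : V, ∀ τ : ℝ, F x ≤ 0 → ‖v‖ ≤ 2 → 0 ≤ τ → τ ≤ 1 →
      F (x + τ • v) ≤ F x + τ * fderiv ℝ F x v + C * τ ^ 2 * ‖v‖ ^ 2 := by
  have : ProperSpace V := FiniteDimensional.proper_real V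
  obtain ⟨R, hR⟩ := (Metric.isBounded_iff_subset_closedBall (0 : V)).1 hb
  have hs := descend_fderiv_smooth F hF
  obtain ⟨C₀, hC₀⟩ := (isCompact_closedBall (0 : V) (R + 2)).exists_bound_of_continuousOn
    (hs.continuous_fderiv (by simp)).continuousOn
  refine ⟨|C₀| + 1, by positivity, fun x v τ hx hv h0 h1 => ?_⟩
  have hxR : ‖x‖ ≤ R := by
    have := hR hx
    rwa [mem_closedBall_zero_iff] at this
  have hsub : closedBall x (τ * ‖v‖) ⊆ closedBall (0 : V) (R + 2) := by
    intro y hy
    rw [mem_closedBall, dist_eq_norm] at hy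
    rw [mem_closedBall_zero_iff]
    have e : y = x + (y - x) := by abel
    have h2 : τ * ‖v‖ ≤ 1 * 2 := by gcongr
    calc ‖y‖ = ‖x + (y - x)‖ := by rw [← e]
      _ ≤ ‖x‖ + ‖y - x‖ := norm_add_le _ _
      _ ≤ R + 2 := by linarith
  have hxK : x ∈ closedBall (0 : V) (R + 2) :=
    hsub (mem_closedBall_self (by positivity))
  have hlip : ∀ y ∈ closedBall x (τ * ‖v‖), ‖fderiv ℝ F y - fderiv ℝ F x‖ ≤ |C₀| * (τ * ‖v‖) := by
    intro y hy
    have h2 := (convex_closedBall (0 : V) (R + 2)).norm_image_sub_le_of_norm_fderiv_le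
      (f := fderiv ℝ F) (C := C₀) (𝕜 := ℝ)
      (fun z _ => (hs.differentiable (by simp)) z) (fun z hz => hC₀ z hz) hxK (hsub hy)
    rw [mem_closedBall, dist_eq_norm] at hy
    calc ‖fderiv ℝ F y - fderiv ℝ F x‖ ≤ C₀ * ‖y - x‖ := h2
      _ ≤ |C₀| * ‖y - x‖ := by gcongr; exact le_abs_self _
      _ ≤ |C₀| * (τ * ‖v‖) := by gcongr
  have hy : x + τ • v ∈ closedBall x (τ * ‖v‖) := by
    rw [mem_closedBall, dist_eq_norm, add_sub_cancel_left, norm_smul, Real.norm_eq_abs,
      abs_of_nonneg h0]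
  have h3 := (convex_closedBall x (τ * ‖v‖)).norm_image_sub_le_of_norm_fderiv_le'
    (f := F) (C := |C₀| * (τ * ‖v‖)) (φ := fderiv ℝ F x) (𝕜 := ℝ)
    (fun z _ => (hF.differentiable (by simp)) z) hlip (mem_closedBall_self (by positivity)) hy
  rw [add_sub_cancel_left, norm_smul, Real.norm_eq_abs τ, abs_of_nonneg h0, map_smul,
    smul_eq_mul, Real.norm_eq_abs] at h3
  have h4 := (abs_le.1 h3).2
  have h5 : |C₀| * (τ * ‖v‖) * (τ * ‖v‖) ≤ (|C₀| + 1) * τ ^ 2 * ‖v‖ ^ 2 := by
    have : 0 ≤ τ ^ 2 * ‖v‖ ^ 2 := by positivity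
    nlinarith
  linarith

/-- The gradient is bounded below near the boundary.

PROOF.  `W = {F ≤ 0}` is compact (closed and bounded).  If the claim fails, for every `k` there is
`x_k ∈ W` with `-1/(k+1) ≤ F x_k` and `‖gradient F x_k‖ < 1/(k+1)`; a limit point `x ∈ W` has
`F x = 0` and `gradient F x = 0`, contradicting `hreg`.  (Or: the continuous function
`x ↦ max (-F x) ‖gradient F x‖` is positive on the compact set `W`, so it is `≥ m > 0` (if `W` is
empty take `m = 1`); put `δ = m/2`, `g = m`: if `-δ ≤ F x ≤ 0` then `-F x ≤ δ < m`, hence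
`‖gradient F x‖ ≥ m`.) -/
theorem cg_grad_lower (F : V → ℝ) (hF : ContDiff ℝ ∞ F) (hb : Bornology.IsBounded {x | F x ≤ 0})
    (hreg : ∀ x, F x = 0 → gradient F x ≠ 0) :
    ∃ δ g : ℝ, 0 < δ ∧ 0 < g ∧ ∀ x, F x ≤ 0 → -δ ≤ F x → g ≤ ‖gradient F x‖ := by
  have hK := descend_compact F hF hb
  rcases Set.eq_empty_or_nonempty {x | F x ≤ 0} with he | hne
  · refine ⟨1, 1, one_pos, one_pos, fun x hx _ => ?_⟩
    have : x ∈ ({x | F x ≤ 0} : Set V) := hx
    rw [he] at this
    exact this.elim
  · have hc : ContinuousOn (fun x : V => max (-F x) ‖gradient F x‖) {x | F x ≤ 0} :=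
      (hF.continuous.neg.max (descend_grad_cont F hF).norm).continuousOn
    obtain ⟨x₀, hx₀, hmin⟩ := hK.exists_isMinOn hne hc
    have hm : 0 < max (-F x₀) ‖gradient F x₀‖ := by
      by_cases h0 : F x₀ = 0
      · exact lt_max_of_lt_right (norm_pos_iff.2 (hreg x₀ h0))
      · have h1 : F x₀ ≤ 0 := hx₀
        have h2 : F x₀ < 0 := lt_of_le_of_ne h1 h0
        exact lt_max_of_lt_left (by linarith)
    refine ⟨max (-F x₀) ‖gradient F x₀‖ / 2, max (-F x₀) ‖gradient F x₀‖, by positivity, hm,
      fun x hx hδ => ?_⟩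
    have h1 : max (-F x₀) ‖gradient F x₀‖ ≤ max (-F x) ‖gradient F x‖ := hmin hx
    rcases le_max_iff.1 h1 with h2 | h2
    · linarith
    · exact h2

/-- The descending map.

PROOF.  Take `C` from `cg_taylor`, `δ, g` from `cg_grad_lower`, `G ≥ 1` with
`‖gradient F x‖ ≤ G` on the compact set `W = {F ≤ 0}`.  Choose `τ ∈ (0,1]` with
`τ * G + C * τ ^ 2 ≤ δ` and `2 * C * τ ≤ g` (e.g. `τ = min 1 (min (δ / (2 * (G + C))) (g/(2*C)))`).
Put `χ x = max 0 (1 + F x / δ)` (so `0 ≤ χ ≤ 1` on `W`), `n x = ‖gradient F x‖⁻¹ • gradient F x`,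
`v x = -(e + χ x • n x)`, `η x = x + τ • v x`.
* Continuity on `W`: at `x ∈ W` with `-δ ≤ F x` we have `gradient F x ≠ 0`, so `n` is continuous
  at `x`; at `x ∈ W` with `F x < -δ`, `χ` vanishes in a neighbourhood of `x`, so `v = -e` there.
  (Better: `-δ < F x` or `F x ≤ -δ`... use: at points with `gradient F x ≠ 0` everything is
  continuous, and if `gradient F x = 0`, `x ∈ W`, then `F x < -δ` and `χ = 0` near `x`.)
* `‖v x‖ ≤ 2` on `W`.
* Height: `⟪η x, e⟫ = ⟪x, e⟫ - τ (1 + χ ⟪n, e⟫)`.  Since `|⟪n, e⟫| ≤ 1` and `0 ≤ χ ≤ 1`,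
  `1 + χ ⟪n,e⟫ ≥ 0`, with equality only if `χ = 1` and `⟪n, e⟫ = -1`; `χ = 1` gives `F x = 0`
  (as `F x ≤ 0`), and `⟪n,e⟫ = -1` with `‖n‖ = ‖e‖ = 1` gives `n = -e`, so
  `gradient F x = -(‖gradient F x‖ • e)`, i.e. `Inward F e x`; then `v x = 0`, `η x = x`.
  Conversely, if `Inward F e x`, then `χ x = 1`, `n x = -e`, `v x = 0`, `η x = x`.
* Staying in `W`: if `F x < -δ`, then `χ = 0`, `v = -e`, and
  `F (η x) ≤ F x + τ G + C τ² ≤ -δ + τ G + C τ² ≤ 0`.  If `-δ ≤ F x ≤ 0` put
  `a = 1 + ⟪n,e⟫ ≥ 0`, `b = 1 - χ ∈ [0,1]`, so `F x = -δ b`.  Then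
  `fderiv F x (v x) = -‖∇F‖ (⟪n,e⟫ + χ) = -‖∇F‖ a + ‖∇F‖ b ≤ -g a + G b`, and
  `‖v‖² = 1 + 2 χ ⟪n,e⟫ + χ² = (1-χ)² + 2 χ a ≤ b + 2 a`.  So
  `F (η x) ≤ -δ b + τ(-g a + G b) + C τ² (b + 2 a) = -b (δ - τ G - C τ²) - a τ (g - 2 C τ) ≤ 0`.
  (Use `fderiv F x u = ⟪gradient F x, u⟫`, see `gauss_fd` in `Gauss.lean`.) -/
theorem cg_descend (F : V → ℝ) (hF : ContDiff ℝ ∞ F) (hb : Bornology.IsBounded {x | F x ≤ 0})
    (hreg : ∀ x, F x = 0 → gradient F x ≠ 0) (e : V) (he : ‖e‖ = 1) :
    ∃ η : V → V, ContinuousOn η {x | F x ≤ 0} ∧ ∀ x, F x ≤ 0 → F (η x) ≤ 0 ∧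
      (⟪η x, e⟫ < ⟪x, e⟫ ∨ (Inward F e x ∧ η x = x)) ∧ (Inward F e x → η x = x) := by
  obtain ⟨C, hC, hT⟩ := cg_taylor F hF hb
  obtain ⟨δ, g, hδ, hg, hgr⟩ := cg_grad_lower F hF hb hreg
  have hgc := descend_grad_cont F hF
  obtain ⟨G₀, hG₀⟩ := (descend_compact F hF hb).exists_bound_of_continuousOn hgc.continuousOn
  obtain ⟨G, hG1, hG⟩ : ∃ G : ℝ, 1 ≤ G ∧ ∀ x, F x ≤ 0 → ‖gradient F x‖ ≤ G :=
    ⟨max 1 G₀, le_max_left _ _, fun x hx => (hG₀ x hx).trans (le_max_right _ _)⟩
  obtain ⟨τ, hτ0, hτ1, hτ2, hτ3⟩ : ∃ τ : ℝ, 0 < τ ∧ τ ≤ 1 ∧ τ * G + C * τ ^ 2 ≤ δ ∧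
      2 * C * τ ≤ g := by
    refine ⟨min 1 (min (δ / (2 * (G + C))) (g / (2 * C))), ?_, min_le_left _ _, ?_, ?_⟩
    · have hGC : 0 < G + C := by linarith
      positivity
    · set τ := min 1 (min (δ / (2 * (G + C))) (g / (2 * C))) with hτ
      have hGC : 0 < G + C := by linarith
      have h1 : τ ≤ 1 := min_le_left _ _
      have h2 : τ ≤ δ / (2 * (G + C)) := (min_le_right _ _).trans (min_le_left _ _)
      have h0 : 0 < τ := by rw [hτ]; positivity
      rw [le_div_iff₀ (by positivity)] at h2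
      have h3 : C * τ ^ 2 ≤ C * τ := by
        have : τ ^ 2 ≤ τ := by nlinarith
        gcongr
      nlinarith
    · set τ := min 1 (min (δ / (2 * (G + C))) (g / (2 * C))) with hτ
      have h2 : τ ≤ g / (2 * C) := (min_le_right _ _).trans (min_le_right _ _)
      rw [le_div_iff₀ (by positivity)] at h2
      linarith
  set χ : V → ℝ := fun x => max 0 (1 + F x / δ) with hχ
  set nn : V → V := fun x => ‖gradient F x‖⁻¹ • gradient F x with hnn
  set v : V → V := fun x => -(e + χ x • nn x) with hv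
  have hχ0 : ∀ x, 0 ≤ χ x := fun x => le_max_left _ _
  have hχ1 : ∀ x, F x ≤ 0 → χ x ≤ 1 := by
    intro x hx
    have : F x / δ ≤ 0 := div_nonpos_of_nonpos_of_nonneg hx hδ.le
    exact max_le zero_le_one (by linarith)
  have hnn1 : ∀ x, ‖nn x‖ ≤ 1 := by
    intro x
    simp only [hnn]
    rw [norm_smul, norm_inv, norm_norm]
    by_cases h : ‖gradient F x‖ = 0
    · rw [h]; simp
    · rw [inv_mul_cancel₀ h]
  have hs1 : ∀ x, |⟪nn x, e⟫| ≤ 1 := by
    intro x
    calc |⟪nn x, e⟫| ≤ ‖nn x‖ * ‖e‖ := abs_real_inner_le_norm _ _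
      _ ≤ 1 * 1 := by
          rw [he]
          gcongr
          exact hnn1 x
      _ = 1 := one_mul 1
  have hee : ⟪e, e⟫ = (1 : ℝ) := by rw [real_inner_self_eq_norm_sq, he]; norm_num
  have hvn : ∀ x, F x ≤ 0 → ‖v x‖ ≤ 2 := by
    intro x hx
    simp only [hv]
    rw [norm_neg]
    calc ‖e + χ x • nn x‖ ≤ ‖e‖ + ‖χ x • nn x‖ := norm_add_le _ _
      _ ≤ 1 + 1 * 1 := by
          rw [he, norm_smul, Real.norm_eq_abs, abs_of_nonneg (hχ0 x)]
          gcongr
          · exact hχ1 x hx
          · exact hnn1 x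
      _ = 2 := by norm_num
  refine ⟨fun x => x + τ • v x, ?_, ?_⟩
  · intro x hx
    apply ContinuousAt.continuousWithinAt
    have hx' : F x ≤ 0 := hx
    have hχc : Continuous χ := continuous_const.max (continuous_const.add
      (hF.continuous.div_const δ))
    by_cases h0 : gradient F x = 0
    · have h1 : F x < -δ := by
        by_contra hcon
        have h2 := hgr x hx' (not_lt.1 hcon)
        rw [h0, norm_zero] at h2
        linarith
      have h2 : ∀ᶠ y in nhds x, F y < -δ :=
        (hF.continuous.tendsto x).eventually_lt_const h1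
      have h3 : (fun y : V => y + τ • (-e)) =ᶠ[nhds x] fun y => y + τ • v y := by
        filter_upwards [h2] with y hy
        have h4 : χ y = 0 := by
          simp only [hχ]
          apply max_eq_left
          have : F y / δ ≤ -1 := by
            rw [div_le_iff₀ hδ]
            linarith
          linarith
        simp only [hv]
        rw [h4, zero_smul, add_zero]
      exact ContinuousAt.congr (by fun_prop) h3
    · have hnc : ContinuousAt nn x :=
        (hgc.continuousAt.norm.inv₀ (norm_ne_zero_iff.2 h0)).smul hgc.continuousAt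
      exact continuousAt_id.add (((continuousAt_const.add (hχc.continuousAt.smul hnc)).neg).const_smul τ)
  · intro x hx
    have hfd : fderiv ℝ F x (v x) = -(⟪gradient F x, e⟫ + χ x * ⟪gradient F x, nn x⟫) := by
      rw [descend_fd]
      simp only [hv]
      rw [inner_neg_right, inner_add_right, real_inner_smul_right]
    have hTx := hT x (v x) τ hx (hvn x hx) hτ0.le hτ1
    refine ⟨?_, ?_, ?_⟩
    · -- staying in the domain
      rcases lt_or_ge (F x) (-δ) with h1 | h1
      · have h4 : χ x = 0 := by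
          simp only [hχ]
          apply max_eq_left
          have : F x / δ ≤ -1 := by
            rw [div_le_iff₀ hδ]
            linarith
          linarith
        have hve : v x = -e := by
          simp only [hv]
          rw [h4, zero_smul, add_zero]
        have h5 : fderiv ℝ F x (v x) ≤ G := by
          rw [descend_fd, hve, inner_neg_right]
          have h6 := abs_real_inner_le_norm (gradient F x) e
          rw [he, mul_one] at h6
          have h7 := neg_abs_le ⟪gradient F x, e⟫
          linarith [hG x hx]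
        have h8 : ‖v x‖ = 1 := by rw [hve, norm_neg, he]
        rw [h8] at hTx
        have h9 : τ * fderiv ℝ F x (v x) ≤ τ * G := by gcongr
        change F (x + τ • v x) ≤ 0
        linarith
      · have hgx := hgr x hx h1
        have hn0 : ‖gradient F x‖ ≠ 0 := by
          intro h
          rw [h] at hgx
          linarith
        have hχx : χ x = 1 + F x / δ := by
          simp only [hχ]
          apply max_eq_right
          have : -1 ≤ F x / δ := by
            rw [le_div_iff₀ hδ]
            linarith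
          linarith
        have hgn : gradient F x = ‖gradient F x‖ • nn x := by
          simp only [hnn]
          rw [smul_smul, mul_inv_cancel₀ hn0, one_smul]
        have hnn2 : ‖nn x‖ = 1 := by
          simp only [hnn]
          rw [norm_smul, norm_inv, norm_norm, inv_mul_cancel₀ hn0]
        have hnnn : ⟪nn x, nn x⟫ = (1 : ℝ) := by
          rw [real_inner_self_eq_norm_sq, hnn2]; norm_num
        set s : ℝ := ⟪nn x, e⟫ with hs
        have hge : ⟪gradient F x, e⟫ = ‖gradient F x‖ * s := by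
          conv_lhs => rw [hgn]
          rw [real_inner_smul_left]
        have hgnn : ⟪gradient F x, nn x⟫ = ‖gradient F x‖ := by
          conv_lhs => rw [hgn]
          rw [real_inner_smul_left, hnnn, mul_one]
        have hv2 : ‖v x‖ ^ 2 = 1 + 2 * χ x * s + χ x ^ 2 := by
          simp only [hv]
          rw [norm_neg, norm_add_sq_real, he, real_inner_smul_right, norm_smul, hnn2,
            Real.norm_eq_abs, mul_one, sq_abs, real_inner_comm]
          ring
        have hsa := abs_le.1 (hs1 x)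
        have hs1' : -1 ≤ s := hsa.1
        have hs2' : s ≤ 1 := hsa.2
        have hFx : F x = -(δ * (1 - χ x)) := by
          rw [hχx]
          field_simp
          ring
        have hGx := hG x hx
        have hb0 : 0 ≤ 1 - χ x := by linarith [hχ1 x hx]
        have hχx0 := hχ0 x
        have h5 : fderiv ℝ F x (v x) ≤ -(g * (1 + s)) + G * (1 - χ x) := by
          rw [hfd, hge, hgnn]
          have e1 : -(‖gradient F x‖ * s + χ x * ‖gradient F x‖) =
              -(‖gradient F x‖ * (1 + s)) + ‖gradient F x‖ * (1 - χ x) := by ring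
          rw [e1]
          have h6 : g * (1 + s) ≤ ‖gradient F x‖ * (1 + s) := by
            apply mul_le_mul_of_nonneg_right hgx
            linarith
          have h7 : ‖gradient F x‖ * (1 - χ x) ≤ G * (1 - χ x) :=
            mul_le_mul_of_nonneg_right hGx hb0
          linarith
        have h6 : ‖v x‖ ^ 2 ≤ (1 - χ x) + 2 * (1 + s) := by
          rw [hv2]
          have h7 : (1 - χ x) ^ 2 ≤ 1 - χ x := by nlinarith
          have h8 : 2 * χ x * (1 + s) ≤ 2 * (1 + s) := by nlinarith
          nlinarith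
        have h7 : τ * fderiv ℝ F x (v x) ≤ τ * (-(g * (1 + s)) + G * (1 - χ x)) := by gcongr
        have h8 : C * τ ^ 2 * ‖v x‖ ^ 2 ≤ C * τ ^ 2 * ((1 - χ x) + 2 * (1 + s)) := by gcongr
        have h9 : -(δ * (1 - χ x)) + τ * (-(g * (1 + s)) + G * (1 - χ x)) +
            C * τ ^ 2 * ((1 - χ x) + 2 * (1 + s)) =
            -((1 - χ x) * (δ - (τ * G + C * τ ^ 2))) - (1 + s) * τ * (g - 2 * C * τ) := by ring
        have h10 : 0 ≤ (1 - χ x) * (δ - (τ * G + C * τ ^ 2)) :=
          mul_nonneg hb0 (by linarith)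
        have h11 : 0 ≤ (1 + s) * τ * (g - 2 * C * τ) :=
          mul_nonneg (mul_nonneg (by linarith) hτ0.le) (by linarith)
        change F (x + τ • v x) ≤ 0
        linarith
    · have hh : ⟪x + τ • v x, e⟫ = ⟪x, e⟫ - τ * (1 + χ x * ⟪nn x, e⟫) := by
        simp only [hv]
        rw [inner_add_left, real_inner_smul_left, inner_neg_left, inner_add_left,
          real_inner_smul_left, hee]
        ring
      change ⟪x + τ • v x, e⟫ < ⟪x, e⟫ ∨ (Inward F e x ∧ x + τ • v x = x)
      rw [hh]
      have hsa := abs_le.1 (hs1 x)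
      rcases lt_or_ge 0 (1 + χ x * ⟪nn x, e⟫) with h1 | h1
      · left
        have := mul_pos hτ0 h1
        linarith
      · right
        have hc0 := hχ0 x
        have hc1 := hχ1 x hx
        have h2 : χ x = 1 := by
          apply le_antisymm hc1
          nlinarith [hsa.1]
        have h3 : ⟪nn x, e⟫ = (-1 : ℝ) := by
          rw [h2, one_mul] at h1
          linarith [hsa.1]
        have h4 : nn x = -e := by
          have h5 : ‖nn x + e‖ ^ 2 ≤ 0 := by
            rw [norm_add_sq_real, h3, he]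
            have h6 : ‖nn x‖ ^ 2 ≤ 1 := by
              have := hnn1 x
              have h7 := norm_nonneg (nn x)
              nlinarith
            linarith
          have h6 : ‖nn x + e‖ = 0 := by
            have h7 := norm_nonneg (nn x + e)
            nlinarith
          rw [norm_eq_zero] at h6
          exact eq_neg_of_add_eq_zero_left h6
        have h5 : F x = 0 := by
          have h6 : max 0 (1 + F x / δ) = 1 := h2
          have h7 : 1 + F x / δ = 1 := by
            rcases max_choice 0 (1 + F x / δ) with h8 | h8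
            · rw [h8] at h6
              norm_num at h6
            · rw [h8] at h6
              exact h6
          have h8 : F x / δ = 0 := by linarith
          rcases div_eq_zero_iff.1 h8 with h9 | h9
          · exact h9
          · exact absurd h9 hδ.ne'
        have h6 : ‖gradient F x‖ ≠ 0 := norm_ne_zero_iff.2 (hreg x h5)
        have hgn : gradient F x = ‖gradient F x‖ • nn x := by
          simp only [hnn]
          rw [smul_smul, mul_inv_cancel₀ h6, one_smul]
        refine ⟨⟨h5, ‖gradient F x‖, lt_of_le_of_ne (norm_nonneg _) h6.symm, ?_⟩, ?_⟩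
        · conv_lhs => rw [hgn, h4]
          rw [smul_neg]
        · simp only [hv]
          rw [h2, h4, one_smul, add_neg_cancel, neg_zero, smul_zero, add_zero]
    · rintro ⟨h5, l, hl, hgl⟩
      have h2 : χ x = 1 := by
        simp only [hχ]
        rw [h5, zero_div, add_zero]
        exact max_eq_right zero_le_one
      have h3 : ‖gradient F x‖ = l := by
        rw [hgl, norm_neg, norm_smul, he, mul_one, Real.norm_eq_abs, abs_of_pos hl]
      have h4 : nn x = -e := by
        simp only [hnn]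
        rw [h3, hgl, smul_neg, smul_smul, inv_mul_cancel₀ hl.ne', one_smul]
      change x + τ • v x = x
      simp only [hv]
      rw [h2, h4, one_smul, add_neg_cancel, neg_zero, smul_zero, add_zero]

end Pool.Schoen
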