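import Mathlib
import Pool.Agent.H.MP_6c077c_gt.CG.Topo

/-! Conformal gap theorem: a continuum of minimal height. -/

set_option autoImplicit false

namespace Pool.Schoen

open scoped ContDiff RealInnerProductSpace
open Metric Set

variable {V : Type*} [NormedAddCommGroup V] [InnerProductSpace ℝ V] [FiniteDimensional ℝ V]

/-- A continuum of minimal height through `q₁` and `q₂`.

PROOF.  Let `W = {F ≤ 0}` (compact, preconnected).  `J = {s | ∃ C, IsCompact C ∧ IsPreconnected C ∧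
q₁ ∈ C ∧ q₂ ∈ C ∧ ∀ x ∈ C, F x ≤ 0 ∧ ⟪x, e⟫ ≤ s}` is nonempty (a bound of the height on `W`,
`C = W`), bounded below by `⟪q₁, e⟫`, upward closed.  Let `s = sInf J`.  For `n : ℕ` let
`K n = connectedComponentIn (W ∩ {⟪·,e⟫ ≤ s + 1/(n+1)}) q₁`: it is preconnected, compact (closed
subset of a compact set: `IsClosed.connectedComponentIn`?; if not available use the union of all
preconnected subsets containing `q₁`, its closure is preconnected), antitone
(`connectedComponentIn_mono`), and contains `q₂`, since `s + 1/(n+1) ∈ J` gives a preconnected set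
through `q₁`, `q₂` inside (`IsPreconnected.subset_connectedComponentIn`).
`C = ⋂ n, K n` is compact, preconnected (`cg_nested`), contains `q₁, q₂`, and on it
`⟪x, e⟫ ≤ s + 1/(n+1)` for all `n`, so `≤ s`. -/
theorem cg_minimal (F : V → ℝ) (hF : ContDiff ℝ ∞ F) (hb : Bornology.IsBounded {x | F x ≤ 0})
    (hW : IsPreconnected {x | F x ≤ 0}) (e : V) (q₁ q₂ : V) (h₁ : F q₁ ≤ 0) (h₂ : F q₂ ≤ 0) :
    ∃ (s : ℝ) (C : Set V), IsCompact C ∧ IsPreconnected C ∧ q₁ ∈ C ∧ q₂ ∈ C ∧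
      (∀ x ∈ C, F x ≤ 0 ∧ ⟪x, e⟫ ≤ s) ∧
      ∀ (s' : ℝ) (C' : Set V), IsCompact C' → IsPreconnected C' → q₁ ∈ C' → q₂ ∈ C' →
        (∀ x ∈ C', F x ≤ 0 ∧ ⟪x, e⟫ ≤ s') → s ≤ s' := by
  have hFc : Continuous F := hF.continuous
  have hec : Continuous (fun x : V => ⟪x, e⟫) := continuous_id.inner continuous_const
  have hWcl : IsClosed {x | F x ≤ 0} := isClosed_le hFc continuous_const
  have hWc : IsCompact {x | F x ≤ 0} := Metric.isCompact_of_isClosed_isBounded hWcl hb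
  set J : Set ℝ := {t | ∃ C : Set V, IsCompact C ∧ IsPreconnected C ∧ q₁ ∈ C ∧ q₂ ∈ C ∧
    ∀ x ∈ C, F x ≤ 0 ∧ ⟪x, e⟫ ≤ t} with hJ
  have hJne : J.Nonempty := by
    obtain ⟨t, ht⟩ := hWc.bddAbove_image (f := fun x : V => ⟪x, e⟫) hec.continuousOn
    refine ⟨t, {x | F x ≤ 0}, hWc, hW, h₁, h₂, fun x hx => ⟨hx, ?_⟩⟩
    exact ht (mem_image_of_mem _ hx)
  have hJb : BddBelow J := by
    refine ⟨⟪q₁, e⟫, ?_⟩
    rintro t ⟨C, _, _, hq, _, hC⟩
    exact (hC q₁ hq).2
  set s := sInf J with hs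
  set Wn : ℕ → Set V := fun n => {x | F x ≤ 0 ∧ ⟪x, e⟫ ≤ s + 1 / ((n : ℝ) + 1)} with hWn
  have hWncl : ∀ n, IsClosed (Wn n) := fun n =>
    hWcl.inter (isClosed_le hec continuous_const)
  have hWnanti : Antitone Wn := by
    intro m n hmn x hx
    refine ⟨hx.1, hx.2.trans ?_⟩
    have : 1 / ((n : ℝ) + 1) ≤ 1 / ((m : ℝ) + 1) := by
      apply one_div_le_one_div_of_le (by positivity)
      have : (m : ℝ) ≤ n := by exact_mod_cast hmn
      linarith
    linarith
  have hex : ∀ n : ℕ, ∃ C : Set V, IsPreconnected C ∧ q₁ ∈ C ∧ q₂ ∈ C ∧ C ⊆ Wn n := by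
    intro n
    have hlt : sInf J < s + 1 / ((n : ℝ) + 1) := by
      have : 0 < 1 / ((n : ℝ) + 1) := by positivity
      linarith
    obtain ⟨t, ⟨C, _, hCp, hq₁, hq₂, hC⟩, ht⟩ := exists_lt_of_csInf_lt hJne hlt
    refine ⟨C, hCp, hq₁, hq₂, fun x hx => ⟨(hC x hx).1, (hC x hx).2.trans ht.le⟩⟩
  set K : ℕ → Set V := fun n => connectedComponentIn (Wn n) q₁ with hK
  have hKsub : ∀ n, K n ⊆ Wn n := fun n => connectedComponentIn_subset _ _
  have hKp : ∀ n, IsPreconnected (K n) := fun n => isPreconnected_connectedComponentIn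
  have hq₁W : ∀ n, q₁ ∈ Wn n := by
    intro n
    obtain ⟨C, _, hq₁, _, hC⟩ := hex n
    exact hC hq₁
  have hq₁K : ∀ n, q₁ ∈ K n := fun n => mem_connectedComponentIn (hq₁W n)
  have hq₂K : ∀ n, q₂ ∈ K n := by
    intro n
    obtain ⟨C, hCp, hq₁, hq₂, hC⟩ := hex n
    exact hCp.subset_connectedComponentIn hq₁ hC hq₂
  have hKcl : ∀ n, IsClosed (K n) := by
    intro n
    rw [← closure_subset_iff_isClosed]
    refine IsPreconnected.subset_connectedComponentIn (hKp n).closure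
      (subset_closure (hq₁K n)) ?_
    exact closure_minimal (hKsub n) (hWncl n)
  have hKc : ∀ n, IsCompact (K n) := by
    intro n
    exact hWc.of_isClosed_subset (hKcl n) (fun x hx => (hKsub n hx).1)
  have hKanti : Antitone K := fun m n hmn => connectedComponentIn_mono _ (hWnanti hmn)
  refine ⟨s, ⋂ n, K n, ?_, cg_nested K hKanti hKc hKp, mem_iInter.2 hq₁K, mem_iInter.2 hq₂K,
    ?_, ?_⟩
  · exact (hKc 0).of_isClosed_subset (isClosed_iInter hKcl) (iInter_subset _ 0)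
  · intro x hx
    have hx' := mem_iInter.1 hx
    refine ⟨(hKsub 0 (hx' 0)).1, ?_⟩
    refine le_of_forall_pos_le_add (fun ε hε => ?_)
    obtain ⟨n, hn⟩ := exists_nat_one_div_lt hε
    have := (hKsub n (hx' n)).2
    linarith
  · intro s' C' hC' hCp' hq₁' hq₂' h'
    exact csInf_le hJb ⟨C', hC', hCp', hq₁', hq₂', h'⟩

end Pool.Schoen
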