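import Mathlib
import Pool.Agent.H.MP_6c077c_gt.CG.Descend
import Pool.Agent.H.MP_6c077c_gt.CG.Clean
import Pool.Agent.H.MP_6c077c_gt.CG.Minimal

/-! Conformal gap theorem: at most one point with normal `-e` and positive second fundamental form,
if all points with normal `-e` have definite second fundamental form. -/

set_option autoImplicit false

namespace Pool.Schoen

open scoped ContDiff RealInnerProductSpace
open Metric Set

variable {V : Type*} [NormedAddCommGroup V] [InnerProductSpace ℝ V] [FiniteDimensional ℝ V]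

/-- Uniqueness.

PROOF.  Suppose `p ≠ q`; apply `cg_minimal` to `q₁ = p`, `q₂ = q`: get `s`, `C`.
(1) If `x ∈ C` is `Inward`, `PosAt` and `⟪x, e⟫ = s`, then by `cg_min_local` there is `ρ` such that
`C ∩ ball x ρ = {x}` (other points of `W` near `x` are strictly higher than `s`); so `{x}` is open
and closed in the preconnected set `C`, i.e. `C = {x}`, contradicting `p ≠ q` both in `C`.  Hence
all `Inward` points of `C` of height `s` are `NegAt` (by `hdef`); in particular `p` and `q` are not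
`Inward` points of height `s` that are ... precisely: let `T = {x ∈ C | Inward F e x ∧ ⟪x,e⟫ = s}`;
then every `x ∈ T` is not `PosAt`, so `NegAt`, and `p, q ∉ T`.
(2) `T` is finite: `T` is compact (closed in `C`: `Inward F e x ↔ F x = 0 ∧ gradient F x =
-(‖gradient F x‖ • e)` on the zero set, using `hreg`), and by `cg_ring` (last claim) each `x ∈ T`
has an open neighbourhood `U` with `T ∩ U = {x}`; a compact set all of whose points are isolated is
finite (finite subcover).
(3) Apply `cg_clean` with `S = T.toFinset`: get `C'` without `Inward` points of height `s`.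
(4) Let `η` be from `cg_descend`, `C'' = η '' C'`: compact, preconnected (image of a preconnected
set under a map continuous on it), contains `p = η p`, `q = η q`, is contained in `W`, and every
`x ∈ C'` has `⟪η x, e⟫ < s`: if `⟪x,e⟫ < s` then `⟪η x, e⟫ ≤ ⟪x, e⟫ < s`; if `⟪x, e⟫ = s`, `x` is
not `Inward`, so `⟪η x, e⟫ < ⟪x, e⟫`.  By compactness the maximum `s'` of the height on `C''` is
`< s`, and the minimality in `cg_minimal` gives `s ≤ s'`, a contradiction. -/
theorem cg_unique (hdim : 3 ≤ Module.finrank ℝ V) (F : V → ℝ) (hF : ContDiff ℝ ∞ F)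
    (hb : Bornology.IsBounded {x | F x ≤ 0}) (hreg : ∀ x, F x = 0 → gradient F x ≠ 0)
    (hW : IsPreconnected {x | F x ≤ 0}) (e : V) (he : ‖e‖ = 1)
    (hdef : ∀ x, Inward F e x → PosAt F e x ∨ NegAt F e x) (p q : V) (hp : Inward F e p)
    (hq : Inward F e q) (hpd : PosAt F e p) (hqd : PosAt F e q) : p = q := by
  classical
  by_contra hpq
  have hFc : Continuous F := hF.continuous
  have hgc : Continuous (gradient F) := by
    have h1 : Continuous (fderiv ℝ F) := hF.continuous_fderiv (by simp)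
    exact (InnerProductSpace.toDual ℝ V).symm.continuous.comp h1
  have hhc : Continuous fun x : V => (⟪x, e⟫ : ℝ) := continuous_id.inner continuous_const
  obtain ⟨s, C, hCc, hCp, hpC, hqC, hCs, hmin⟩ :=
    cg_minimal F hF hb hW e p q (le_of_eq hp.1) (le_of_eq hq.1)
  -- points of height `s` are not `PosAt`
  have hTneg : ∀ x, x ∈ C → Inward F e x → ⟪x, e⟫ = s → ¬ PosAt F e x := by
    intro x hxC hxI hxs hxd
    obtain ⟨ρ, hρ, hloc⟩ := cg_min_local F hF e he x hxI hxd
    have hiso : ∀ y ∈ C, dist y x < ρ → y = x := by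
      intro y hy hyd
      by_contra hne
      have h1 := hloc y (hCs y hy).1 hyd hne
      have h2 := (hCs y hy).2
      rw [hxs] at h1
      exact absurd h1 (not_lt.2 h2)
    have key : ∀ y ∈ C, y = x := by
      intro y hy
      by_contra hne
      obtain ⟨z, hzC, hz1, hz2⟩ := hCp (ball x ρ) {x}ᶜ isOpen_ball isOpen_compl_singleton
        (fun z _ => by
          by_cases h : z = x
          · left
            rw [h]
            exact mem_ball_self hρ
          · right
            exact h) ⟨x, hxC, mem_ball_self hρ⟩ ⟨y, hy, hne⟩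
      exact hz2 (hiso z hzC hz1)
    exact hpq ((key p hpC).trans (key q hqC).symm)
  -- the set of these points
  have hIn : ∀ x, Inward F e x ↔ F x = 0 ∧ gradient F x = -(‖gradient F x‖ • e) := by
    intro x
    constructor
    · rintro ⟨h0, l, hl, hg⟩
      refine ⟨h0, ?_⟩
      have hn : ‖gradient F x‖ = l := by
        rw [hg, norm_neg, norm_smul, he, mul_one, Real.norm_of_nonneg hl.le]
      rw [hn]
      exact hg
    · rintro ⟨h0, hg⟩
      exact ⟨h0, _, norm_pos_iff.2 (hreg x h0), hg⟩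
  set T : Set V := C ∩ {x | Inward F e x ∧ ⟪x, e⟫ = s} with hT
  have hTcl : IsClosed {x : V | Inward F e x ∧ ⟪x, e⟫ = s} := by
    have h1 : {x : V | Inward F e x ∧ ⟪x, e⟫ = s} =
        ({x | F x = 0} ∩ {x | gradient F x = -(‖gradient F x‖ • e)}) ∩ {x | ⟪x, e⟫ = s} := by
      ext x
      constructor
      · rintro ⟨h2, h3⟩
        exact ⟨⟨((hIn x).1 h2).1, ((hIn x).1 h2).2⟩, h3⟩
      · rintro ⟨⟨h2, h3⟩, h4⟩
        exact ⟨(hIn x).2 ⟨h2, h3⟩, h4⟩
    rw [h1]
    exact ((isClosed_eq hFc continuous_const).inter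
      (isClosed_eq hgc (hgc.norm.smul continuous_const).neg)).inter
      (isClosed_eq hhc continuous_const)
  have hTc : IsCompact T := hCc.inter_right hTcl
  have hTn : ∀ x ∈ T, NegAt F e x := by
    rintro x ⟨h1, h2, h3⟩
    exact (hdef x h2).resolve_left (hTneg x h1 h2 h3)
  have hloc : ∀ x : V, ∃ U : Set V, x ∈ T → (U ∈ nhds x ∧ ∀ y ∈ T, y ∈ U → y = x) := by
    intro x
    by_cases hx : x ∈ T
    · obtain ⟨U, A, hUo, hxU, _, _, _, _, _, hlast⟩ :=
        cg_ring hdim F hF e he x hx.2.1 (hTn x hx) 1 one_pos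
      refine ⟨U, fun _ => ⟨hUo.mem_nhds hxU, ?_⟩⟩
      intro y hy hyU
      apply hlast y hyU hy.2.1
      rw [hy.2.2, hx.2.2]
    · exact ⟨∅, fun h => absurd h hx⟩
  choose U hU using hloc
  obtain ⟨t, htT, ht⟩ := hTc.elim_nhds_subcover U (fun x hx => (hU x hx).1)
  have hTt : T ⊆ (t : Set V) := by
    intro x hx
    obtain ⟨y, hy, hxy⟩ := Set.mem_iUnion₂.1 (ht hx)
    rw [(hU y (htT y hy)).2 x hx hxy]
    exact Finset.mem_coe.2 hy
  have hTf : T.Finite := t.finite_toSet.subset hTt
  have hmemS : ∀ x, x ∈ hTf.toFinset ↔ x ∈ C ∧ Inward F e x ∧ ⟪x, e⟫ = s := by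
    intro x
    rw [Set.Finite.mem_toFinset]
    rfl
  obtain ⟨C', hC'c, hC'p, hpC', hqC', hC's, hC'n⟩ :=
    cg_clean hdim F hF e he p q s hTf.toFinset C hCc hCp hpC hqC
      (fun h => by
        obtain ⟨h1, h2, h3⟩ := (hmemS p).1 h
        exact hTneg p h1 h2 h3 hpd)
      (fun h => by
        obtain ⟨h1, h2, h3⟩ := (hmemS q).1 h
        exact hTneg q h1 h2 h3 hqd)
      hCs hmemS (fun x hx => hTn x ((Set.Finite.mem_toFinset hTf).1 hx))
  obtain ⟨η, hηc, hη⟩ := cg_descend F hF hb hreg e he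
  have hηC' : ContinuousOn η C' := hηc.mono fun x hx => (hC's x hx).1
  have hc2 : IsCompact (η '' C') := hC'c.image_of_continuousOn hηC'
  have hp2 : IsPreconnected (η '' C') := hC'p.image η hηC'
  have hpη : η p = p := (hη p (le_of_eq hp.1)).2.2 hp
  have hqη : η q = q := (hη q (le_of_eq hq.1)).2.2 hq
  have hpm : p ∈ η '' C' := ⟨p, hpC', hpη⟩
  have hqm : q ∈ η '' C' := ⟨q, hqC', hqη⟩
  have hlow : ∀ y ∈ η '' C', F y ≤ 0 ∧ ⟪y, e⟫ < s := by
    rintro _ ⟨x, hx, rfl⟩
    obtain ⟨h1, h2⟩ := hC's x hx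
    obtain ⟨h3, h4, _⟩ := hη x h1
    refine ⟨h3, ?_⟩
    rcases h4 with h4 | ⟨h4, h5⟩
    · exact lt_of_lt_of_le h4 h2
    · rw [h5]
      exact lt_of_le_of_ne h2 (hC'n x hx h4)
  obtain ⟨m, hm, hmax⟩ := hc2.exists_isMaxOn ⟨p, hpm⟩ hhc.continuousOn
  have h1 := hmin ⟪m, e⟫ (η '' C') hc2 hp2 hpm hqm
    (fun x hx => ⟨(hlow x hx).1, hmax hx⟩)
  exact absurd (hlow m hm).2 (not_lt.2 h1)

end Pool.Schoen
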