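import Mathlib
import Pool.Agent.H.MP_6c077c_gt.Gauss
import Pool.Agent.H.MP_6c077c_gt.CG.Unique
import Pool.Agent.H.MP_6c077c_gt.CG.Flip
import Pool.Agent.H.MP_6c077c_gt.CG.Conn

/-! Conformal gap theorem: a hypersurface all of whose points with normal `-e` have definite second
fundamental form is unknotted. -/

set_option autoImplicit false

namespace Pool.Schoen

open scoped ContDiff RealInnerProductSpace
open Metric Set

variable {V : Type*} [NormedAddCommGroup V] [InnerProductSpace ℝ V] [FiniteDimensional ℝ V]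

private theorem crit_fd (F : V → ℝ) (x v : V) : fderiv ℝ F x v = ⟪gradient F x, v⟫ := by
  unfold gradient
  rw [InnerProductSpace.toDual_symm_apply]

omit [FiniteDimensional ℝ V] in
/-- moving in a direction of negative derivative. -/
private theorem crit_desc (F : V → ℝ) (hF : ContDiff ℝ ∞ F) (m w : V) (hm : F m ≤ 0)
    (hw : fderiv ℝ F m w < 0) : ∃ t : ℝ, 0 < t ∧ F (m + t • w) ≤ 0 := by
  have hd : HasDerivAt (fun t : ℝ => F (m + t • w)) (fderiv ℝ F m w) 0 := by
    have h1 : HasFDerivAt F (fderiv ℝ F m) (m + (0 : ℝ) • w) := by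
      rw [zero_smul, add_zero]
      exact ((hF.differentiable (by simp)) m).hasFDerivAt
    have h2 : HasDerivAt (fun t : ℝ => m + t • w) w 0 := by
      have := ((hasDerivAt_id (0 : ℝ)).smul_const w).const_add m
      simpa using this
    exact h1.comp_hasDerivAt (0 : ℝ) h2
  have h3 : ∀ᶠ t in nhdsWithin (0 : ℝ) (Ioi 0), F (m + t • w) < F m := by
    have h5 := hasDerivAt_iff_tendsto_slope.1 hd
    have hsub : Ioi (0 : ℝ) ⊆ {0}ᶜ := fun t ht => ne_of_gt ht
    have h6 : ∀ᶠ t in nhdsWithin (0 : ℝ) (Ioi 0), slope (fun t : ℝ => F (m + t • w)) 0 t < 0 :=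
      (h5.eventually_lt_const hw).filter_mono (nhdsWithin_mono _ hsub)
    filter_upwards [h6, self_mem_nhdsWithin] with t ht ht0
    rw [slope_def_field] at ht
    have ht0' : 0 < t := ht0
    have : F (m + t • w) - F (m + (0 : ℝ) • w) < 0 := by
      by_contra hcon
      push Not at hcon
      have := div_nonneg hcon (by linarith : (0 : ℝ) ≤ t - 0)
      linarith
    rw [zero_smul, add_zero] at this
    linarith
  have hne : (nhdsWithin (0 : ℝ) (Ioi 0)).NeBot := inferInstance
  obtain ⟨t, ht, ht0⟩ := (h3.and self_mem_nhdsWithin).exists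
  exact ⟨t, ht0, by linarith⟩

/-- A minimum point of the height on `{F ≤ 0}` is `Inward`. -/
private theorem crit_key (F : V → ℝ) (hF : ContDiff ℝ ∞ F)
    (hreg : ∀ x, F x = 0 → gradient F x ≠ 0) (e : V) (he : ‖e‖ = 1) (m : V) (hm : F m ≤ 0)
    (hmin : ∀ x, F x ≤ 0 → ⟪m, e⟫ ≤ ⟪x, e⟫) : Inward F e m := by
  have hee : ⟪e, e⟫ = 1 := by rw [real_inner_self_eq_norm_sq, he]; norm_num
  have hFm : F m = 0 := by
    by_contra hne
    have hlt : F m < 0 := lt_of_le_of_ne hm hne
    have hc : Continuous fun t : ℝ => F (m - t • e) := hF.continuous.comp (by fun_prop)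
    have hev : ∀ᶠ t in nhds (0 : ℝ), F (m - t • e) < 0 := by
      have : F (m - (0 : ℝ) • e) < 0 := by simpa using hlt
      exact (hc.tendsto 0).eventually_lt_const this
    have hev' : ∀ᶠ t in nhdsWithin (0 : ℝ) (Ioi 0), F (m - t • e) < 0 :=
      hev.filter_mono nhdsWithin_le_nhds
    obtain ⟨t, ht, ht0⟩ := (hev'.and self_mem_nhdsWithin).exists
    have ht0' : 0 < t := ht0
    have h1 := hmin _ ht.le
    rw [inner_sub_left, inner_smul_left, hee] at h1
    simp at h1
    linarith
  refine ⟨hFm, ?_⟩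
  set g := gradient F m with hg
  have hg0 : g ≠ 0 := hreg m hFm
  have hgn : 0 < ‖g‖ := norm_pos_iff.2 hg0
  by_contra hcon
  push Not at hcon
  have hgne := hcon ‖g‖ hgn
  have hpos : 0 < ‖g‖ + ⟪g, e⟫ := by
    have h1 : 0 < ‖g + ‖g‖ • e‖ ^ 2 := by
      have : g + ‖g‖ • e ≠ 0 := fun h => hgne (eq_neg_of_add_eq_zero_left h)
      positivity
    have h2 : ‖g + ‖g‖ • e‖ ^ 2 = 2 * ‖g‖ * (‖g‖ + ⟪g, e⟫) := by
      rw [norm_add_sq_real, norm_smul, inner_smul_right, he]
      simp
      ring
    rw [h2] at h1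
    by_contra hle
    push Not at hle
    nlinarith
  set w : V := -(‖g‖ • e + g) with hw
  have hwe : ⟪w, e⟫ < 0 := by
    rw [hw, inner_neg_left, inner_add_left, inner_smul_left, hee]
    simp
    linarith
  have hwg : fderiv ℝ F m w < 0 := by
    rw [crit_fd, ← hg, hw, inner_neg_right, inner_add_right, inner_smul_right,
      real_inner_self_eq_norm_sq]
    nlinarith
  obtain ⟨t, ht, hFt⟩ := crit_desc F hF m w hm hwg
  have h1 := hmin _ hFt
  rw [inner_add_left, inner_smul_left] at h1
  simp only [conj_trivial] at h1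
  nlinarith

/-- The criterion. -/
theorem cg_criterion (hdim : 3 ≤ Module.finrank ℝ V) (F : V → ℝ) (hF : ContDiff ℝ ∞ F)
    (hb : Bornology.IsBounded {x | F x ≤ 0}) (hreg : ∀ x, F x = 0 → gradient F x ≠ 0)
    (hM : IsConnected {x | F x = 0}) (e : V) (he : ‖e‖ = 1)
    (hdef : ∀ x, Inward F e x → PosAt F e x ∨ NegAt F e x) :
    Carries {x : V | F x = 0} (sphere (0 : V) 1) := by
  have hprop : ProperSpace V := FiniteDimensional.proper ℝ V
  have hnt : Nontrivial V := Module.nontrivial_of_finrank_pos (R := ℝ) (by omega)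
  have hKc : IsCompact {x | F x ≤ 0} :=
    Metric.isCompact_of_isClosed_isBounded (isClosed_le hF.continuous continuous_const) hb
  have hcont : Continuous fun x : V => ⟪x, e⟫ := by fun_prop
  obtain ⟨z, hz⟩ := hM.nonempty
  have hz' : F z = 0 := hz
  obtain ⟨m, hm, hmin⟩ := hKc.exists_isMinOn ⟨z, hz'.le⟩ hcont.continuousOn
  have hmin' : ∀ x, F x ≤ 0 → ⟪m, e⟫ ≤ ⟪x, e⟫ := fun x hx => hmin hx
  have hmI : Inward F e m := crit_key F hF hreg e he m hm hmin'
  have hmP : PosAt F e m := by
    rcases hdef m hmI with h | h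
    · exact h
    · obtain ⟨x, hx, -, hlt⟩ := cg_not_min (by omega) F hF e he m hmI h 1 one_pos
      exact absurd (hmin' x hx) (not_le.2 hlt)
  have hW := cg_conn_inner F hF.continuous hb hM.isPreconnected
  have hneg : ∀ x, Inward F e x → ¬ NegAt F e x := by
    intro x hx hN
    obtain ⟨R, hR0, hR⟩ := hb.exists_pos_norm_lt
    have hR' : ∀ y, F y ≤ 0 → ‖y‖ < R := fun y hy => hR y hy
    have hset := cg_Y_set F R hR0 hR'
    obtain ⟨hY1, hY2, hY3⟩ := cg_Y_def F hF R hR0 hR' e he
    have hYin := cg_Y_inward F hF R hR0 hR' e he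
    have hbG : Bornology.IsBounded {y | cgY F R y ≤ 0} := by
      rw [hset]
      refine (isBounded_closedBall (x := (0 : V)) (r := R)).subset fun y hy => ?_
      rw [mem_closedBall_zero_iff]
      exact hy.2
    have hWG : IsPreconnected {y | cgY F R y ≤ 0} := by
      rw [hset]
      exact cg_conn_outer F hF.continuous R hR' hM.isPreconnected
    have heq : x = R • e := by
      refine cg_unique hdim (cgY F R) (cg_Y_smooth F hF R) hbG (cg_Y_reg F hF hreg R hR0 hR') hWG
        (-e) (by rw [norm_neg, he]) ?_ x (R • e) ((hYin x).2 (Or.inl hx))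
        ((hYin (R • e)).2 (Or.inr rfl)) (hY1 x hx hN) hY3
      intro y hy
      rcases (hYin y).1 hy with h | h
      · rcases hdef y h with h' | h'
        · exact Or.inr (hY2 y h h')
        · exact Or.inl (hY1 y h h')
      · rw [h]
        exact Or.inl hY3
    have h1 : ‖x‖ < R := hR' x hx.1.le
    rw [heq, norm_smul, he, mul_one, Real.norm_eq_abs, abs_of_pos hR0] at h1
    exact lt_irrefl _ h1
  refine gauss_criterion F hF hb hreg e he m hmI.1 ?_ ?_
  · intro x hx hl
    have hxI : Inward F e x := ⟨hx, hl⟩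
    rcases hdef x hxI with h | h
    · exact cg_unique hdim F hF hb hreg hW e he hdef x m hxI hmI h hmP
    · exact absurd h (hneg x hxI)
  · intro w hw hw0
    exact ⟨w, hw, (hmP w hw hw0).ne'⟩

end Pool.Schoen
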