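import Mathlib

/-! Conformal gap theorem: the inequality between the product of the principal curvatures and the
norm of the trace free part. -/

set_option autoImplicit false

namespace Pool.Schoen

/-- AM-GM: `a * r ^ m ≤ m ^ m * ((a + r) / (m + 1)) ^ (m + 1)` for `a, r ≥ 0`, `m ≥ 1`.

PROOF.  `inner_le...`/`Real.inner_le_nnorm_mul_nnorm` not needed: use the weighted AM-GM inequality
`Real.geom_mean_le_arith_mean2_weighted` with weights `1/(m+1)`, `m/(m+1)` and numbers `a`, `r/m`;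
or the polynomial inequality `(m+1) x^m y... `: with `x = r/m`, show
`a * x ^ m ≤ ((a + m x)/(m+1)) ^ (m+1)` (`inner_le_..`; e.g. `Real.add_pow_le_pow_mul_pow_of_add_eq_one`
or `Real.inner_le..`), then multiply by `m ^ m`. -/
theorem cg_amgm (m : ℕ) (hm : 1 ≤ m) (a r : ℝ) (ha : 0 ≤ a) (hr : 0 ≤ r) :
    a * r ^ m ≤ (m : ℝ) ^ m * ((a + r) / (m + 1)) ^ (m + 1) := by
  have hm0 : (0 : ℝ) < m := by exact_mod_cast hm
  have hm1 : (0 : ℝ) < m + 1 := by linarith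
  have hrm : 0 ≤ r / m := div_nonneg hr hm0.le
  have h1 := Real.geom_mean_le_arith_mean2_weighted (w₁ := 1 / ((m : ℝ) + 1))
    (w₂ := (m : ℝ) / (m + 1)) (p₁ := a) (p₂ := r / m) (by positivity) (by positivity) ha hrm
    (by field_simp; ring)
  have h2 : (a ^ (1 / ((m : ℝ) + 1)) * (r / m) ^ ((m : ℝ) / (m + 1))) ^ (m + 1) =
      a * (r / m) ^ m := by
    rw [mul_pow, ← Real.rpow_natCast (a ^ (1 / ((m : ℝ) + 1))) (m + 1), ← Real.rpow_mul ha,
      ← Real.rpow_natCast ((r / m) ^ ((m : ℝ) / (m + 1))) (m + 1), ← Real.rpow_mul hrm]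
    have h3 : 1 / ((m : ℝ) + 1) * ((m + 1 : ℕ) : ℝ) = 1 := by
      push_cast
      field_simp
    have h4 : (m : ℝ) / (m + 1) * ((m + 1 : ℕ) : ℝ) = (m : ℝ) := by
      push_cast
      field_simp
    rw [h3, h4, Real.rpow_one, Real.rpow_natCast]
  have h5 : 1 / ((m : ℝ) + 1) * a + (m : ℝ) / (m + 1) * (r / m) = (a + r) / (m + 1) := by
    field_simp
  rw [h5] at h1
  have h6 : a * (r / m) ^ m ≤ ((a + r) / (m + 1)) ^ (m + 1) := by
    rw [← h2]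
    exact pow_le_pow_left₀ (mul_nonneg (Real.rpow_nonneg ha _) (Real.rpow_nonneg hrm _)) h1 _
  have h7 : a * r ^ m = (m : ℝ) ^ m * (a * (r / m) ^ m) := by
    rw [div_pow]
    field_simp
  rw [h7]
  exact mul_le_mul_of_nonneg_left h6 (by positivity)

/-- PROOF.  AM-GM for the squares of the entries with index `≠ i₀` (`Real.inner_le_nnorm_mul_nnorm`
not needed; use `Real.geom_mean_le_arith_mean_weighted` or `Finset.prod_le_..`; a convenient form is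
`Real.inner_...`): `∏_{i ≠ i₀} (κ i)² ≤ ((∑_{i ≠ i₀} (κ i)²) / m) ^ m`, hence with
`r = sqrt ((∑_{i ≠ i₀} (κ i)²) / m)`, `∏_{i ≠ i₀} |κ i| ≤ r ^ m` (take square roots:
`abs_le_of_sq_le_sq` / `pow_le_pow_left`). -/
theorem cg_prod_rms {ι : Type*} [Fintype ι] [DecidableEq ι] (m : ℕ) (hm : 1 ≤ m)
    (hι : Fintype.card ι = m + 1) (κ : ι → ℝ) (i₀ : ι) :
    ∏ i ∈ Finset.univ.erase i₀, |κ i| ≤
      Real.sqrt ((∑ i ∈ Finset.univ.erase i₀, κ i ^ 2) / m) ^ m := by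
  have hm0 : (0 : ℝ) < m := by exact_mod_cast hm
  have hcard : (Finset.univ.erase i₀).card = m := by
    rw [Finset.card_erase_of_mem (Finset.mem_univ _), Finset.card_univ, hι]
    rfl
  have hw : ∑ _i ∈ Finset.univ.erase i₀, (1 : ℝ) = m := by
    rw [Finset.sum_const, hcard]
    simp
  have h1 := Real.geom_mean_le_arith_mean (Finset.univ.erase i₀) (fun _ => (1 : ℝ))
    (fun i => κ i ^ 2) (fun _ _ => zero_le_one) (by rw [hw]; exact hm0)
    (fun _ _ => sq_nonneg _)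
  simp only [Real.rpow_one, one_mul] at h1
  rw [hw] at h1
  have hP : 0 ≤ ∏ i ∈ Finset.univ.erase i₀, κ i ^ 2 :=
    Finset.prod_nonneg (fun _ _ => sq_nonneg _)
  have hmn : m ≠ 0 := by omega
  have h2 : ∏ i ∈ Finset.univ.erase i₀, κ i ^ 2 ≤
      ((∑ i ∈ Finset.univ.erase i₀, κ i ^ 2) / m) ^ m := by
    calc ∏ i ∈ Finset.univ.erase i₀, κ i ^ 2
        = ((∏ i ∈ Finset.univ.erase i₀, κ i ^ 2) ^ ((m : ℝ)⁻¹)) ^ m :=
          (Real.rpow_inv_natCast_pow hP hmn).symm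
      _ ≤ _ := pow_le_pow_left₀ (Real.rpow_nonneg hP _) h1 _
  have h3 : ∏ i ∈ Finset.univ.erase i₀, |κ i| =
      Real.sqrt (∏ i ∈ Finset.univ.erase i₀, κ i ^ 2) := by
    rw [Finset.prod_pow, Real.sqrt_sq_eq_abs, Finset.abs_prod]
  rw [h3]
  have h4 : Real.sqrt ((∑ i ∈ Finset.univ.erase i₀, κ i ^ 2) / m) ^ m =
      Real.sqrt (((∑ i ∈ Finset.univ.erase i₀, κ i ^ 2) / m) ^ m) := by
    rw [← Real.sqrt_sq (pow_nonneg (Real.sqrt_nonneg _) m), ← pow_mul, mul_comm m 2, pow_mul,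
      Real.sq_sqrt]
    exact div_nonneg (Finset.sum_nonneg (fun _ _ => sq_nonneg _)) hm0.le
  rw [h4]
  exact Real.sqrt_le_sqrt h2

/-- The case of nonnegative mean.

PROOF.  `n = m + 1`.  Put `a = -κ i₀ ≥ 0`, `R = ∑_{i ≠ i₀} κ i ^ 2`, `r = sqrt (R / m)`,
`S = ∑_{i ≠ i₀} κ i`.  By Cauchy-Schwarz `S ≤ sqrt (m * R) = m * r`, and `S ≥ a` because the sum of
all `κ i` is `≥ 0`.  So, with `T = ∑ κ² - (∑ κ)²/n = a² + m r² - (S - a)²/n`,
`T ≥ a² + m r² - (m r - a)²/n = (m/n) (a + r)²`.  By `cg_prod_rms` and `cg_amgm`,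
`|∏ κ| = a * ∏_{i≠i₀} |κ i| ≤ a r^m ≤ m^m ((a+r)/n)^n`, and `(a + r) ≤ sqrt (n T / m)`, so
`|∏ κ| * (m * sqrt (n/m) ^ n) ≤ m^(m+1) / n^n * sqrt (n/m)^n * sqrt(n T/m)^n = sqrt T ^ n`, because
`sqrt (n/m) * sqrt (n T/m) = (n/m) sqrt T`. -/
theorem cg_scalar_half {ι : Type*} [Fintype ι] [DecidableEq ι] (m : ℕ) (hm : 1 ≤ m)
    (hι : Fintype.card ι = m + 1) (κ : ι → ℝ) (i₀ : ι) (h0 : κ i₀ ≤ 0) (hs : 0 ≤ ∑ i, κ i) :
    |∏ i, κ i| * (m * Real.sqrt ((m + 1) / m) ^ (m + 1)) ≤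
      Real.sqrt (∑ i, κ i ^ 2 - (∑ i, κ i) ^ 2 / (m + 1)) ^ (m + 1) := by
  have hm0 : (0 : ℝ) < m := by exact_mod_cast hm
  have hm1 : (0 : ℝ) < m + 1 := by linarith
  have hcard : (Finset.univ.erase i₀).card = m := by
    rw [Finset.card_erase_of_mem (Finset.mem_univ _), Finset.card_univ, hι]
    rfl
  set a : ℝ := -κ i₀ with ha
  set R : ℝ := ∑ i ∈ Finset.univ.erase i₀, κ i ^ 2 with hR
  set r : ℝ := Real.sqrt (R / m) with hr
  set S : ℝ := ∑ i ∈ Finset.univ.erase i₀, κ i with hS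
  have ha0 : 0 ≤ a := by linarith
  have hR0 : 0 ≤ R := Finset.sum_nonneg (fun _ _ => sq_nonneg _)
  have hr0 : 0 ≤ r := Real.sqrt_nonneg _
  have hr2 : r ^ 2 = R / m := Real.sq_sqrt (div_nonneg hR0 hm0.le)
  have hRr : R = m * r ^ 2 := by
    rw [hr2]
    field_simp
  have hCS : S ^ 2 ≤ m * R := by
    have h := sq_sum_le_card_mul_sum_sq (s := Finset.univ.erase i₀) (f := κ)
    rw [hcard] at h
    exact h
  have hS1 : S ≤ m * r := by
    have h : S ^ 2 ≤ (m * r) ^ 2 := by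
      rw [mul_pow, hr2]
      refine hCS.trans (le_of_eq ?_)
      field_simp
    exact le_of_sq_le_sq h (by positivity)
  have hsum : ∑ i, κ i = S - a := by
    rw [← Finset.add_sum_erase _ _ (Finset.mem_univ i₀)]
    simp only [ha, hS]
    ring
  have hsq : ∑ i, κ i ^ 2 = a ^ 2 + R := by
    rw [← Finset.add_sum_erase _ _ (Finset.mem_univ i₀)]
    simp only [ha, hR]
    ring
  have hprod : |∏ i, κ i| = a * ∏ i ∈ Finset.univ.erase i₀, |κ i| := by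
    rw [← Finset.mul_prod_erase _ _ (Finset.mem_univ i₀), abs_mul, Finset.abs_prod,
      abs_of_nonpos h0]
  have h1 : |∏ i, κ i| ≤ (m : ℝ) ^ m * ((a + r) / (m + 1)) ^ (m + 1) := by
    rw [hprod]
    exact (mul_le_mul_of_nonneg_left (cg_prod_rms m hm hι κ i₀) ha0).trans
      (cg_amgm m hm a r ha0 hr0)
  have h2 : (m : ℝ) * (a + r) ^ 2 / (m + 1) ≤
      ∑ i, κ i ^ 2 - (∑ i, κ i) ^ 2 / (m + 1) := by
    rw [hsum] at hs ⊢
    rw [hsq, hRr]
    have h3 : (S - a) ^ 2 ≤ (m * r - a) ^ 2 := by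
      exact pow_le_pow_left₀ hs (by linarith) 2
    have h4 : (S - a) ^ 2 / (m + 1) ≤ (m * r - a) ^ 2 / (m + 1) :=
      div_le_div_of_nonneg_right h3 hm1.le
    have h5 : (m : ℝ) * (a + r) ^ 2 / (m + 1) =
        a ^ 2 + m * r ^ 2 - (m * r - a) ^ 2 / (m + 1) := by
      field_simp
      ring
    rw [h5]
    linarith
  have h6 : (m : ℝ) * ((a + r) / (m + 1)) * Real.sqrt ((m + 1) / m) ≤
      Real.sqrt (∑ i, κ i ^ 2 - (∑ i, κ i) ^ 2 / (m + 1)) := by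
    have hq : (0 : ℝ) ≤ (m + 1) / m := by positivity
    refine Real.le_sqrt_of_sq_le ?_
    rw [mul_pow, Real.sq_sqrt hq]
    refine le_trans (le_of_eq ?_) h2
    field_simp
  calc |∏ i, κ i| * (m * Real.sqrt ((m + 1) / m) ^ (m + 1))
      ≤ ((m : ℝ) ^ m * ((a + r) / (m + 1)) ^ (m + 1)) *
          (m * Real.sqrt ((m + 1) / m) ^ (m + 1)) :=
        mul_le_mul_of_nonneg_right h1 (by positivity)
    _ = ((m : ℝ) * ((a + r) / (m + 1)) * Real.sqrt ((m + 1) / m)) ^ (m + 1) := by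
        rw [mul_pow, mul_pow, pow_succ (m : ℝ) m]
        ring
    _ ≤ _ := pow_le_pow_left₀ (by positivity) h6 _

/-- PROOF.  If `∑ κ ≥ 0` use `cg_scalar_half`; otherwise apply it to `-κ` and the index where
`κ ≥ 0`. -/
theorem cg_scalar {ι : Type*} [Fintype ι] [DecidableEq ι] (m : ℕ) (hm : 1 ≤ m)
    (hι : Fintype.card ι = m + 1) (κ : ι → ℝ) (h1 : ∃ i, κ i ≤ 0) (h2 : ∃ i, 0 ≤ κ i) :
    |∏ i, κ i| * (m * Real.sqrt ((m + 1) / m) ^ (m + 1)) ≤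
      Real.sqrt (∑ i, κ i ^ 2 - (∑ i, κ i) ^ 2 / (m + 1)) ^ (m + 1) := by
  obtain ⟨i, hi⟩ := h1
  obtain ⟨j, hj⟩ := h2
  rcases le_total 0 (∑ i, κ i) with h | h
  · exact cg_scalar_half m hm hι κ i hi h
  · have h3 := cg_scalar_half m hm hι (fun i => -κ i) j (by simpa using hj)
      (by simpa using h)
    have h4 : |∏ i, -κ i| = |∏ i, κ i| := by
      rw [Finset.abs_prod, Finset.abs_prod]
      simp
    have h5 : ∑ i, (-κ i) ^ 2 - (∑ i, -κ i) ^ 2 / (m + 1) =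
        ∑ i, κ i ^ 2 - (∑ i, κ i) ^ 2 / (m + 1) := by
      simp
    rw [h4, h5] at h3
    exact h3

end Pool.Schoen
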