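import Mathlib
import Pool.Agent.H.MP_6c077c_gt.CG.Defs
import Pool.Agent.H.MP_6c077c_gt.CG.Scalar

/-! Conformal gap theorem: the curvature inequality for operators. -/

set_option autoImplicit false

namespace Pool.Schoen

open scoped ContDiff RealInnerProductSpace
open Metric Set

variable {E : Type*} [NormedAddCommGroup E] [InnerProductSpace ℝ E] [FiniteDimensional ℝ E]

/-- An orthonormal basis containing `v` and consisting of eigenvectors of `S`. -/
theorem cg_eigenbasis (n : ℕ) (hE : Module.finrank ℝ E = n + 1) (S : E →L[ℝ] E)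
    (hS : ∀ a b : E, ⟪S a, b⟫ = ⟪a, S b⟫) (v : E) (hv : ‖v‖ = 1) (hSv : S v = 0) :
    ∃ (b : OrthonormalBasis (Option (Fin n)) ℝ E) (κ : Fin n → ℝ), b none = v ∧
      ∀ i, S (b (some i)) = κ i • b (some i) := by
  have hv0 : v ≠ 0 := by
    intro h
    rw [h, norm_zero] at hv
    exact zero_ne_one hv
  have hKn : Module.finrank ℝ ((Submodule.span ℝ {v})ᗮ : Submodule ℝ E) = n :=
    Submodule.finrank_orthogonal_span_singleton (_i := ⟨hE⟩) hv0
  have hmap : ∀ x ∈ ((Submodule.span ℝ {v})ᗮ : Submodule ℝ E),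
      (S : E →ₗ[ℝ] E) x ∈ ((Submodule.span ℝ {v})ᗮ : Submodule ℝ E) := by
    intro x _
    rw [Submodule.mem_orthogonal_singleton_iff_inner_left]
    change ⟪S x, v⟫ = 0
    rw [hS, hSv, inner_zero_right]
  have hsym : ((S : E →ₗ[ℝ] E).restrict hmap).IsSymmetric := by
    intro x y
    exact hS x y
  have hmem : ∀ i, ⟪((hsym.eigenvectorBasis hKn i : ((Submodule.span ℝ {v})ᗮ : Submodule ℝ E)) : E),
      v⟫ = 0 := by
    intro i
    exact (Submodule.mem_orthogonal_singleton_iff_inner_left).1 (hsym.eigenvectorBasis hKn i).2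
  let c : Option (Fin n) → E := fun o => match o with
    | none => v
    | some i => ((hsym.eigenvectorBasis hKn i : ((Submodule.span ℝ {v})ᗮ : Submodule ℝ E)) : E)
  have hon : Orthonormal ℝ c := by
    rw [orthonormal_iff_ite]
    intro i j
    have hb := (hsym.eigenvectorBasis hKn).orthonormal
    rw [orthonormal_iff_ite] at hb
    rcases i with _ | i <;> rcases j with _ | j
    · change ⟪v, v⟫ = _
      rw [real_inner_self_eq_norm_sq, hv]; simp
    · change ⟪v, ((hsym.eigenvectorBasis hKn j : ((Submodule.span ℝ {v})ᗮ : Submodule ℝ E)) : E)⟫ = _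
      rw [real_inner_comm, hmem]; simp
    · change ⟪((hsym.eigenvectorBasis hKn i : ((Submodule.span ℝ {v})ᗮ : Submodule ℝ E)) : E), v⟫ = _
      rw [hmem]; simp
    · have := hb i j
      change ⟪((hsym.eigenvectorBasis hKn i : ((Submodule.span ℝ {v})ᗮ : Submodule ℝ E)) : E),
        ((hsym.eigenvectorBasis hKn j : ((Submodule.span ℝ {v})ᗮ : Submodule ℝ E)) : E)⟫ = _
      rw [← Submodule.coe_inner, this]
      simp
  have hcard : Fintype.card (Option (Fin n)) = Module.finrank ℝ E := by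
    rw [hE]; simp
  have hbc : ⇑(basisOfOrthonormalOfCardEqFinrank hon hcard) = c :=
    coe_basisOfOrthonormalOfCardEqFinrank hon hcard
  have hon2 : Orthonormal ℝ (basisOfOrthonormalOfCardEqFinrank hon hcard) := by
    rw [hbc]; exact hon
  refine ⟨(basisOfOrthonormalOfCardEqFinrank hon hcard).toOrthonormalBasis hon2,
    hsym.eigenvalues hKn, ?_, ?_⟩
  · rw [Module.Basis.coe_toOrthonormalBasis, hbc]
  · intro i
    rw [Module.Basis.coe_toOrthonormalBasis, hbc]
    change S ((hsym.eigenvectorBasis hKn i : ((Submodule.span ℝ {v})ᗮ : Submodule ℝ E)) : E) =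
      hsym.eigenvalues hKn i • ((hsym.eigenvectorBasis hKn i : ((Submodule.span ℝ {v})ᗮ :
        Submodule ℝ E)) : E)
    have h := hsym.apply_eigenvectorBasis hKn i
    exact congrArg (fun z : ((Submodule.span ℝ {v})ᗮ : Submodule ℝ E) => (z : E)) h

omit [FiniteDimensional ℝ E] in
/-- Diagonal computations. -/
private theorem oper_trace (n : ℕ) (S : E →L[ℝ] E) (v : E) (hSv : S v = 0)
    (b : OrthonormalBasis (Option (Fin n)) ℝ E) (κ : Fin n → ℝ) (hb : b none = v)
    (hk : ∀ i, S (b (some i)) = κ i • b (some i)) :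
    LinearMap.trace ℝ E (S : E →ₗ[ℝ] E) = ∑ i, κ i ∧
      LinearMap.trace ℝ E ((S : E →ₗ[ℝ] E) ∘ₗ (S : E →ₗ[ℝ] E)) = ∑ i, κ i ^ 2 := by
  have hone : ∀ i, ⟪b i, b i⟫ = (1 : ℝ) := by
    intro i
    rw [real_inner_self_eq_norm_sq, b.norm_eq_one]; norm_num
  constructor
  · rw [LinearMap.trace_eq_sum_inner _ b, Fintype.sum_option]
    simp only [ContinuousLinearMap.coe_coe, hb, hSv, inner_zero_right, zero_add]
    refine Finset.sum_congr rfl fun i _ => ?_
    rw [hk, inner_smul_right, hone, mul_one]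
  · rw [LinearMap.trace_eq_sum_inner _ b, Fintype.sum_option]
    simp only [LinearMap.comp_apply, ContinuousLinearMap.coe_coe, hb, hSv, map_zero,
      inner_zero_right, zero_add]
    refine Finset.sum_congr rfl fun i _ => ?_
    rw [hk, map_smul, hk, inner_smul_right, inner_smul_right, hone]
    ring

omit [FiniteDimensional ℝ E] in
private theorem oper_det (n : ℕ) (S : E →L[ℝ] E) (v : E) (hv : ‖v‖ = 1) (hSv : S v = 0)
    (b : OrthonormalBasis (Option (Fin n)) ℝ E) (κ : Fin n → ℝ) (hb : b none = v)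
    (hk : ∀ i, S (b (some i)) = κ i • b (some i)) :
    (cgK S v).det = ∏ i, κ i := by
  have hK : ∀ j, (cgK S v) (b j) = (Option.elim j (1 : ℝ) κ) • b j := by
    intro j
    rcases j with _ | j
    · simp only [cgK, add_apply, ContinuousLinearMap.smulRight_apply,
        innerSL_apply_apply, hb, hSv, zero_add, Option.elim]
      rw [real_inner_self_eq_norm_sq, hv]; norm_num
    · simp only [cgK, add_apply, ContinuousLinearMap.smulRight_apply,
        innerSL_apply_apply, hk, Option.elim]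
      rw [← hb, b.inner_eq_zero (by simp)]
      simp
  have hmat : LinearMap.toMatrix b.toBasis b.toBasis (cgK S v : E →ₗ[ℝ] E) =
      Matrix.diagonal (fun j : Option (Fin n) => Option.elim j (1 : ℝ) κ) := by
    ext i j
    rw [LinearMap.toMatrix_apply, OrthonormalBasis.coe_toBasis, ContinuousLinearMap.coe_coe, hK,
      map_smul, Finsupp.smul_apply, OrthonormalBasis.coe_toBasis_repr_apply,
      OrthonormalBasis.repr_self, Matrix.diagonal_apply, smul_eq_mul, PiLp.single_apply]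
    by_cases hij : i = j
    · subst hij; simp
    · simp [hij]
  change LinearMap.det (cgK S v : E →ₗ[ℝ] E) = _
  rw [← LinearMap.det_toMatrix b.toBasis, hmat, Matrix.det_diagonal, Fintype.prod_option]
  simp

/-- The curvature inequality. -/
theorem cg_oper (m : ℕ) (hm : 1 ≤ m) (hE : Module.finrank ℝ E = m + 1 + 1) (S : E →L[ℝ] E)
    (hS : ∀ a b : E, ⟪S a, b⟫ = ⟪a, S b⟫) (v : E) (hv : ‖v‖ = 1) (hSv : S v = 0)
    (h1 : ∃ w : E, w ≠ 0 ∧ ⟪w, v⟫ = 0 ∧ ⟪S w, w⟫ ≤ 0)
    (h2 : ∃ w : E, w ≠ 0 ∧ ⟪w, v⟫ = 0 ∧ 0 ≤ ⟪S w, w⟫) :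
    |(cgK S v).det| * (m * Real.sqrt ((m + 1) / m) ^ (m + 1)) ≤ cgT (m + 1) S ^ (m + 1) := by
  obtain ⟨b, κ, hb, hk⟩ := cg_eigenbasis (m + 1) hE S hS v hv hSv
  have hquad : ∀ w : E, ⟪w, v⟫ = 0 → ⟪S w, w⟫ = ∑ i, κ i * ⟪b (some i), w⟫ ^ 2 := by
    intro w hw
    have hexp : ⟪S w, w⟫ = ∑ j, ⟪S w, b j⟫ * ⟪b j, w⟫ := (b.sum_inner_mul_inner (S w) w).symm
    rw [hexp, Fintype.sum_option, hb]
    have h0 : ⟪v, w⟫ = (0 : ℝ) := by rw [real_inner_comm]; exact hw
    rw [h0, mul_zero, zero_add]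
    refine Finset.sum_congr rfl fun i _ => ?_
    rw [hS, hk, inner_smul_right, real_inner_comm w (b (some i))]
    ring
  have hpos : ∀ w : E, w ≠ 0 → ⟪w, v⟫ = 0 → ∃ i, ⟪b (some i), w⟫ ≠ (0 : ℝ) := by
    intro w hw0 hw
    by_contra hcon
    push Not at hcon
    apply hw0
    rw [← b.sum_repr w]
    refine Finset.sum_eq_zero fun j _ => ?_
    rw [b.repr_apply_apply]
    rcases j with _ | j
    · rw [hb, real_inner_comm, hw, zero_smul]
    · rw [hcon j, zero_smul]
  have hex1 : ∃ i, κ i ≤ 0 := by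
    by_contra hcon
    push Not at hcon
    obtain ⟨w, hw0, hw, hle⟩ := h1
    obtain ⟨i, hi⟩ := hpos w hw0 hw
    rw [hquad w hw] at hle
    have : 0 < ∑ i, κ i * ⟪b (some i), w⟫ ^ 2 := by
      refine Finset.sum_pos' (fun j _ => mul_nonneg (hcon j).le (sq_nonneg _)) ⟨i, Finset.mem_univ _, ?_⟩
      exact mul_pos (hcon i) (by positivity)
    linarith
  have hex2 : ∃ i, 0 ≤ κ i := by
    by_contra hcon
    push Not at hcon
    obtain ⟨w, hw0, hw, hle⟩ := h2
    obtain ⟨i, hi⟩ := hpos w hw0 hw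
    rw [hquad w hw] at hle
    have : 0 < ∑ i, -(κ i * ⟪b (some i), w⟫ ^ 2) := by
      refine Finset.sum_pos' (fun j _ => ?_) ⟨i, Finset.mem_univ _, ?_⟩
      · have := mul_nonneg (neg_nonneg.2 (hcon j).le) (sq_nonneg ⟪b (some j), w⟫)
        linarith
      · have := mul_pos (neg_pos.2 (hcon i)) (show 0 < ⟪b (some i), w⟫ ^ 2 by positivity)
        linarith
    rw [Finset.sum_neg_distrib] at this
    linarith
  obtain ⟨ht1, ht2⟩ := oper_trace (m + 1) S v hSv b κ hb hk
  have hdet := oper_det (m + 1) S v hv hSv b κ hb hk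
  have key := cg_scalar m hm (by simp) κ hex1 hex2
  rw [hdet, cgT, ht1, ht2]
  push_cast
  exact key

end Pool.Schoen
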