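import Mathlib
import Pool.Agent.H.MP_6c077c_gt.AreaGlob
import Pool.Agent.H.MP_6c077c_gt.CG.Crit
import Pool.Agent.H.MP_6c077c_gt.CG.Oper

/-! Conformal gap theorem for regular level sets. -/

set_option autoImplicit false

namespace Pool.Schoen

open scoped ContDiff RealInnerProductSpace ENNReal
open Metric Set MeasureTheory

variable {V : Type*} [NormedAddCommGroup V] [InnerProductSpace ℝ V] [FiniteDimensional ℝ V]

private theorem level_hess (F : V → ℝ) (hF : ContDiff ℝ ∞ F) (x v w : V) :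
    ⟪fderiv ℝ (gradient F) x v, w⟫ = fderiv ℝ (fderiv ℝ F) x v w := by
  have h1 : DifferentiableAt ℝ (fderiv ℝ F) x :=
    ((hF.fderiv_right (m := 1) (by norm_cast)).differentiable (by simp)) x
  have h2 : gradient F = fun y => (InnerProductSpace.toDual ℝ V).symm (fderiv ℝ F y) := rfl
  have h3 : HasFDerivAt (gradient F)
      (((InnerProductSpace.toDual ℝ V).symm.toContinuousLinearEquiv : _ ≃L[ℝ] V).toContinuousLinearMap.comp
        (fderiv ℝ (fderiv ℝ F) x)) x := by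
    rw [h2]
    exact ((InnerProductSpace.toDual ℝ V).symm.toContinuousLinearEquiv.toContinuousLinearMap.hasFDerivAt).comp
      x h1.hasFDerivAt
  rw [h3.fderiv]
  show ⟪(InnerProductSpace.toDual ℝ V).symm (fderiv ℝ (fderiv ℝ F) x v), w⟫ = _
  rw [InnerProductSpace.toDual_symm_apply]

private theorem level_hess_symm (F : V → ℝ) (hF : ContDiff ℝ ∞ F) (x v w : V) :
    fderiv ℝ (fderiv ℝ F) x v w = fderiv ℝ (fderiv ℝ F) x w v := by
  have h : IsSymmSndFDerivAt ℝ F x := (hF.contDiffAt).isSymmSndFDerivAt (by simp; norm_cast)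
  exact h v w

omit [FiniteDimensional ℝ V] in
private theorem level_tproj_symm (u a b : V) : ⟪tproj u a, b⟫ = ⟪a, tproj u b⟫ := by
  rw [tproj_apply, tproj_apply, inner_sub_left, inner_sub_right, real_inner_smul_left,
    real_inner_smul_right, real_inner_comm a u]
  ring

theorem level_symm (F : V → ℝ) (hF : ContDiff ℝ ∞ F) (x a b : V) :
    ⟪shape F x a, b⟫ = ⟪a, shape F x b⟫ := by
  have h1 : ∀ c d : V, ⟪shape F x c, d⟫ = ‖gradient F x‖⁻¹ *
      fderiv ℝ (fderiv ℝ F) x (tproj (nrm F x) c) (tproj (nrm F x) d) := by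
    intro c d
    show ⟪‖gradient F x‖⁻¹ • tproj (nrm F x) (fderiv ℝ (gradient F) x (tproj (nrm F x) c)), d⟫ = _
    rw [real_inner_smul_left, level_tproj_symm, level_hess F hF]
  rw [h1, real_inner_comm, h1, level_hess_symm F hF]

theorem level_kernel (F : V → ℝ) (x : V) (hx : gradient F x ≠ 0) : shape F x (nrm F x) = 0 := by
  have h1 : tproj (nrm F x) (nrm F x) = 0 := by
    rw [tproj_apply, real_inner_self_eq_norm_sq, norm_nrm F x hx]
    simp
  show ‖gradient F x‖⁻¹ • tproj (nrm F x) (fderiv ℝ (gradient F) x (tproj (nrm F x) (nrm F x))) = 0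
  rw [h1]
  simp

theorem level_form (F : V → ℝ) (hF : ContDiff ℝ ∞ F) (x w : V) (hw : ⟪w, nrm F x⟫ = 0) :
    ⟪shape F x w, w⟫ = ‖gradient F x‖⁻¹ * fderiv ℝ (fderiv ℝ F) x w w := by
  have h1 : tproj (nrm F x) w = w := by
    rw [tproj_apply, real_inner_comm, hw]
    simp
  show ⟪‖gradient F x‖⁻¹ • tproj (nrm F x) (fderiv ℝ (gradient F) x (tproj (nrm F x) w)), w⟫ = _
  rw [real_inner_smul_left, level_tproj_symm, h1, level_hess F hF]

/-- The points of the hypersurface where the second fundamental form is not definite. -/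
def levelBad (F : V → ℝ) : Set V :=
  {x | F x = 0 ∧ (∃ w : V, w ≠ 0 ∧ ⟪w, nrm F x⟫ = 0 ∧ ⟪shape F x w, w⟫ ≤ 0) ∧
    ∃ w : V, w ≠ 0 ∧ ⟪w, nrm F x⟫ = 0 ∧ 0 ≤ ⟪shape F x w, w⟫}

private theorem level_closed_aux (F : V → ℝ) (hF : ContDiff ℝ ∞ F)
    (hreg : ∀ x, F x = 0 → gradient F x ≠ 0) (hK : IsCompact {x | F x = 0}) (T : Set ℝ)
    (hT : IsClosed T) (hc : ∀ x ∈ T, ∀ c : ℝ, 0 < c → c * x ∈ T) :
    IsClosed {x : V | F x = 0 ∧ ∃ w : V, w ≠ 0 ∧ ⟪w, nrm F x⟫ = 0 ∧ ⟪shape F x w, w⟫ ∈ T} := by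
  have hP : IsCompact ({x | F x = 0} ×ˢ sphere (0 : V) 1) := hK.prod (isCompact_sphere (0 : V) 1)
  have hF2 : ContDiff ℝ 2 F := hF.of_le (by norm_cast)
  have hmaps : MapsTo (Prod.fst : V × V → V) ({x | F x = 0} ×ˢ sphere (0 : V) 1) {x | F x = 0} :=
    fun q hq => hq.1
  have hn : ContinuousOn (nrm F) {x | F x = 0} := fun x hx =>
    (nrm_continuousAt F hF2 x (hreg x hx)).continuousWithinAt
  have hs : ContinuousOn (shape F) {x | F x = 0} := fun x hx =>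
    (shape_continuousAt F hF2 x (hreg x hx)).continuousWithinAt
  have hfst : ContinuousOn (Prod.fst : V × V → V) ({x | F x = 0} ×ˢ sphere (0 : V) 1) :=
    continuous_fst.continuousOn
  have hsnd : ContinuousOn (Prod.snd : V × V → V) ({x | F x = 0} ×ˢ sphere (0 : V) 1) :=
    continuous_snd.continuousOn
  have h1 : ContinuousOn (fun q : V × V => ⟪q.2, nrm F q.1⟫)
      ({x | F x = 0} ×ˢ sphere (0 : V) 1) := hsnd.inner (hn.comp hfst hmaps)
  have h2 : ContinuousOn (fun q : V × V => ⟪shape F q.1 q.2, q.2⟫)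
      ({x | F x = 0} ×ˢ sphere (0 : V) 1) := ((hs.comp hfst hmaps).clm_apply hsnd).inner hsnd
  have h3 : IsClosed (({x | F x = 0} ×ˢ sphere (0 : V) 1) ∩
      (fun q : V × V => (⟪q.2, nrm F q.1⟫, ⟪shape F q.1 q.2, q.2⟫)) ⁻¹' (({0} : Set ℝ) ×ˢ T)) :=
    (h1.prodMk h2).preimage_isClosed_of_isClosed hP.isClosed (isClosed_singleton.prod hT)
  have h4 : IsCompact (({x | F x = 0} ×ˢ sphere (0 : V) 1) ∩
      (fun q : V × V => (⟪q.2, nrm F q.1⟫, ⟪shape F q.1 q.2, q.2⟫)) ⁻¹' (({0} : Set ℝ) ×ˢ T)) :=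
    hP.of_isClosed_subset h3 inter_subset_left
  have h5 := (h4.image continuous_fst).isClosed
  convert h5 using 1
  ext x
  constructor
  · rintro ⟨hx, w, hw0, hw1, hw2⟩
    have hn0 : 0 < ‖w‖ := norm_pos_iff.2 hw0
    refine ⟨(x, ‖w‖⁻¹ • w), ⟨⟨hx, ?_⟩, ?_, ?_⟩, rfl⟩
    · rw [mem_sphere_zero_iff_norm, norm_smul, norm_inv, norm_norm, inv_mul_cancel₀ hn0.ne']
    · show ⟪‖w‖⁻¹ • w, nrm F x⟫ = 0
      rw [real_inner_smul_left, hw1, mul_zero]
    · show ⟪shape F x (‖w‖⁻¹ • w), ‖w‖⁻¹ • w⟫ ∈ T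
      rw [map_smul, real_inner_smul_left, real_inner_smul_right, ← mul_assoc]
      exact hc _ hw2 _ (by positivity)
  · rintro ⟨⟨y, w⟩, ⟨⟨hy, hw⟩, hw1, hw2⟩, rfl⟩
    refine ⟨hy, w, ?_, hw1, hw2⟩
    rintro rfl
    simp at hw

theorem levelBad_closed (F : V → ℝ) (hF : ContDiff ℝ ∞ F)
    (hreg : ∀ x, F x = 0 → gradient F x ≠ 0) (hK : IsCompact {x | F x = 0}) :
    IsClosed (levelBad F) := by
  have h1 := level_closed_aux F hF hreg hK (Iic 0) isClosed_Iic (fun x hx c hc => by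
    have : x ≤ 0 := hx
    show c * x ≤ 0
    nlinarith)
  have h2 := level_closed_aux F hF hreg hK (Ici 0) isClosed_Ici (fun x hx c hc => by
    have : 0 ≤ x := hx
    show 0 ≤ c * x
    positivity)
  have h3 : levelBad F = {x : V | F x = 0 ∧ ∃ w : V, w ≠ 0 ∧ ⟪w, nrm F x⟫ = 0 ∧
      ⟪shape F x w, w⟫ ∈ Iic (0 : ℝ)} ∩ {x : V | F x = 0 ∧ ∃ w : V, w ≠ 0 ∧ ⟪w, nrm F x⟫ = 0 ∧
      ⟪shape F x w, w⟫ ∈ Ici (0 : ℝ)} := by
    ext x
    constructor
    · rintro ⟨hx, h1, h2⟩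
      exact ⟨⟨hx, h1⟩, ⟨hx, h2⟩⟩
    · rintro ⟨⟨hx, h1⟩, ⟨_, h2⟩⟩
      exact ⟨hx, h1, h2⟩
  rw [h3]
  exact h1.inter h2

/-- The conformal gap theorem for level sets. -/
theorem cg_level [MeasurableSpace V] [BorelSpace V] (m : ℕ) (hm : 1 ≤ m)
    (hV : Module.finrank ℝ V = m + 1 + 1) (F : V → ℝ)
    (hF : ContDiff ℝ ∞ F) (hb : Bornology.IsBounded {x | F x ≤ 0})
    (hreg : ∀ x, F x = 0 → gradient F x ≠ 0) (hM : IsConnected {x | F x = 0})
    (hint : ∫⁻ x in {x | F x = 0}, ENNReal.ofReal (cgT (m + 1) (shape F x) ^ (m + 1))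
        ∂μH[((m + 1 : ℕ) : ℝ)] <
      ENNReal.ofReal (m * Real.sqrt ((m + 1) / m) ^ (m + 1)) *
        μH[((m + 1 : ℕ) : ℝ)] (sphere (0 : V) 1)) :
    Carries {x | F x = 0} (sphere (0 : V) 1) := by
  have : ProperSpace V := FiniteDimensional.proper ℝ V
  have hK : IsCompact {x | F x = 0} :=
    Metric.isCompact_of_isClosed_isBounded (isClosed_eq hF.continuous continuous_const)
      (hb.subset (fun x hx => le_of_eq hx))
  set c : ℝ := m * Real.sqrt ((m + 1) / m) ^ (m + 1) with hc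
  have hm0 : (0 : ℝ) < m := by exact_mod_cast hm
  have hc0 : 0 < c := by
    rw [hc]
    have : 0 < Real.sqrt (((m : ℝ) + 1) / m) := Real.sqrt_pos.2 (by positivity)
    positivity
  have hclosed := levelBad_closed F hF hreg hK
  have hsub : levelBad F ⊆ {x | F x = 0} := fun x hx => hx.1
  have h1 := area_le (m + 1) hV F (hF.of_le (by norm_cast)) hreg hK (levelBad F)
    hclosed.measurableSet hsub
  have h2 : ∀ x ∈ levelBad F, ENNReal.ofReal c * ENNReal.ofReal |gaussK F x| ≤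
      ENNReal.ofReal (cgT (m + 1) (shape F x) ^ (m + 1)) := by
    rintro x ⟨hx, hx1, hx2⟩
    rw [← ENNReal.ofReal_mul hc0.le]
    refine ENNReal.ofReal_le_ofReal ?_
    have := cg_oper m hm hV (shape F x) (level_symm F hF x) (nrm F x) (norm_nrm F x (hreg x hx))
      (level_kernel F x (hreg x hx)) hx1 hx2
    rw [← hc] at this
    rw [mul_comm]
    exact this
  have h3 : ENNReal.ofReal c * μH[((m + 1 : ℕ) : ℝ)] (nrm F '' levelBad F) <
      ENNReal.ofReal c * μH[((m + 1 : ℕ) : ℝ)] (sphere (0 : V) 1) := by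
    refine lt_of_le_of_lt ?_ hint
    calc ENNReal.ofReal c * μH[((m + 1 : ℕ) : ℝ)] (nrm F '' levelBad F)
        ≤ ENNReal.ofReal c * ∫⁻ x in levelBad F, ENNReal.ofReal |gaussK F x|
            ∂μH[((m + 1 : ℕ) : ℝ)] := by gcongr
      _ = ∫⁻ x in levelBad F, ENNReal.ofReal c * ENNReal.ofReal |gaussK F x|
            ∂μH[((m + 1 : ℕ) : ℝ)] := by
          rw [lintegral_const_mul' _ _ ENNReal.ofReal_ne_top]
      _ ≤ ∫⁻ x in levelBad F, ENNReal.ofReal (cgT (m + 1) (shape F x) ^ (m + 1))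
            ∂μH[((m + 1 : ℕ) : ℝ)] :=
          setLIntegral_mono' hclosed.measurableSet h2
      _ ≤ ∫⁻ x in {x | F x = 0}, ENNReal.ofReal (cgT (m + 1) (shape F x) ^ (m + 1))
            ∂μH[((m + 1 : ℕ) : ℝ)] := lintegral_mono_set hsub
  have h4 : ∃ u ∈ sphere (0 : V) 1, u ∉ nrm F '' levelBad F := by
    by_contra hcon
    push Not at hcon
    exact absurd (lt_of_lt_of_le h3 (mul_le_mul_right (measure_mono hcon) _)) (lt_irrefl _)
  obtain ⟨u, hu, hub⟩ := h4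
  have hu1 : ‖u‖ = 1 := by simpa using hu
  refine cg_criterion (by rw [hV]; omega) F hF hb hreg hM (-u) (by rw [norm_neg, hu1]) ?_
  rintro x ⟨hx0, l, hl, hgl⟩
  have hg0 := hreg x hx0
  have hgn : 0 < ‖gradient F x‖ := norm_pos_iff.2 hg0
  have hglu : gradient F x = l • u := by rw [hgl, smul_neg, neg_neg]
  have hnu : nrm F x = u := by
    unfold nrm
    rw [hglu, norm_smul, hu1, mul_one, Real.norm_eq_abs, abs_of_pos hl, smul_smul,
      inv_mul_cancel₀ hl.ne', one_smul]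
  have hbad : x ∉ levelBad F := fun h => hub ⟨x, h, hnu⟩
  have hperp : ∀ w : V, ⟪w, -u⟫ = 0 → ⟪w, nrm F x⟫ = 0 := by
    intro w hw
    rw [inner_neg_right] at hw
    rw [hnu]
    linarith
  have hcases : (∀ w : V, w ≠ 0 → ⟪w, nrm F x⟫ = 0 → 0 < ⟪shape F x w, w⟫) ∨
      (∀ w : V, w ≠ 0 → ⟪w, nrm F x⟫ = 0 → ⟪shape F x w, w⟫ < 0) := by
    by_contra hcon
    push Not at hcon
    obtain ⟨⟨w, hw1, hw2, hw3⟩, ⟨w', hw1', hw2', hw3'⟩⟩ := hcon
    exact hbad ⟨hx0, ⟨w, hw1, hw2, hw3⟩, ⟨w', hw1', hw2', hw3'⟩⟩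
  rcases hcases with h5 | h5
  · left
    intro w hw hw0
    have h6 := h5 w hw0 (hperp w hw)
    rw [level_form F hF x w (hperp w hw)] at h6
    exact pos_of_mul_pos_right h6 (by positivity)
  · right
    intro w hw hw0
    have h6 := h5 w hw0 (hperp w hw)
    rw [level_form F hF x w (hperp w hw)] at h6
    by_contra hcon
    push Not at hcon
    have : 0 ≤ ‖gradient F x‖⁻¹ * fderiv ℝ (fderiv ℝ F) x w w := by positivity
    linarith

end Pool.Schoen
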