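import Mathlib
import Pool.Agent.H.MP_6c077c_gt.CG.Defs

/-! Conformal gap theorem: the frame map and the shape operator of a parametrised hypersurface. -/

set_option autoImplicit false

namespace Pool.Schoen

open scoped ContDiff RealInnerProductSpace
open Metric Set

variable {E : Type*} [NormedAddCommGroup E] [InnerProductSpace ℝ E] [FiniteDimensional ℝ E]

theorem frame_diff {g : E → E} (hg : ContDiffOn ℝ ∞ g {0}ᶜ) {x : E} (hx : x ≠ 0) :
    ContDiffAt ℝ ∞ g x :=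
  (hg x hx).contDiffAt (isOpen_compl_singleton.mem_nhds hx)

theorem frame_hasFDerivAt {g : E → E} (hg : ContDiffOn ℝ ∞ g {0}ᶜ) {x : E} (hx : x ≠ 0) :
    HasFDerivAt g (fderiv ℝ g x) x :=
  ((frame_diff hg hx).differentiableAt (by simp)).hasFDerivAt

theorem frame_ne {p : E} (hp : p ∈ sphere (0 : E) 1) : p ≠ 0 := by
  rintro rfl
  simp at hp

theorem frame_L_apply (f ν : E → E) (p u : E) :
    cgL f ν p u = fderiv ℝ f p u + ⟪p, u⟫ • ν p := by
  simp [cgL]

/-- A function constant on rays has zero radial derivative.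

PROOF.  `t ↦ g (t • x)` is constant near `t = 1` and has derivative `fderiv g x x` at `1`. -/
theorem cg_radial (g : E → E) (hg : ContDiffOn ℝ ∞ g {0}ᶜ)
    (hh : ∀ t : ℝ, 0 < t → ∀ x : E, x ≠ 0 → g (t • x) = g x) (x : E) (hx : x ≠ 0) :
    fderiv ℝ g x x = 0 := by
  have h1 := frame_hasFDerivAt hg hx
  have h2 : HasDerivAt (fun t : ℝ => t • x) x 1 := by
    simpa using (hasDerivAt_id (1 : ℝ)).smul_const x
  have h3 : HasDerivAt (fun t : ℝ => g (t • x)) (fderiv ℝ g x x) 1 := by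
    have h1' : HasFDerivAt g (fderiv ℝ g x) ((1 : ℝ) • x) := by rwa [one_smul]
    exact h1'.comp_hasDerivAt (1 : ℝ) h2
  have h4 : HasDerivAt (fun t : ℝ => g (t • x)) 0 1 := by
    refine (hasDerivAt_const (1 : ℝ) (g x)).congr_of_eventuallyEq ?_
    filter_upwards [lt_mem_nhds (show (0 : ℝ) < 1 by norm_num)] with t ht
    exact hh t ht x hx
  exact h3.unique h4

/-- Scaling of the derivative of a function constant on rays.

PROOF.  Differentiate `g (t • y) = g y` (valid near `x`) at `y = x`: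
`t • fderiv g (t • x) = fderiv g x`. -/
theorem cg_fderiv_smul (g : E → E) (hg : ContDiffOn ℝ ∞ g {0}ᶜ)
    (hh : ∀ t : ℝ, 0 < t → ∀ x : E, x ≠ 0 → g (t • x) = g x) (t : ℝ) (ht : 0 < t) (x : E)
    (hx : x ≠ 0) : t • fderiv ℝ g (t • x) = fderiv ℝ g x := by
  have htx : t • x ≠ 0 := smul_ne_zero ht.ne' hx
  have h1 := frame_hasFDerivAt hg htx
  have h2 : HasFDerivAt (fun y : E => t • y) (t • ContinuousLinearMap.id ℝ E) x :=
    (hasFDerivAt_id x).const_smul t
  have h3 : HasFDerivAt (fun y : E => g (t • y))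
      ((fderiv ℝ g (t • x)).comp (t • ContinuousLinearMap.id ℝ E)) x := h1.comp x h2
  have h4 : g =ᶠ[nhds x] (fun y : E => g (t • y)) := by
    filter_upwards [isOpen_compl_singleton.mem_nhds (show x ∈ ({0}ᶜ : Set E) from hx)] with y hy
    exact (hh t ht y hy).symm
  have h5 := h3.congr_of_eventuallyEq h4
  rw [h5.fderiv]
  ext u
  simp

/-- PROOF.  If `cgL f ν p u = fderiv f p u + ⟪p, u⟫ • ν p = 0`, pair with `ν p` (`orth`, `unit`):
`⟪p, u⟫ = 0`, so `fderiv f p u = 0` and `u = 0` by `imm`.  An injective endomorphism of a finite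
dimensional space is an equivalence. -/
theorem cg_L_equiv {f ν : E → E} (h : HSphere f ν) (p : E) (hp : p ∈ sphere (0 : E) 1) :
    ∃ L : E ≃L[ℝ] E, (L : E →L[ℝ] E) = cgL f ν p := by
  have hinj : Function.Injective (cgL f ν p) := by
    rw [injective_iff_map_eq_zero]
    intro u hu
    rw [frame_L_apply] at hu
    have h1 : ⟪fderiv ℝ f p u + ⟪p, u⟫ • ν p, ν p⟫ = 0 := by rw [hu, inner_zero_left]
    rw [inner_add_left, h.orth p hp u, inner_smul_left, real_inner_self_eq_norm_sq, h.unit p hp]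
      at h1
    have h2 : ⟪p, u⟫ = 0 := by simpa using h1
    rw [h2, zero_smul, add_zero] at hu
    exact h.imm p hp u (by rw [real_inner_comm]; exact h2) hu
  have hker : (cgL f ν p).ker = ⊥ := LinearMap.ker_eq_bot.2 hinj
  have hsurj : (cgL f ν p).range = ⊤ := by
    rw [LinearMap.range_eq_top]
    exact (LinearMap.injective_iff_surjective (f := ((cgL f ν p : E →L[ℝ] E) : E →ₗ[ℝ] E))).1 hinj
  exact ⟨ContinuousLinearEquiv.ofBijective (cgL f ν p) hker hsurj,
    ContinuousLinearEquiv.coe_ofBijective _ _ _⟩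

/-- PROOF.  `cgS = (fderiv ν p).comp (cgL).inverse` and `cgL` is invertible
(`ContinuousLinearMap.inverse_equiv`). -/
theorem cg_S_apply {f ν : E → E} (h : HSphere f ν) (p : E) (hp : p ∈ sphere (0 : E) 1) (u : E) :
    cgS f ν p (cgL f ν p u) = fderiv ℝ ν p u := by
  obtain ⟨L, hL⟩ := cg_L_equiv h p hp
  unfold cgS
  rw [← hL, ContinuousLinearMap.inverse_equiv]
  simp

/-- PROOF.  `cgL f ν p p = 0 + ‖p‖² • ν p = ν p` by `cg_radial`, so
`cgS f ν p (ν p) = fderiv ν p p = 0`. -/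
theorem cg_S_normal {f ν : E → E} (h : HSphere f ν) (p : E) (hp : p ∈ sphere (0 : E) 1) :
    cgS f ν p (ν p) = 0 := by
  have hp0 := frame_ne hp
  have h1 : cgL f ν p p = ν p := by
    rw [frame_L_apply, cg_radial f h.sf h.hf p hp0, real_inner_self_eq_norm_sq]
    have : ‖p‖ = 1 := by simpa using hp
    rw [this]
    simp
  have h2 := cg_S_apply h p hp p
  rw [h1, cg_radial ν h.sν h.hν p hp0] at h2
  exact h2

/-- For all `x ≠ 0` (not only on the sphere): `‖ν x‖ = 1` and `fderiv f x u ⊥ ν x`.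

PROOF.  `x = ‖x‖ • p`, `p` on the sphere; `ν x = ν p`, `fderiv f x = ‖x‖⁻¹ • fderiv f p` by
`cg_fderiv_smul`. -/
theorem cg_orth_all {f ν : E → E} (h : HSphere f ν) (x : E) (hx : x ≠ 0) :
    ‖ν x‖ = 1 ∧ ∀ u : E, ⟪fderiv ℝ f x u, ν x⟫ = 0 := by
  have hn : 0 < ‖x‖⁻¹ := inv_pos.2 (norm_pos_iff.2 hx)
  have hp : ‖x‖⁻¹ • x ∈ sphere (0 : E) 1 := by
    rw [mem_sphere_zero_iff_norm, norm_smul, norm_inv, norm_norm]
    exact inv_mul_cancel₀ (norm_ne_zero_iff.2 hx)
  have h1 : ν (‖x‖⁻¹ • x) = ν x := h.hν _ hn x hx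
  refine ⟨by rw [← h1]; exact h.unit _ hp, fun u => ?_⟩
  have h2 := cg_fderiv_smul f h.sf h.hf _ hn x hx
  rw [← h2, ← h1, smul_apply, inner_smul_left, h.orth _ hp u, mul_zero]

/-- Symmetry of the second fundamental form.

PROOF.  For fixed `v` the function `x ↦ ⟪fderiv f x v, ν x⟫` vanishes on `{0}ᶜ` (`cg_orth_all`);
its derivative at `p` in the direction `u` is
`⟪fderiv (fderiv f) p u v, ν p⟫ + ⟪fderiv f p v, fderiv ν p u⟫ = 0`.  The second derivative of the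
smooth map `f` is symmetric (`ContDiffAt.isSymmSndFDerivAt`), so
`⟪fderiv f p v, fderiv ν p u⟫ = ⟪fderiv f p u, fderiv ν p v⟫`.  Differentiating `‖ν x‖² = 1` gives
`⟪fderiv ν p u, ν p⟫ = 0`. -/
theorem cg_form_symm {f ν : E → E} (h : HSphere f ν) (p : E) (hp : p ∈ sphere (0 : E) 1) :
    (∀ u v : E, ⟪fderiv ℝ f p v, fderiv ℝ ν p u⟫ = ⟪fderiv ℝ f p u, fderiv ℝ ν p v⟫) ∧
      ∀ u : E, ⟪fderiv ℝ ν p u, ν p⟫ = 0 := by
  have hp0 := frame_ne hp
  have hf := frame_diff h.sf hp0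
  have hν := frame_hasFDerivAt h.sν hp0
  have hev : ∀ᶠ x in nhds p, x ≠ 0 :=
    isOpen_compl_singleton.mem_nhds (show p ∈ ({0}ᶜ : Set E) from hp0)
  have hD : HasFDerivAt (fderiv ℝ f) (fderiv ℝ (fderiv ℝ f) p) p := by
    have h1 : ContDiffAt ℝ 1 (fderiv ℝ f) p := hf.fderiv_right (m := 1) (by
      have : ((1 : WithTop ℕ∞) + 1) ≤ ∞ := by norm_cast
      exact this)
    exact (h1.differentiableAt (by simp)).hasFDerivAt
  have key : ∀ u v : E, ⟪fderiv ℝ f p v, fderiv ℝ ν p u⟫ +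
      ⟪fderiv ℝ (fderiv ℝ f) p u v, ν p⟫ = 0 := by
    intro u v
    have hA : HasFDerivAt (fun x => fderiv ℝ f x v) ((fderiv ℝ (fderiv ℝ f) p).flip v) p := by
      have := hD.clm_apply (hasFDerivAt_const v p)
      simpa using this
    have hB := hA.inner ℝ hν
    have hC : HasFDerivAt (fun x => ⟪fderiv ℝ f x v, ν x⟫) (0 : E →L[ℝ] ℝ) p := by
      refine (hasFDerivAt_const (0 : ℝ) p).congr_of_eventuallyEq ?_
      filter_upwards [hev] with x hx
      exact (cg_orth_all h x hx).2 v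
    have hE := congrArg (fun T : E →L[ℝ] ℝ => T u) (hB.unique hC)
    simpa using hE
  refine ⟨fun u v => ?_, fun u => ?_⟩
  · have hsym : IsSymmSndFDerivAt ℝ f p := hf.isSymmSndFDerivAt (by
      simp only [minSmoothness_of_isRCLikeNormedField]
      norm_cast)
    have h1 := key u v
    have h2 := key v u
    rw [hsym.eq u v] at h1
    linarith
  · have hB := hν.inner ℝ hν
    have hC : HasFDerivAt (fun x => ⟪ν x, ν x⟫) (0 : E →L[ℝ] ℝ) p := by
      refine (hasFDerivAt_const (1 : ℝ) p).congr_of_eventuallyEq ?_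
      filter_upwards [hev] with x hx
      rw [real_inner_self_eq_norm_sq, (cg_orth_all h x hx).1]
      norm_num
    have hE := congrArg (fun T : E →L[ℝ] ℝ => T u) (hB.unique hC)
    have hE2 : ⟪ν p, fderiv ℝ ν p u⟫ + ⟪fderiv ℝ ν p u, ν p⟫ = 0 := by simpa using hE
    rw [real_inner_comm (fderiv ℝ ν p u) (ν p)] at hE2
    linarith

/-- PROOF.  Write `a = cgL u`, `b = cgL v` (`cg_L_equiv`).  By `cg_S_apply` and `cg_form_symm`,
`⟪S a, b⟫ = ⟪fderiv ν p u, fderiv f p v + ⟪p,v⟫ • ν p⟫ = ⟪fderiv ν p u, fderiv f p v⟫`, which is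
symmetric in `u, v`. -/
theorem cg_S_symm {f ν : E → E} (h : HSphere f ν) (p : E) (hp : p ∈ sphere (0 : E) 1) (a b : E) :
    ⟪cgS f ν p a, b⟫ = ⟪a, cgS f ν p b⟫ := by
  obtain ⟨L, hL⟩ := cg_L_equiv h p hp
  obtain ⟨h1, h2⟩ := cg_form_symm h p hp
  have key : ∀ u v : E, ⟪cgS f ν p (cgL f ν p u), cgL f ν p v⟫ =
      ⟪fderiv ℝ ν p u, fderiv ℝ f p v⟫ := by
    intro u v
    rw [cg_S_apply h p hp, frame_L_apply, inner_add_right, inner_smul_right, h2 u, mul_zero,
      add_zero]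
  obtain ⟨u, rfl⟩ : ∃ u, cgL f ν p u = a := ⟨L.symm a, by rw [← hL]; simp⟩
  obtain ⟨v, rfl⟩ : ∃ v, cgL f ν p v = b := ⟨L.symm b, by rw [← hL]; simp⟩
  rw [key u v, real_inner_comm, h1 u v, real_inner_comm, ← key v u]
  exact real_inner_comm _ _

/-- PROOF.  Apply both sides to `u`: `(S + ν ⊗ ν) (L u) = fderiv ν p u + ⟪ν p, L u⟫ • ν p`, and
`⟪ν p, L u⟫ = ⟪p, u⟫`. -/
theorem cg_K_comp {f ν : E → E} (h : HSphere f ν) (p : E) (hp : p ∈ sphere (0 : E) 1) :
    (cgK (cgS f ν p) (ν p)).comp (cgL f ν p) =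
      fderiv ℝ ν p + (innerSL ℝ p).smulRight (ν p) := by
  ext u
  have h1 : ⟪ν p, cgL f ν p u⟫ = ⟪p, u⟫ := by
    rw [frame_L_apply, inner_add_right, real_inner_comm, h.orth p hp u, inner_smul_right,
      real_inner_self_eq_norm_sq, h.unit p hp]
    norm_num
  have h2 : cgK (cgS f ν p) (ν p) (cgL f ν p u) =
      cgS f ν p (cgL f ν p u) + ⟪ν p, cgL f ν p u⟫ • ν p := by
    simp [cgK]
  rw [ContinuousLinearMap.comp_apply, h2, h1, cg_S_apply h p hp]
  simp

end Pool.Schoen
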