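import Mathlib
import Pool.Agent.H.MP_6c077c_gt.CG.Frame

/-! Conformal gap theorem: continuity of the shape operator and the bad set. -/

set_option autoImplicit false

namespace Pool.Schoen

open scoped ContDiff RealInnerProductSpace
open Metric Set

variable {E : Type*} [NormedAddCommGroup E] [InnerProductSpace ℝ E] [FiniteDimensional ℝ E]

omit [InnerProductSpace ℝ E] [FiniteDimensional ℝ E] in
private theorem cont_sphere_sub : sphere (0 : E) 1 ⊆ {0}ᶜ := by
  intro p hp h0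
  rw [mem_singleton_iff] at h0
  subst h0
  simp at hp

private theorem cont_nu {f ν : E → E} (h : HSphere f ν) : ContinuousOn ν (sphere (0 : E) 1) :=
  h.sν.continuousOn.mono cont_sphere_sub

/-- PROOF.  `fderiv f`, `fderiv ν`, `ν` are continuous on `{0}ᶜ`; inversion is continuous at
invertible operators (`ContinuousLinearMap.inverse` is continuous / smooth at equivalences:
`contDiffAt_map_inverse` or `IsOpen`.. ), use `cg_L_equiv`. -/
theorem cg_cont {f ν : E → E} (h : HSphere f ν) :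
    ContinuousOn (cgL f ν) (sphere (0 : E) 1) ∧ ContinuousOn (cgS f ν) (sphere (0 : E) 1) := by
  have hopen : IsOpen ({0}ᶜ : Set E) := isOpen_compl_singleton
  have hdf : ContinuousOn (fderiv ℝ f) (sphere (0 : E) 1) :=
    (h.sf.continuousOn_fderiv_of_isOpen hopen (by simp)).mono cont_sphere_sub
  have hdν : ContinuousOn (fderiv ℝ ν) (sphere (0 : E) 1) :=
    (h.sν.continuousOn_fderiv_of_isOpen hopen (by simp)).mono cont_sphere_sub
  have hL : ContinuousOn (cgL f ν) (sphere (0 : E) 1) := by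
    have h1 : ContinuousOn (fun p : E => (innerSL ℝ p).smulRight (ν p)) (sphere (0 : E) 1) := by
      have h2 : Continuous (fun p : E => ContinuousLinearMap.smulRightL ℝ E E (innerSL ℝ p)) :=
        (ContinuousLinearMap.smulRightL ℝ E E).continuous.comp (innerSL ℝ).continuous
      exact h2.continuousOn.clm_apply (cont_nu h)
    exact hdf.add h1
  refine ⟨hL, ?_⟩
  have hinv : ContinuousOn (fun p => (cgL f ν p).inverse) (sphere (0 : E) 1) := by
    intro p hp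
    obtain ⟨L, hLp⟩ := cg_L_equiv h p hp
    have h1 : ContinuousAt (ContinuousLinearMap.inverse : (E →L[ℝ] E) → (E →L[ℝ] E))
        (cgL f ν p) := by
      rw [← hLp]
      exact (contDiffAt_map_inverse (n := 1) L).continuousAt
    exact ContinuousAt.comp_continuousWithinAt (f := cgL f ν) h1 (hL p hp)
  exact hdν.clm_comp hinv

/-- The set of points with indefinite (or degenerate) second fundamental form. -/
def cgBad (f ν : E → E) : Set E :=
  {p | p ∈ sphere (0 : E) 1 ∧ (∃ w : E, w ≠ 0 ∧ ⟪w, ν p⟫ = 0 ∧ ⟪cgS f ν p w, w⟫ ≤ 0) ∧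
    ∃ w : E, w ≠ 0 ∧ ⟪w, ν p⟫ = 0 ∧ 0 ≤ ⟪cgS f ν p w, w⟫}

private theorem cont_closed_aux {f ν : E → E} (h : HSphere f ν) (T : Set ℝ) (hT : IsClosed T)
    (hc : ∀ x ∈ T, ∀ c : ℝ, 0 < c → c * x ∈ T) :
    IsClosed {p : E | p ∈ sphere (0 : E) 1 ∧
      ∃ w : E, w ≠ 0 ∧ ⟪w, ν p⟫ = 0 ∧ ⟪cgS f ν p w, w⟫ ∈ T} := by
  have hK : IsCompact (sphere (0 : E) 1 ×ˢ sphere (0 : E) 1) :=
    (isCompact_sphere (0 : E) 1).prod (isCompact_sphere (0 : E) 1)
  have hfst : ContinuousOn (Prod.fst : E × E → E) (sphere (0 : E) 1 ×ˢ sphere (0 : E) 1) :=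
    continuous_fst.continuousOn
  have hsnd : ContinuousOn (Prod.snd : E × E → E) (sphere (0 : E) 1 ×ˢ sphere (0 : E) 1) :=
    continuous_snd.continuousOn
  have hmaps : MapsTo (Prod.fst : E × E → E) (sphere (0 : E) 1 ×ˢ sphere (0 : E) 1)
      (sphere (0 : E) 1) := fun q hq => hq.1
  have h1 : ContinuousOn (fun q : E × E => ⟪q.2, ν q.1⟫)
      (sphere (0 : E) 1 ×ˢ sphere (0 : E) 1) :=
    hsnd.inner ((cont_nu h).comp hfst hmaps)
  have h2 : ContinuousOn (fun q : E × E => ⟪cgS f ν q.1 q.2, q.2⟫)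
      (sphere (0 : E) 1 ×ˢ sphere (0 : E) 1) :=
    (((cg_cont h).2.comp hfst hmaps).clm_apply hsnd).inner hsnd
  have h3 : IsClosed ((sphere (0 : E) 1 ×ˢ sphere (0 : E) 1) ∩
      (fun q : E × E => (⟪q.2, ν q.1⟫, ⟪cgS f ν q.1 q.2, q.2⟫)) ⁻¹' (({0} : Set ℝ) ×ˢ T)) :=
    (h1.prodMk h2).preimage_isClosed_of_isClosed hK.isClosed (isClosed_singleton.prod hT)
  have h4 : IsCompact ((sphere (0 : E) 1 ×ˢ sphere (0 : E) 1) ∩
      (fun q : E × E => (⟪q.2, ν q.1⟫, ⟪cgS f ν q.1 q.2, q.2⟫)) ⁻¹' (({0} : Set ℝ) ×ˢ T)) :=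
    hK.of_isClosed_subset h3 inter_subset_left
  have h5 := (h4.image (continuous_fst : Continuous (Prod.fst : E × E → E))).isClosed
  convert h5 using 1
  ext p
  constructor
  · rintro ⟨hp, w, hw, hw1, hw2⟩
    have hn : 0 < ‖w‖⁻¹ := inv_pos.2 (norm_pos_iff.2 hw)
    refine ⟨(p, ‖w‖⁻¹ • w), ⟨⟨hp, ?_⟩, ?_⟩, rfl⟩
    · rw [mem_sphere_zero_iff_norm, norm_smul, norm_inv, norm_norm,
        inv_mul_cancel₀ (norm_ne_zero_iff.2 hw)]
    · refine ⟨?_, ?_⟩
      · show ⟪‖w‖⁻¹ • w, ν p⟫ = 0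
        rw [real_inner_smul_left, hw1, mul_zero]
      · show ⟪cgS f ν p (‖w‖⁻¹ • w), ‖w‖⁻¹ • w⟫ ∈ T
        rw [map_smul, real_inner_smul_left, real_inner_smul_right]
        exact hc _ (hc _ hw2 _ hn) _ hn
  · rintro ⟨⟨p', w⟩, ⟨⟨hp, hw⟩, hw1, hw2⟩, rfl⟩
    refine ⟨hp, w, ?_, hw1, hw2⟩
    exact cont_sphere_sub hw

/-- PROOF.  By scaling `w` may be taken of norm one in both conditions.  The set
`{(p, w) | ‖p‖ = 1, ‖w‖ = 1, ⟪w, ν p⟫ = 0, ⟪cgS p w, w⟫ ≤ 0}` is a closed subset of the compact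
set `sphere × sphere` (continuity of `ν` and `cgS` on the sphere), so it is compact and its
projection to `p` is compact, hence closed; same for `0 ≤`.  The intersection is closed. -/
theorem cg_bad_closed {f ν : E → E} (h : HSphere f ν) : IsClosed (cgBad f ν) := by
  have h1 := cont_closed_aux h (Iic 0) isClosed_Iic (fun x hx c hc => by
    rw [mem_Iic] at hx ⊢
    exact mul_nonpos_of_nonneg_of_nonpos hc.le hx)
  have h2 := cont_closed_aux h (Ici 0) isClosed_Ici (fun x hx c hc => by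
    rw [mem_Ici] at hx ⊢
    exact mul_nonneg hc.le hx)
  convert h1.inter h2 using 1
  ext p
  constructor
  · rintro ⟨hp, h3, h4⟩
    exact ⟨⟨hp, h3⟩, ⟨hp, h4⟩⟩
  · rintro ⟨⟨hp, h3⟩, ⟨_, h4⟩⟩
    exact ⟨hp, h3, h4⟩

end Pool.Schoen
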