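import Mathlib
import Pool.Agent.H.MP_6c077c_gt.CG.Frame

/-! Conformal gap theorem: the tube map is injective near the sphere. -/

set_option autoImplicit false

namespace Pool.Schoen

open scoped ContDiff RealInnerProductSpace
open Metric Set

variable {E : Type*} [NormedAddCommGroup E] [InnerProductSpace ℝ E] [FiniteDimensional ℝ E]

/-- The tube map: `t • p` goes to `f p + (t - 1) • ν p` for `p` on the sphere. -/
noncomputable def cgTube (f ν : E → E) (x : E) : E := f x + (‖x‖ - 1) • ν x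

private theorem tube_contDiffOn {f ν : E → E} (h : HSphere f ν) :
    ContDiffOn ℝ ∞ (cgTube f ν) {0}ᶜ := by
  have h1 : ContDiffOn ℝ ∞ (fun x : E => ‖x‖) {0}ᶜ := fun x hx =>
    (contDiffAt_norm ℝ hx).contDiffWithinAt
  exact h.sf.add ((h1.sub contDiffOn_const).smul h.sν)

private theorem tube_norm_deriv {p : E} (hp : ‖p‖ = 1) :
    HasFDerivAt (fun x : E => ‖x‖) (innerSL ℝ p) p := by
  have h1 := (hasStrictFDerivAt_norm_sq p).hasFDerivAt.sqrt (by rw [hp]; norm_num)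
  have h2 : (fun x : E => Real.sqrt (‖x‖ ^ 2)) = fun x : E => ‖x‖ := by
    funext x
    exact Real.sqrt_sq (norm_nonneg x)
  rw [h2] at h1
  refine h1.congr_fderiv ?_
  rw [hp]
  ext u
  simp

/-- PROOF.  Smooth on `{0}ᶜ`; at `p` on the sphere the derivative of `x ↦ (‖x‖ - 1) • ν x` is
`u ↦ ⟪p, u⟫ • ν p`. -/
theorem cg_tube_deriv {f ν : E → E} (h : HSphere f ν) :
    ContDiffOn ℝ ∞ (cgTube f ν) {0}ᶜ ∧
      ∀ p ∈ sphere (0 : E) 1, HasFDerivAt (cgTube f ν) (cgL f ν p) p := by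
  refine ⟨tube_contDiffOn h, fun p hp => ?_⟩
  have hp1 : ‖p‖ = 1 := by simpa using hp
  have hp0 : p ≠ 0 := by
    intro h0
    rw [h0, norm_zero] at hp1
    norm_num at hp1
  have hop : ({0}ᶜ : Set E) ∈ nhds p := isOpen_compl_singleton.mem_nhds hp0
  have hf : HasFDerivAt f (fderiv ℝ f p) p :=
    ((h.sf.contDiffAt hop).differentiableAt (by simp)).hasFDerivAt
  have hν : HasFDerivAt ν (fderiv ℝ ν p) p :=
    ((h.sν.contDiffAt hop).differentiableAt (by simp)).hasFDerivAt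
  have h1 := hf.add (((tube_norm_deriv hp1).sub_const 1).smul hν)
  refine h1.congr_fderiv ?_
  rw [hp1, sub_self, zero_smul, zero_add]
  rfl

/-- PROOF.  At each `p` of the sphere `cgTube` has an invertible strict derivative (`cg_L_equiv`),
so it is injective on a neighbourhood of `p`; it is injective on the (compact) sphere; by
`Set.InjOn.exists_mem_nhdsSet` it is injective on a neighbourhood of the sphere.  The set of `x ≠ 0`
where the derivative is invertible is open (`ContinuousLinearEquiv.isOpen`) and contains the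
sphere.  A neighbourhood of the sphere contains `thickening δ₀ (sphere 0 1)` for some `δ₀ > 0`
(compactness), hence the annulus `|‖x‖ - 1| ≤ δ` for `δ < min δ₀ (1/2)`
(`dist x (‖x‖⁻¹ • x) = |‖x‖ - 1|`). -/
theorem cg_tube_inj {f ν : E → E} (h : HSphere f ν) :
    ∃ δ : ℝ, 0 < δ ∧ δ < 1 / 2 ∧ InjOn (cgTube f ν) {x | |‖x‖ - 1| ≤ δ} ∧
      ∀ x, |‖x‖ - 1| ≤ δ → ∃ L : E ≃L[ℝ] E, HasFDerivAt (cgTube f ν) (L : E →L[ℝ] E) x := by
  obtain ⟨hsm, hder⟩ := cg_tube_deriv h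
  have hne : ∀ p ∈ sphere (0 : E) 1, p ≠ 0 := by
    intro p hp h0
    have hp1 : ‖p‖ = 1 := by simpa using hp
    rw [h0, norm_zero] at hp1
    norm_num at hp1
  have hop : ∀ p : E, p ≠ 0 → ({0}ᶜ : Set E) ∈ nhds p := fun p hp0 =>
    isOpen_compl_singleton.mem_nhds hp0
  have hinj0 : InjOn (cgTube f ν) (sphere (0 : E) 1) := by
    intro x hx y hy hxy
    have hx1 : ‖x‖ = 1 := by simpa using hx
    have hy1 : ‖y‖ = 1 := by simpa using hy
    have h1 : cgTube f ν x = f x := by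
      unfold cgTube
      rw [hx1, sub_self, zero_smul, add_zero]
    have h2 : cgTube f ν y = f y := by
      unfold cgTube
      rw [hy1, sub_self, zero_smul, add_zero]
    rw [h1, h2] at hxy
    exact h.inj hx hy hxy
  have hloc : ∀ x ∈ sphere (0 : E) 1, ∃ u ∈ nhds x, InjOn (cgTube f ν) u := by
    intro p hp
    obtain ⟨L, hL⟩ := cg_L_equiv h p hp
    have hd : HasFDerivAt (cgTube f ν) (L : E →L[ℝ] E) p := by
      rw [hL]
      exact hder p hp
    have hc : ContDiffAt ℝ ∞ (cgTube f ν) p := hsm.contDiffAt (hop p (hne p hp))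
    let φ := hc.toOpenPartialHomeomorph (cgTube f ν) hd (by simp)
    refine ⟨φ.source, φ.open_source.mem_nhds
      (hc.mem_toOpenPartialHomeomorph_source hd (by simp)), ?_⟩
    exact φ.injOn
  obtain ⟨t, ht, htinj⟩ := hinj0.exists_mem_nhdsSet (isCompact_sphere (0 : E) 1)
    (fun x hx => (hsm.contDiffAt (hop x (hne x hx))).continuousAt) hloc
  obtain ⟨t', ht'o, ht's, ht't⟩ := mem_nhdsSet_iff_exists.1 ht
  have hcont : ContinuousOn (fderiv ℝ (cgTube f ν)) ({0}ᶜ : Set E) :=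
    hsm.continuousOn_fderiv_of_isOpen isOpen_compl_singleton (by simp)
  have hUo : IsOpen (({0}ᶜ : Set E) ∩ fderiv ℝ (cgTube f ν) ⁻¹'
      (range ((↑) : (E ≃L[ℝ] E) → E →L[ℝ] E))) :=
    hcont.isOpen_inter_preimage isOpen_compl_singleton ContinuousLinearEquiv.isOpen
  have hsub : sphere (0 : E) 1 ⊆ t' ∩ (({0}ᶜ : Set E) ∩ fderiv ℝ (cgTube f ν) ⁻¹'
      (range ((↑) : (E ≃L[ℝ] E) → E →L[ℝ] E))) := by
    intro p hp
    refine ⟨ht's hp, hne p hp, ?_⟩
    obtain ⟨L, hL⟩ := cg_L_equiv h p hp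
    refine ⟨L, ?_⟩
    rw [hL, (hder p hp).fderiv]
  obtain ⟨δ₀, hδ₀, hthick⟩ := (isCompact_sphere (0 : E) 1).exists_thickening_subset_open
    (ht'o.inter hUo) hsub
  have hann : ∀ x : E, |‖x‖ - 1| ≤ min (δ₀ / 2) (1 / 4) →
      x ∈ t' ∩ (({0}ᶜ : Set E) ∩ fderiv ℝ (cgTube f ν) ⁻¹'
      (range ((↑) : (E ≃L[ℝ] E) → E →L[ℝ] E))) := by
    intro x hx
    apply hthick
    rw [mem_thickening_iff]
    have h1 : |‖x‖ - 1| ≤ 1 / 4 := hx.trans (min_le_right _ _)
    have h2 : |‖x‖ - 1| ≤ δ₀ / 2 := hx.trans (min_le_left _ _)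
    have hx0 : 0 < ‖x‖ := by linarith [(abs_le.1 h1).1]
    refine ⟨‖x‖⁻¹ • x, ?_, ?_⟩
    · rw [mem_sphere_zero_iff_norm, norm_smul, norm_inv, norm_norm, inv_mul_cancel₀ hx0.ne']
    · have h3 : x - ‖x‖⁻¹ • x = (1 - ‖x‖⁻¹) • x := by rw [sub_smul, one_smul]
      have h4 : (‖x‖ - 1) = (1 - ‖x‖⁻¹) * ‖x‖ := by field_simp
      rw [dist_eq_norm, h3, norm_smul, Real.norm_eq_abs]
      rw [h4, abs_mul, abs_of_pos hx0] at h2
      linarith
  refine ⟨min (δ₀ / 2) (1 / 4), by positivity, ?_, ?_, ?_⟩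
  · exact lt_of_le_of_lt (min_le_right _ _) (by norm_num)
  · exact htinj.mono fun x hx => ht't (hann x hx).1
  · intro x hx
    obtain ⟨_, hx0, L, hL⟩ := hann x hx
    refine ⟨L, ?_⟩
    rw [hL]
    exact ((hsm.contDiffAt (hop x hx0)).differentiableAt (by simp)).hasFDerivAt

end Pool.Schoen
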