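import Mathlib
import Pool.Agent.H.MP_6c077c_gt.LiftSide
import Pool.Agent.H.MP_6c077c_gt.CG.Tube

/-! Conformal gap theorem: the truncated signed distance function. -/

set_option autoImplicit false

namespace Pool.Schoen

open scoped ContDiff RealInnerProductSpace
open Metric Set

variable {E : Type*} [NormedAddCommGroup E] [InnerProductSpace ℝ E] [FiniteDimensional ℝ E]

/-- The truncated signed distance function.

PROOF.  Apply `lift_side` to `X = E` (simply connected: contractible; locally path connected),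
`P = sphere (0 : E) 1` (compact, connected by `isConnected_sphere` as the dimension is at least 2)
and `τ (p, u) = cgTube f ν ((1 + u) • p) = f p + u • ν p` for `|u| < 1`; continuous, injective on
`univ ×ˢ Icc (-δ) δ` (from `cg_tube_inj`: `(1+u) • p` determines `p` and `u`), and the image of
`univ ×ˢ Ioo (-δ) δ` is the image under `cgTube` of the open annulus `|‖x‖ - 1| < δ`, which is open
because `cgTube` is a local homeomorphism there (`HasStrictFDerivAt.map_nhds_eq_of_equiv`, the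
strict derivative exists by smoothness). -/
theorem cg_side (hdim : 2 ≤ Module.finrank ℝ E) {f ν : E → E} (h : HSphere f ν) (δ : ℝ)
    (hδ : 0 < δ) (hδ' : δ < 1 / 2) (hinj : InjOn (cgTube f ν) {x | |‖x‖ - 1| ≤ δ})
    (hder : ∀ x, |‖x‖ - 1| ≤ δ → ∃ L : E ≃L[ℝ] E, HasFDerivAt (cgTube f ν) (L : E →L[ℝ] E) x) :
    ∃ G : E → ℝ, Continuous G ∧ (∀ x, |‖x‖ - 1| ≤ δ → G (cgTube f ν x) = ‖x‖ - 1) ∧
      ∀ y, y ∉ cgTube f ν '' {x | |‖x‖ - 1| < δ} → G y = -δ ∨ G y = δ := by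
  classical
  have hrank : 1 < Module.rank ℝ E := by
    rw [← Module.finrank_eq_rank]
    exact_mod_cast (by omega : 1 < Module.finrank ℝ E)
  have hsph : IsConnected (sphere (0 : E) 1) := isConnected_sphere hrank 0 zero_le_one
  have : ConnectedSpace (sphere (0 : E) 1) := isConnected_iff_connectedSpace.1 hsph
  -- the parameters
  have hnorm : ∀ (p : sphere (0 : E) 1) (u : ℝ), |u| ≤ δ → ‖(1 + u) • (p : E)‖ = 1 + u := by
    intro p u hu
    have h1 := (abs_le.1 hu).1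
    rw [norm_smul, norm_eq_of_mem_sphere, mul_one, Real.norm_of_nonneg (by linarith)]
  have hann : ∀ (p : sphere (0 : E) 1) (u : ℝ), |u| ≤ δ →
      (1 + u) • (p : E) ∈ {x : E | |‖x‖ - 1| ≤ δ} := by
    intro p u hu
    change |‖(1 + u) • (p : E)‖ - 1| ≤ δ
    rw [hnorm p u hu, add_sub_cancel_left]
    exact hu
  have hrep : ∀ x : E, |‖x‖ - 1| ≤ δ → ∃ p : sphere (0 : E) 1, (1 + (‖x‖ - 1)) • (p : E) = x := by
    intro x hx
    have h1 := (abs_le.1 hx).1
    have h2 : 0 < ‖x‖ := by linarith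
    refine ⟨⟨‖x‖⁻¹ • x, ?_⟩, ?_⟩
    · rw [mem_sphere_zero_iff_norm, norm_smul, norm_inv, norm_norm, inv_mul_cancel₀ h2.ne']
    · change (1 + (‖x‖ - 1)) • (‖x‖⁻¹ • x) = x
      rw [add_sub_cancel, smul_smul, mul_inv_cancel₀ h2.ne', one_smul]
  let τ : sphere (0 : E) 1 × ℝ → E := fun q => cgTube f ν ((1 + q.2) • (q.1 : E))
  have hc : ContinuousOn τ (univ ×ˢ Icc (-δ) δ) := by
    rintro ⟨p, u⟩ ⟨-, hu⟩
    have hu' : |u| ≤ δ := abs_le.2 hu
    obtain ⟨L, hL⟩ := hder _ (hann p u hu')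
    have h1 : ContinuousAt (fun q : sphere (0 : E) 1 × ℝ => (1 + q.2) • (q.1 : E)) (p, u) := by
      fun_prop
    exact (ContinuousAt.comp (f := fun q : sphere (0 : E) 1 × ℝ => (1 + q.2) • (q.1 : E))
      (x := (p, u)) hL.continuousAt h1).continuousWithinAt
  have hi : InjOn τ (univ ×ˢ Icc (-δ) δ) := by
    rintro ⟨p, u⟩ ⟨-, hu⟩ ⟨p', u'⟩ ⟨-, hu'⟩ he
    have h1 : |u| ≤ δ := abs_le.2 hu
    have h2 : |u'| ≤ δ := abs_le.2 hu'
    have h3 : (1 + u) • (p : E) = (1 + u') • (p' : E) := hinj (hann p u h1) (hann p' u' h2) he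
    have h4 : 1 + u = 1 + u' := by rw [← hnorm p u h1, ← hnorm p' u' h2, h3]
    have h5 : (1 + u) ≠ 0 := by
      have := (abs_le.1 h1).1
      intro h0
      linarith
    rw [← h4] at h3
    have h6 : (p : E) = p' := smul_right_injective E h5 h3
    exact Prod.ext (Subtype.ext h6) (add_left_cancel h4)
  have himg : τ '' (univ ×ˢ Ioo (-δ) δ) = cgTube f ν '' {x | |‖x‖ - 1| < δ} := by
    ext y
    constructor
    · rintro ⟨⟨p, u⟩, ⟨-, hu⟩, rfl⟩
      have h1 : |u| < δ := abs_lt.2 hu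
      refine ⟨(1 + u) • (p : E), ?_, rfl⟩
      change |‖(1 + u) • (p : E)‖ - 1| < δ
      rw [hnorm p u h1.le, add_sub_cancel_left]
      exact h1
    · rintro ⟨x, hx, rfl⟩
      have hx' : |‖x‖ - 1| < δ := hx
      obtain ⟨p, hp⟩ := hrep x hx'.le
      refine ⟨(p, ‖x‖ - 1), ⟨mem_univ _, abs_lt.1 hx'⟩, ?_⟩
      change cgTube f ν ((1 + (‖x‖ - 1)) • (p : E)) = cgTube f ν x
      rw [hp]
  have hopen : IsOpen (τ '' (univ ×ˢ Ioo (-δ) δ)) := by
    rw [himg, isOpen_iff_mem_nhds]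
    rintro y ⟨x, hx, rfl⟩
    have hx' : |‖x‖ - 1| < δ := hx
    obtain ⟨L, hL⟩ := hder x hx'.le
    have hx0 : x ≠ 0 := by
      rintro rfl
      rw [norm_zero, zero_sub, abs_neg, abs_one] at hx'
      linarith
    have h1 : ContDiffAt ℝ ∞ (cgTube f ν) x :=
      (cg_tube_deriv h).1.contDiffAt (isOpen_compl_singleton.mem_nhds hx0)
    have h2 : HasStrictFDerivAt (cgTube f ν) (L : E →L[ℝ] E) x :=
      h1.hasStrictFDerivAt' hL (by simp)
    have h3 : {x : E | |‖x‖ - 1| < δ} ∈ nhds x := by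
      apply IsOpen.mem_nhds _ hx
      exact isOpen_lt (by fun_prop) continuous_const
    rw [← h2.map_nhds_eq_of_equiv]
    exact Filter.image_mem_map h3
  obtain ⟨G, hG, hGt, hGo⟩ := lift_side τ δ δ hδ hδ hc hi hopen
  refine ⟨G, hG, fun x hx => ?_, fun y hy => ?_⟩
  · obtain ⟨p, hp⟩ := hrep x hx
    have h1 := hGt p (‖x‖ - 1) (abs_le.1 hx)
    change G (cgTube f ν ((1 + (‖x‖ - 1)) • (p : E))) = ‖x‖ - 1 at h1
    rw [hp] at h1
    exact h1
  · rw [← himg] at hy
    exact hGo y hy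

end Pool.Schoen
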