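import Mathlib
import Pool.Agent.H.MP_6c077c_gt.CG.TubeSide

/-! Conformal gap theorem: an embedded hypersphere is a regular level set. -/

set_option autoImplicit false

namespace Pool.Schoen

open scoped ContDiff RealInnerProductSpace
open Metric Set

variable {E : Type*} [NormedAddCommGroup E] [InnerProductSpace ℝ E] [FiniteDimensional ℝ E]

/-- the cut off function -/
noncomputable def Defining_s (δ u : ℝ) : ℝ := Real.smoothTransition (3 * u / δ - 1)

theorem Defining_s_zero {δ u : ℝ} (hδ : 0 < δ) (hu : u ≤ δ / 3) : Defining_s δ u = 0 := by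
  apply Real.smoothTransition.zero_of_nonpos
  rw [sub_nonpos, div_le_one hδ]
  linarith

theorem Defining_s_one {δ u : ℝ} (hδ : 0 < δ) (hu : 2 * δ / 3 ≤ u) : Defining_s δ u = 1 := by
  apply Real.smoothTransition.one_of_one_le
  rw [le_sub_iff_add_le, le_div_iff₀ hδ]
  linarith

theorem Defining_s_nonneg (δ u : ℝ) : 0 ≤ Defining_s δ u := Real.smoothTransition.nonneg _

theorem Defining_s_le (δ u : ℝ) : Defining_s δ u ≤ 1 := Real.smoothTransition.le_one _

/-- the truncation -/
noncomputable def Defining_th (δ u : ℝ) : ℝ :=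
  u * (1 - Defining_s δ u - Defining_s δ (-u)) + δ * (Defining_s δ u - Defining_s δ (-u))

theorem Defining_th_smooth (δ : ℝ) : ContDiff ℝ ∞ (Defining_th δ) := by
  have h1 : ContDiff ℝ ∞ (Defining_s δ) := by
    unfold Defining_s
    refine Real.smoothTransition.contDiff.comp ?_
    fun_prop
  have h2 : ContDiff ℝ ∞ (fun u => Defining_s δ (-u)) := h1.comp contDiff_neg
  unfold Defining_th
  exact (contDiff_id.mul ((contDiff_const.sub h1).sub h2)).add
    (contDiff_const.mul (h1.sub h2))

theorem Defining_th_neg (δ u : ℝ) : Defining_th δ (-u) = -Defining_th δ u := by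
  unfold Defining_th
  rw [neg_neg]
  ring

theorem Defining_th_small {δ u : ℝ} (hδ : 0 < δ) (hu : |u| ≤ δ / 3) : Defining_th δ u = u := by
  unfold Defining_th
  rw [Defining_s_zero hδ ((le_abs_self u).trans hu),
    Defining_s_zero hδ ((neg_le_abs u).trans hu)]
  ring

theorem Defining_th_big {δ u : ℝ} (hδ : 0 < δ) (hu : 2 * δ / 3 ≤ u) : Defining_th δ u = δ := by
  unfold Defining_th
  rw [Defining_s_one hδ hu, Defining_s_zero hδ (by linarith)]
  ring

theorem Defining_th_pos {δ u : ℝ} (hδ : 0 < δ) (hu : 0 < u) : 0 < Defining_th δ u := by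
  unfold Defining_th
  rw [Defining_s_zero (u := -u) hδ (by linarith)]
  have h1 := Defining_s_nonneg δ u
  have h2 := Defining_s_le δ u
  rcases h2.eq_or_lt with h3 | h3
  · rw [h3]
    linarith
  · have h4 : 0 < u * (1 - Defining_s δ u - 0) := mul_pos hu (by linarith)
    have h5 : 0 ≤ δ * (Defining_s δ u - 0) := mul_nonneg hδ.le (by linarith)
    linarith

theorem Defining_th_zero {δ u : ℝ} (hδ : 0 < δ) : Defining_th δ u = 0 ↔ u = 0 := by
  constructor
  · intro h
    rcases lt_trichotomy u 0 with h1 | h1 | h1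
    · have h2 := Defining_th_pos hδ (neg_pos.2 h1)
      rw [Defining_th_neg, h] at h2
      linarith
    · exact h1
    · have h2 := Defining_th_pos hδ h1
      linarith
  · rintro rfl
    exact Defining_th_small hδ (by rw [abs_zero]; linarith)

theorem Defining_norm_sphere {p : E} (hp : p ∈ sphere (0 : E) 1) : ‖p‖ = 1 := by
  rw [mem_sphere_iff_norm, sub_zero] at hp
  exact hp

theorem Defining_ne {p : E} (hp : p ∈ sphere (0 : E) 1) : p ≠ 0 := by
  rintro rfl
  have := Defining_norm_sphere hp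
  rw [norm_zero] at this
  exact zero_ne_one this

theorem Defining_ann_ne {δ : ℝ} (hδ : δ < 1 / 2) {x : E} (hx : |‖x‖ - 1| ≤ δ) : x ≠ 0 := by
  rintro rfl
  rw [norm_zero] at hx
  have := (abs_le.1 hx).1
  linarith

/-- the tube map on the rays -/
theorem Defining_tube_ray {f ν : E → E} (h : HSphere f ν) {p : E} (hp : p ∈ sphere (0 : E) 1)
    {u : ℝ} (hu : -1 < u) : cgTube f ν ((1 + u) • p) = f p + u • ν p := by
  unfold cgTube
  have h1 : 0 < 1 + u := by linarith
  rw [h.hf _ h1 p (Defining_ne hp), h.hν _ h1 p (Defining_ne hp), norm_smul,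
    Defining_norm_sphere hp, mul_one, Real.norm_of_nonneg h1.le]
  congr 2
  ring

theorem Defining_tube_sphere {f ν : E → E} (h : HSphere f ν) {p : E}
    (hp : p ∈ sphere (0 : E) 1) : cgTube f ν p = f p := by
  have h1 := Defining_tube_ray h hp (u := 0) (by norm_num)
  simpa using h1

/-- the exterior of a ball is connected -/
theorem Defining_conn (hdim : 2 ≤ Module.finrank ℝ E) {R : ℝ} (hR : 0 ≤ R) :
    IsPreconnected {y : E | R < ‖y‖} := by
  have hrank : 1 < Module.rank ℝ E := by
    have := Module.lt_rank_of_lt_finrank (R := ℝ) (M := E) (n := 1) (by omega)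
    simpa using this
  have h1 : IsPreconnected (sphere (0 : E) 1) := isPreconnected_sphere hrank 0 1
  have h2 : IsPreconnected (sphere (0 : E) 1 ×ˢ Ioi R) := h1.prod isPreconnected_Ioi
  have h3 : {y : E | R < ‖y‖} = (fun q : E × ℝ => q.2 • q.1) '' (sphere (0 : E) 1 ×ˢ Ioi R) := by
    ext y
    constructor
    · intro hy
      have hy' : R < ‖y‖ := hy
      have hy0 : 0 < ‖y‖ := lt_of_le_of_lt hR hy'
      refine ⟨(‖y‖⁻¹ • y, ‖y‖), ⟨?_, hy'⟩, ?_⟩
      · show ‖y‖⁻¹ • y ∈ sphere (0 : E) 1
        rw [mem_sphere_iff_norm, sub_zero, norm_smul, norm_inv, norm_norm,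
          inv_mul_cancel₀ hy0.ne']
      · show ‖y‖ • (‖y‖⁻¹ • y) = y
        rw [smul_smul, mul_inv_cancel₀ hy0.ne', one_smul]
    · rintro ⟨⟨p, t⟩, ⟨hp, ht⟩, rfl⟩
      have ht' : R < t := ht
      show R < ‖t • p‖
      rw [norm_smul, Defining_norm_sphere hp, mul_one, Real.norm_of_nonneg (hR.trans ht'.le)]
      exact ht'
  rw [h3]
  exact h2.image _ (by fun_prop)

/-- smoothness of the truncated function -/
theorem Defining_smooth {f ν : E → E} (h : HSphere f ν) {δ : ℝ} (hδ : 0 < δ) (hδ' : δ < 1 / 2)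
    (hder : ∀ x, |‖x‖ - 1| ≤ δ → ∃ L : E ≃L[ℝ] E, HasFDerivAt (cgTube f ν) (L : E →L[ℝ] E) x)
    {G : E → ℝ} (hG : Continuous G) (hG1 : ∀ x, |‖x‖ - 1| ≤ δ → G (cgTube f ν x) = ‖x‖ - 1)
    (hG2 : ∀ y, y ∉ cgTube f ν '' {x | |‖x‖ - 1| < δ} → G y = -δ ∨ G y = δ) :
    ContDiff ℝ ∞ (fun y => Defining_th δ (G y)) := by
  rw [contDiff_iff_contDiffAt]
  intro y
  by_cases hy : y ∈ cgTube f ν '' {x | |‖x‖ - 1| < δ}
  · obtain ⟨x, hx, rfl⟩ := hy
    have hx' : |‖x‖ - 1| < δ := hx
    have hx0 : x ≠ 0 := Defining_ann_ne hδ' hx'.le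
    obtain ⟨L, hL⟩ := hder x hx'.le
    have hT : ContDiffAt ℝ ∞ (cgTube f ν) x :=
      (cg_tube_deriv h).1.contDiffAt (isOpen_compl_singleton.mem_nhds hx0)
    have hn : (∞ : WithTop ℕ∞) ≠ 0 := by simp
    set g := hT.localInverse hL hn with hg
    have hgs : ContDiffAt ℝ ∞ g (cgTube f ν x) := hT.to_localInverse hL hn
    have hgx : g (cgTube f ν x) = x := hT.localInverse_apply_image hL hn
    have hright : ∀ᶠ z in nhds (cgTube f ν x), cgTube f ν (g z) = z :=
      (hT.hasStrictFDerivAt' hL hn).eventually_right_inverse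
    have hcont : ContinuousAt g (cgTube f ν x) := hgs.continuousAt
    have hnear : ∀ᶠ z in nhds (cgTube f ν x), |‖g z‖ - 1| < δ := by
      have h1 : ContinuousAt (fun z => |‖g z‖ - 1|) (cgTube f ν x) :=
        (hcont.norm.sub continuousAt_const).abs
      have h2 : (fun z => |‖g z‖ - 1|) (cgTube f ν x) < δ := by
        show |‖g (cgTube f ν x)‖ - 1| < δ
        rw [hgx]
        exact hx'
      exact h1.eventually (gt_mem_nhds h2)
    have heq : (fun z => Defining_th δ (G z)) =ᶠ[nhds (cgTube f ν x)]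
        (fun z => Defining_th δ (‖g z‖ - 1)) := by
      filter_upwards [hright, hnear] with z hz1 hz2
      show Defining_th δ (G z) = Defining_th δ (‖g z‖ - 1)
      rw [← hG1 (g z) hz2.le, hz1]
    refine ContDiffAt.congr_of_eventuallyEq ?_ heq
    have hnorm : ContDiffAt ℝ ∞ (fun z => ‖g z‖) (cgTube f ν x) := by
      refine ContDiffAt.norm ℝ hgs ?_
      rw [hgx]
      exact hx0
    exact (Defining_th_smooth δ).contDiffAt.comp _ (hnorm.sub contDiffAt_const)
  · rcases hG2 y hy with h1 | h1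
    · have h2 : ∀ᶠ z in nhds y, G z < -(2 * δ / 3) :=
        hG.continuousAt.eventually (gt_mem_nhds (by rw [h1]; linarith))
      refine ContDiffAt.congr_of_eventuallyEq (contDiffAt_const (c := -δ)) ?_
      filter_upwards [h2] with z hz
      have h3 : Defining_th δ (-(-(G z))) = -Defining_th δ (-(G z)) := Defining_th_neg _ _
      rw [neg_neg] at h3
      rw [h3, Defining_th_big hδ (by linarith)]
    · have h2 : ∀ᶠ z in nhds y, 2 * δ / 3 < G z :=
        hG.continuousAt.eventually (lt_mem_nhds (by rw [h1]; linarith))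
      refine ContDiffAt.congr_of_eventuallyEq (contDiffAt_const (c := δ)) ?_
      filter_upwards [h2] with z hz
      exact Defining_th_big hδ hz.le

/-- The defining function.

PROOF.  `δ` from `cg_tube_inj`, `G` from `cg_side`.  Let `θ : ℝ → ℝ` be smooth with `θ u = u` for
`|u| ≤ δ/3`, `θ u = δ` for `u ≥ 2δ/3`, `θ u = -δ` for `u ≤ -2δ/3`, and `θ u > 0` for `u > 0`,
`θ u < 0` for `u < 0` (for instance `χ u * u + (1 - χ u) * δ * sign u` with a smooth bump `χ`, or a
suitable combination of `Real.smoothTransition`).  `F₁ = θ ∘ G`.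
* Smooth at `y = cgTube x`, `|‖x‖ - 1| < δ`: near `y`, `G z = ‖g z‖ - 1` with `g` the smooth local
  inverse of `cgTube` (`ContDiffAt.toOpenPartialHomeomorph`, `ContDiffAt.to_localInverse`), whose
  values near `y` are near `x`, in the annulus.  At any other `y`, `G y = ±δ`, so by continuity
  `|G| > 2δ/3` with constant sign near `y` and `F₁` is constant near `y`.
* `F₁ y = 0 ↔ G y = 0 ↔ y ∈ f '' sphere` (off the open tube `G = ±δ ≠ 0`; in it
  `G (cgTube x) = ‖x‖ - 1 = 0` iff `x` is on the sphere, where `cgTube x = f x`).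
* Regular: at `y = f p`, `u ↦ F₁ (f p + u • ν p) = θ u = u` near `0` (`f p + u • ν p =
  cgTube ((1+u) • p)`), so `fderiv F₁ y (ν p) = 1`.
* Behaviour at infinity: the image of the closed annulus is compact, contained in
  `closedBall 0 R₀`; on `{y | R₀ < ‖y‖}` (connected: the image of `sphere × Ioi R₀` under
  `(p, t) ↦ t • p`, dimension at least 2) the continuous function `G` takes only the values `±δ`,
  so it is constant.  If it is `δ` take `F = F₁`; if it is `-δ` take `F = -F₁`.  Then
  `{F ≤ 0} ⊆ closedBall 0 R₀`. -/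
theorem cg_defining (hdim : 2 ≤ Module.finrank ℝ E) {f ν : E → E} (h : HSphere f ν) :
    ∃ F : E → ℝ, ContDiff ℝ ∞ F ∧ Bornology.IsBounded {x | F x ≤ 0} ∧
      (∀ x, F x = 0 → gradient F x ≠ 0) ∧ {x | F x = 0} = f '' sphere (0 : E) 1 := by
  obtain ⟨δ, hδ, hδ', hinj, hder⟩ := cg_tube_inj h
  obtain ⟨G, hG, hG1, hG2⟩ := cg_side hdim h δ hδ hδ' hinj hder
  set F₁ : E → ℝ := fun y => Defining_th δ (G y) with hF₁
  have hs : ContDiff ℝ ∞ F₁ := Defining_smooth h hδ hδ' hder hG hG1 hG2
  have hzero : ∀ y, F₁ y = 0 ↔ y ∈ f '' sphere (0 : E) 1 := by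
    intro y
    rw [hF₁]
    show Defining_th δ (G y) = 0 ↔ _
    rw [Defining_th_zero hδ]
    constructor
    · intro hy
      have h1 : y ∈ cgTube f ν '' {x | |‖x‖ - 1| < δ} := by
        by_contra h2
        rcases hG2 y h2 with h3 | h3
        · rw [hy] at h3
          linarith
        · rw [hy] at h3
          linarith
      obtain ⟨x, hx, rfl⟩ := h1
      have hx' : |‖x‖ - 1| < δ := hx
      rw [hG1 x hx'.le] at hy
      have hxs : x ∈ sphere (0 : E) 1 := by
        rw [mem_sphere_iff_norm, sub_zero]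
        linarith
      exact ⟨x, hxs, (Defining_tube_sphere h hxs).symm⟩
    · rintro ⟨p, hp, rfl⟩
      rw [← Defining_tube_sphere h hp, hG1 p (by
        rw [Defining_norm_sphere hp, sub_self, abs_zero]; exact hδ.le),
        Defining_norm_sphere hp, sub_self]
  have hreg : ∀ y, F₁ y = 0 → fderiv ℝ F₁ y ≠ 0 := by
    intro y hy
    obtain ⟨p, hp, rfl⟩ := (hzero y).1 hy
    have h1 : HasFDerivAt F₁ (fderiv ℝ F₁ (f p)) (f p + (0 : ℝ) • ν p) := by
      rw [zero_smul, add_zero]
      exact ((hs.differentiable (by simp)) (f p)).hasFDerivAt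
    have h2 : HasDerivAt (fun u : ℝ => f p + u • ν p) (ν p) 0 := by
      have h3 : HasDerivAt (fun u : ℝ => u • ν p) ((1 : ℝ) • ν p) 0 :=
        (hasDerivAt_id (0 : ℝ)).smul_const (ν p)
      rw [one_smul] at h3
      exact h3.const_add (f p)
    have h3 : HasDerivAt (F₁ ∘ (fun u : ℝ => f p + u • ν p)) (fderiv ℝ F₁ (f p) (ν p)) 0 :=
      HasFDerivAt.comp_hasDerivAt (0 : ℝ) h1 h2
    have h4 : (fun u : ℝ => F₁ (f p + u • ν p)) =ᶠ[nhds 0] (fun u : ℝ => u) := by
      have h5 : ∀ᶠ u : ℝ in nhds 0, |u| < δ / 3 := by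
        have h6 : ContinuousAt (fun u : ℝ => |u|) 0 := continuous_abs.continuousAt
        exact h6.eventually (gt_mem_nhds (by show |(0 : ℝ)| < δ / 3; rw [abs_zero]; linarith))
      filter_upwards [h5] with u hu
      have h7 := abs_lt.1 hu
      show Defining_th δ (G (f p + u • ν p)) = u
      rw [← Defining_tube_ray h hp (u := u) (by linarith)]
      have h8 : ‖(1 + u) • p‖ - 1 = u := by
        rw [norm_smul, Defining_norm_sphere hp, mul_one,
          Real.norm_of_nonneg (by linarith : (0 : ℝ) ≤ 1 + u)]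
        ring
      rw [hG1 _ (by rw [h8]; linarith), h8]
      exact Defining_th_small hδ hu.le
    have h5 : HasDerivAt (fun u : ℝ => u) (fderiv ℝ F₁ (f p) (ν p)) 0 :=
      h3.congr_of_eventuallyEq h4.symm
    have h6 := h5.unique (hasDerivAt_id (0 : ℝ))
    intro h7
    rw [h7] at h6
    simp at h6
  -- the behaviour at infinity
  have hcomp : IsCompact (cgTube f ν '' {x | |‖x‖ - 1| ≤ δ}) := by
    have h1 : IsCompact {x : E | |‖x‖ - 1| ≤ δ} := by
      refine (isCompact_closedBall (0 : E) (1 + δ)).of_isClosed_subset ?_ ?_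
      · exact isClosed_le (by fun_prop) continuous_const
      · intro x hx
        have hx' : |‖x‖ - 1| ≤ δ := hx
        rw [mem_closedBall_zero_iff]
        linarith [(abs_le.1 hx').2]
    refine h1.image_of_continuousOn ?_
    refine (cg_tube_deriv h).1.continuousOn.mono ?_
    intro x hx
    exact Defining_ann_ne hδ' hx
  obtain ⟨R₀, hR₀⟩ := hcomp.isBounded.subset_closedBall (0 : E)
  set R : ℝ := max R₀ 0 with hR
  have hR0 : 0 ≤ R := le_max_right _ _
  have hval : ∀ y : E, R < ‖y‖ → G y = -δ ∨ G y = δ := by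
    intro y hy
    apply hG2
    rintro ⟨x, hx, rfl⟩
    have hx' : |‖x‖ - 1| < δ := hx
    have h1 := hR₀ ⟨x, hx'.le, rfl⟩
    rw [mem_closedBall_zero_iff] at h1
    have h2 : R₀ ≤ R := le_max_left _ _
    linarith
  have hconst : (∀ y : E, R < ‖y‖ → G y = -δ) ∨ (∀ y : E, R < ‖y‖ → G y = δ) := by
    by_cases hex : ∃ a : E, R < ‖a‖ ∧ G a = -δ
    · left
      obtain ⟨a, ha, hGa⟩ := hex
      intro b hb
      refine (hval b hb).resolve_right fun hGb => ?_
      have h1 := (Defining_conn hdim hR0).intermediate_value ha hb hG.continuousOn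
      have h2 : (0 : ℝ) ∈ Icc (G a) (G b) := by
        rw [hGa, hGb]
        constructor <;> linarith
      obtain ⟨c, hc, hGc⟩ := h1 h2
      rcases hval c hc with h3 | h3
      · rw [hGc] at h3
        linarith
      · rw [hGc] at h3
        linarith
    · right
      intro b hb
      refine (hval b hb).resolve_left fun hGb => hex ⟨b, hb, hGb⟩
  have hgrad : ∀ (F : E → ℝ) (y : E), fderiv ℝ F y ≠ 0 → gradient F y ≠ 0 := by
    intro F y h1 h2
    apply h1
    unfold gradient at h2
    exact (LinearIsometryEquiv.map_eq_zero_iff _).1 h2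
  rcases hconst with hc | hc
  · refine ⟨fun y => -F₁ y, hs.neg, ?_, ?_, ?_⟩
    · refine (isBounded_closedBall (x := (0 : E)) (r := R)).subset ?_
      intro y hy
      rw [mem_closedBall_zero_iff]
      by_contra h1
      push Not at h1
      have h2 : -F₁ y ≤ 0 := hy
      have h3 : F₁ y = -δ := by
        show Defining_th δ (G y) = -δ
        rw [hc y h1, Defining_th_neg, Defining_th_big hδ (by linarith)]
      rw [h3] at h2
      linarith
    · intro y hy
      apply hgrad
      have h1 : fderiv ℝ (fun y => -F₁ y) y = -fderiv ℝ F₁ y := fderiv_fun_neg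
      rw [h1, neg_ne_zero]
      exact hreg y (neg_eq_zero.1 hy)
    · ext y
      rw [← hzero y]
      exact neg_eq_zero
  · refine ⟨F₁, hs, ?_, fun y hy => hgrad _ _ (hreg y hy), ?_⟩
    · refine (isBounded_closedBall (x := (0 : E)) (r := R)).subset ?_
      intro y hy
      rw [mem_closedBall_zero_iff]
      by_contra h1
      push Not at h1
      have h2 : F₁ y ≤ 0 := hy
      have h3 : F₁ y = δ := by
        show Defining_th δ (G y) = δ
        rw [hc y h1, Defining_th_big hδ (by linarith)]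
      rw [h3] at h2
      linarith
    · ext y
      exact hzero y

end Pool.Schoen
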