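import Mathlib
import Pool.Agent.H.MP_6c077c_gt.CG.Frame

/-! Conformal gap theorem: the second derivative of a defining function. -/

set_option autoImplicit false

namespace Pool.Schoen

open scoped ContDiff RealInnerProductSpace
open Metric Set

variable {E : Type*} [NormedAddCommGroup E] [InnerProductSpace ℝ E] [FiniteDimensional ℝ E]

theorem Second_grad (F : E → ℝ) (y w : E) : ⟪gradient F y, w⟫ = fderiv ℝ F y w := by
  unfold gradient
  exact InnerProductSpace.toDual_symm_apply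

theorem Second_ne {p : E} (hp : p ∈ sphere (0 : E) 1) : p ≠ 0 := by
  rintro rfl
  rw [mem_sphere_iff_norm, sub_zero, norm_zero] at hp
  exact zero_ne_one hp

theorem Second_proj {x : E} (hx : x ≠ 0) : ‖x‖⁻¹ • x ∈ sphere (0 : E) 1 := by
  rw [mem_sphere_iff_norm, sub_zero, norm_smul, norm_inv, norm_norm,
    inv_mul_cancel₀ (norm_ne_zero_iff.2 hx)]

theorem Second_diff {g : E → E} (hg : ContDiffOn ℝ ∞ g {0}ᶜ) {x : E} (hx : x ≠ 0) :
    HasFDerivAt g (fderiv ℝ g x) x := by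
  have h1 : ContDiffAt ℝ ∞ g x := hg.contDiffAt (isOpen_compl_singleton.mem_nhds hx)
  exact (h1.differentiableAt (by simp)).hasFDerivAt

/-- the derivative of `F` at the points of the hypersurface vanishes on tangent vectors -/
theorem Second_tan {f ν : E → E} (h : HSphere f ν) (F : E → ℝ) (hF : ContDiff ℝ ∞ F)
    (hF0 : ∀ p ∈ sphere (0 : E) 1, F (f p) = 0) {x : E} (hx : x ≠ 0) (u : E) :
    fderiv ℝ F (f x) (fderiv ℝ f x u) = 0 := by
  have h1 : HasFDerivAt (fun y => F (f y)) ((fderiv ℝ F (f x)).comp (fderiv ℝ f x)) x :=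
    ((hF.differentiable (by simp)) (f x)).hasFDerivAt.comp x (Second_diff h.sf hx)
  have h2 : (fun _ : E => (0 : ℝ)) =ᶠ[nhds x] (fun y => F (f y)) := by
    filter_upwards [isOpen_compl_singleton.mem_nhds hx] with y hy
    have hy' : y ≠ 0 := hy
    rw [← h.hf ‖y‖⁻¹ (inv_pos.2 (norm_pos_iff.2 hy')) y hy']
    exact (hF0 _ (Second_proj hy')).symm
  have h3 : HasFDerivAt (fun _ : E => (0 : ℝ)) ((fderiv ℝ F (f x)).comp (fderiv ℝ f x)) x :=
    h1.congr_of_eventuallyEq h2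
  have h4 := h3.unique (hasFDerivAt_const (0 : ℝ) x)
  have h5 := congrArg (fun A : E →L[ℝ] ℝ => A u) h4
  simpa using h5

theorem Second_sphere {f ν : E → E} (h : HSphere f ν) (F : E → ℝ) (hF : ContDiff ℝ ∞ F)
    (hF0 : ∀ p ∈ sphere (0 : E) 1, F (f p) = 0) {p : E} (hp : p ∈ sphere (0 : E) 1) (w : E) :
    fderiv ℝ F (f p) w = fderiv ℝ F (f p) (ν p) * ⟪w, ν p⟫ := by
  obtain ⟨L, hL⟩ := cg_L_equiv h p hp
  obtain ⟨u, rfl⟩ := L.surjective w
  have h1 : (L u : E) = fderiv ℝ f p u + ⟪p, u⟫ • ν p := by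
    have h2 : (L : E →L[ℝ] E) u = cgL f ν p u := by rw [hL]
    rw [ContinuousLinearEquiv.coe_coe] at h2
    rw [h2]
    rfl
  have h3 : ⟪ν p, ν p⟫ = 1 := by
    rw [real_inner_self_eq_norm_sq, h.unit p hp, one_pow]
  rw [h1, map_add, map_smul, Second_tan h F hF hF0 (Second_ne hp), inner_add_left, h.orth p hp,
    real_inner_smul_left, h3, smul_eq_mul]
  ring

theorem Second_all {f ν : E → E} (h : HSphere f ν) (F : E → ℝ) (hF : ContDiff ℝ ∞ F)
    (hF0 : ∀ p ∈ sphere (0 : E) 1, F (f p) = 0) {x : E} (hx : x ≠ 0) (w : E) :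
    fderiv ℝ F (f x) w = fderiv ℝ F (f x) (ν x) * ⟪w, ν x⟫ := by
  have h1 := Second_sphere h F hF hF0 (Second_proj hx) w
  have hn : 0 < ‖x‖⁻¹ := inv_pos.2 (norm_pos_iff.2 hx)
  rw [h.hf _ hn x hx, h.hν _ hn x hx] at h1
  exact h1

theorem Second_der {f ν : E → E} (h : HSphere f ν) (F : E → ℝ) (hF : ContDiff ℝ ∞ F)
    (hF0 : ∀ p ∈ sphere (0 : E) 1, F (f p) = 0) {p : E} (hp : p ∈ sphere (0 : E) 1) {w : E}
    (hw : ⟪w, ν p⟫ = 0) (u : E) :
    fderiv ℝ (fderiv ℝ F) (f p) (fderiv ℝ f p u) w =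
      fderiv ℝ F (f p) (ν p) * ⟪w, fderiv ℝ ν p u⟫ := by
  have hp0 := Second_ne hp
  have hf := Second_diff h.sf hp0
  have hν := Second_diff h.sν hp0
  have hF' : Differentiable ℝ (fderiv ℝ F) :=
    (hF.fderiv_right (m := ∞) (by simp)).differentiable (by simp)
  have h1 : HasFDerivAt (fun x => fderiv ℝ F (f x))
      ((fderiv ℝ (fderiv ℝ F) (f p)).comp (fderiv ℝ f p)) p :=
    (hF' (f p)).hasFDerivAt.comp p hf
  have h2 : HasFDerivAt (fun x => fderiv ℝ F (f x) w)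
      (((fderiv ℝ (fderiv ℝ F) (f p)).comp (fderiv ℝ f p)).flip w) p := by
    have := h1.clm_apply (hasFDerivAt_const w p)
    simpa using this
  obtain ⟨l', hl'⟩ : ∃ l' : E →L[ℝ] ℝ, HasFDerivAt (fun x => fderiv ℝ F (f x) (ν x)) l' p :=
    ⟨_, h1.clm_apply hν⟩
  have h3 : HasFDerivAt (fun x => ⟪w, ν x⟫) ((innerSL ℝ w).comp (fderiv ℝ ν p)) p :=
    (innerSL ℝ w).hasFDerivAt.comp p hν
  have h4 := hl'.mul h3
  have h5 : (fun x => fderiv ℝ F (f x) w) =ᶠ[nhds p]
      (fun x => fderiv ℝ F (f x) (ν x) * ⟪w, ν x⟫) := by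
    filter_upwards [isOpen_compl_singleton.mem_nhds hp0] with y hy
    exact Second_all h F hF hF0 hy w
  have h6 := (h4.congr_of_eventuallyEq h5).unique h2
  have h7 := congrArg (fun A : E →L[ℝ] ℝ => A u) h6
  simp only [hw, zero_smul, add_zero] at h7
  exact h7.symm

/-- The second derivative of a defining function in terms of the shape operator.

PROOF.  `F (f x) = 0` for all `x ≠ 0` (`f x = f (x/‖x‖)`), so `⟪gradient F (f x), fderiv f x u⟫ = 0`
for all `x ≠ 0`, `u`.  Put `lam x = ⟪gradient F (f x), ν x⟫`.  For `x ≠ 0` we have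
`gradient F (f x) = lam x • ν x`: for `x` on the sphere every vector is `cgL f ν x u` and
`⟪gradient F (f x), cgL u⟫ = ⟪x, u⟫ * lam x = ⟪lam x • ν x, cgL u⟫`; for other `x ≠ 0` both sides
are constant on rays.  Differentiate this identity at `p` in the direction `u` (all functions are
smooth near `p`) and pair with `w`, `⟪w, ν p⟫ = 0`:
`fderiv (fderiv F) (f p) (fderiv f p u) w = lam p * ⟪fderiv ν p u, w⟫` (the derivative of
`x ↦ ⟪gradient F (f x), w⟫ = fderiv F (f x) w` is `fderiv (fderiv F) (f p) (fderiv f p u) w`).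
If `⟪w, ν p⟫ = 0`, write `w = cgL f ν p u`; pairing with `ν p` gives `⟪p, u⟫ = 0`, so
`w = fderiv f p u`, and `fderiv ν p u = cgS f ν p w` by `cg_S_apply`. -/
theorem cg_second {f ν : E → E} (h : HSphere f ν) (F : E → ℝ) (hF : ContDiff ℝ ∞ F)
    (hF0 : ∀ p ∈ sphere (0 : E) 1, F (f p) = 0) (p : E) (hp : p ∈ sphere (0 : E) 1) :
    gradient F (f p) = ⟪gradient F (f p), ν p⟫ • ν p ∧
      ∀ w : E, ⟪w, ν p⟫ = 0 → fderiv ℝ (fderiv ℝ F) (f p) w w =
        ⟪gradient F (f p), ν p⟫ * ⟪cgS f ν p w, w⟫ := by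
  constructor
  · refine ext_inner_right ℝ fun w => ?_
    rw [real_inner_smul_left, Second_grad, Second_grad, Second_sphere h F hF hF0 hp w,
      real_inner_comm w (ν p)]
  · intro w hw
    obtain ⟨L, hL⟩ := cg_L_equiv h p hp
    obtain ⟨u, rfl⟩ := L.surjective w
    have h0 : (L u : E) = cgL f ν p u := by
      have h2 : (L : E →L[ℝ] E) u = cgL f ν p u := by rw [hL]
      rw [ContinuousLinearEquiv.coe_coe] at h2
      exact h2
    have h1 : (L u : E) = fderiv ℝ f p u + ⟪p, u⟫ • ν p := h0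
    have h3 : ⟪ν p, ν p⟫ = 1 := by
      rw [real_inner_self_eq_norm_sq, h.unit p hp, one_pow]
    have h4 : ⟪p, u⟫ = 0 := by
      rw [h1, inner_add_left, h.orth p hp, real_inner_smul_left, h3, mul_one, zero_add] at hw
      exact hw
    have h5 : (L u : E) = fderiv ℝ f p u := by rw [h1, h4, zero_smul, add_zero]
    have h6 : cgS f ν p (L u) = fderiv ℝ ν p u := by rw [h0, cg_S_apply h p hp]
    have h7 := Second_der h F hF hF0 hp hw u
    rw [← h5] at h7
    rw [h7, Second_grad, h6, real_inner_comm]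

end Pool.Schoen
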