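import Mathlib

/-! Conformal gap theorem: polar coordinates. -/

set_option autoImplicit false

namespace Pool.Schoen

open scoped ContDiff RealInnerProductSpace
open Metric Set MeasureTheory

theorem Polar_aux {E : Type} [NormedAddCommGroup E] [NormedSpace ℝ E] [MeasurableSpace E]
    [BorelSpace E] [FiniteDimensional ℝ E] (μ : Measure E) [μ.IsAddHaarMeasure] (n : ℕ)
    (hdim : Module.finrank ℝ E - 1 = n) (g : E → ENNReal)
    (hg : Measurable fun p : sphere (0 : E) 1 => g p) :
    ∫⁻ x in ball (0 : E) 1 \ {0}, g (‖x‖⁻¹ • x) ∂μ =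
      ((n : ENNReal) + 1)⁻¹ * ∫⁻ p : sphere (0 : E) 1, g p ∂(μ.toSphere) := by
  have hmp := μ.measurePreserving_homeomorphUnitSphereProd
  rw [hdim] at hmp
  set ν := Measure.volumeIoiPow n with hν
  set J : Set (Ioi (0 : ℝ)) := Iio ⟨1, mem_Ioi.2 one_pos⟩ with hJ
  have hν1 : ν J = ((n : ENNReal) + 1)⁻¹ := by
    rw [hν, hJ, Measure.volumeIoiPow_apply_Iio]
    simp only [one_pow, one_div]
    rw [ENNReal.ofReal_inv_of_pos (by positivity)]
    congr 1
    rw [ENNReal.ofReal_add (by positivity) (by positivity)]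
    simp
  set H : (sphere (0 : E) 1) × (Ioi (0 : ℝ)) → ENNReal :=
    fun z => g z.1 * J.indicator (fun _ => (1 : ENNReal)) z.2 with hH
  have h1 : ∫⁻ x in ball (0 : E) 1 \ {0}, g (‖x‖⁻¹ • x) ∂μ =
      ∫⁻ x : ({0}ᶜ : Set E), H (homeomorphUnitSphereProd E x)
        ∂(μ.comap (Subtype.val : ({0}ᶜ : Set E) → E)) := by
    have h2 : ball (0 : E) 1 \ {0} = ball (0 : E) 1 ∩ {0}ᶜ := rfl
    rw [h2, ← setLIntegral_indicator measurableSet_ball,
      ← lintegral_subtype_comap (measurableSet_singleton (0 : E)).compl]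
    refine lintegral_congr fun x => ?_
    simp only [hH, homeomorphUnitSphereProd_apply_fst_coe, hJ]
    by_cases hx : ‖(x : E)‖ < 1
    · rw [Set.indicator_of_mem (by simpa using hx), Set.indicator_of_mem, mul_one]
      show (homeomorphUnitSphereProd E x).2 < _
      rw [← Subtype.coe_lt_coe]
      simpa using hx
    · rw [Set.indicator_of_notMem (by simpa using hx), Set.indicator_of_notMem, mul_zero]
      intro hcon
      apply hx
      have hcon' : (homeomorphUnitSphereProd E x).2 < (⟨1, mem_Ioi.2 one_pos⟩ : Ioi (0 : ℝ)) := hcon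
      rw [← Subtype.coe_lt_coe] at hcon'
      simpa using hcon'
  rw [h1, hmp.lintegral_comp_emb (homeomorphUnitSphereProd E).measurableEmbedding]
  simp only [hH]
  rw [lintegral_prod_mul (f := fun p : sphere (0 : E) 1 => g p)
    (g := J.indicator (fun _ => (1 : ENNReal))) hg.aemeasurable
    (measurable_const.indicator measurableSet_Iio).aemeasurable]
  rw [lintegral_indicator measurableSet_Iio, setLIntegral_const, one_mul, hν1, mul_comm]

/-- Integration in polar coordinates of a function constant on rays over the punctured unit ball.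

PROOF.  Both sides are linear in `g`; it is enough to compare the measure
`(volume.restrict (ball 0 1 \ {0})).map (x ↦ x/‖x‖)` (as a measure on the sphere) with
`(n+1)⁻¹ • volume.toSphere`: by definition (`Measure.toSphere_apply'`)
`volume.toSphere s = (n+1) * volume (Ioo 0 1 • s)`.  Then use `lintegral_map`.  Alternatively use
`Measure.measurePreserving_homeomorphUnitSphereProd` and Tonelli with `∫_0^1 r^n dr = 1/(n+1)`. -/
theorem cg_polar (n : ℕ) (g : EuclideanSpace ℝ (Fin (n + 1)) → ENNReal)
    (hg : Measurable fun p : sphere (0 : EuclideanSpace ℝ (Fin (n + 1))) 1 => g p) :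
    ∫⁻ x in ball (0 : EuclideanSpace ℝ (Fin (n + 1))) 1 \ {0}, g (‖x‖⁻¹ • x) =
      ((n : ENNReal) + 1)⁻¹ * ∫⁻ p : sphere (0 : EuclideanSpace ℝ (Fin (n + 1))) 1, g p
        ∂((volume : Measure (EuclideanSpace ℝ (Fin (n + 1)))).toSphere) :=
  Polar_aux volume n (by simp) g hg

end Pool.Schoen
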