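import Mathlib
import Pool.Agent.H.MP_6c077c_gt.CG.Frame
import Pool.Agent.H.MP_6c077c_gt.CG.Polar

/-! Conformal gap theorem: a normal direction avoiding the image of a set of small curvature. -/

set_option autoImplicit false

namespace Pool.Schoen

open scoped ContDiff RealInnerProductSpace
open Metric Set MeasureTheory

/-- The derivative of the norm. -/
theorem cgSelect_norm {E : Type*} [NormedAddCommGroup E] [InnerProductSpace ℝ E] (x : E)
    (hx : x ≠ 0) : HasFDerivAt (fun y : E => ‖y‖) (innerSL ℝ (‖x‖⁻¹ • x)) x := by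
  have h1 : HasFDerivAt (fun y : E => ‖y‖ ^ 2) (2 • innerSL ℝ x) x :=
    (hasStrictFDerivAt_norm_sq x).hasFDerivAt
  have hn : ‖x‖ ≠ 0 := norm_ne_zero_iff.2 hx
  have h2 := h1.sqrt (pow_ne_zero 2 hn)
  have e1 : (fun y : E => Real.sqrt (‖y‖ ^ 2)) = fun y => ‖y‖ := by
    funext y
    exact Real.sqrt_sq (norm_nonneg y)
  rw [e1] at h2
  convert h2 using 1
  rw [Real.sqrt_sq (norm_nonneg x)]
  ext v
  simp only [innerSL_apply_apply, inner_smul_left, smul_apply, nsmul_eq_mul,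
    smul_eq_mul, conj_trivial]
  field_simp
  norm_num

theorem cgSelect_deriv {E : Type*} [NormedAddCommGroup E] [InnerProductSpace ℝ E]
    [FiniteDimensional ℝ E] (ν : E → E)
    (sν : ContDiffOn ℝ ∞ ν {0}ᶜ) (hν : ∀ t : ℝ, 0 < t → ∀ x, x ≠ 0 → ν (t • x) = ν x)
    (x : E) (hx : x ≠ 0) :
    HasFDerivAt (fun y => ‖y‖ • ν y) (fderiv ℝ ν (‖x‖⁻¹ • x) +
      (innerSL ℝ (‖x‖⁻¹ • x)).smulRight (ν (‖x‖⁻¹ • x))) x := by
  have hn : 0 < ‖x‖ := norm_pos_iff.2 hx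
  have h1 : HasFDerivAt ν (fderiv ℝ ν x) x := by
    have h2 : ContDiffAt ℝ ∞ ν x := sν.contDiffAt (isOpen_compl_singleton.mem_nhds hx)
    exact (h2.differentiableAt (by simp)).hasFDerivAt
  have h3 := (cgSelect_norm x hx).smul h1
  have hp : ‖x‖⁻¹ • x ≠ 0 := smul_ne_zero (inv_ne_zero hn.ne') hx
  have e1 : ‖x‖ • ‖x‖⁻¹ • x = x := by rw [smul_smul, mul_inv_cancel₀ hn.ne', one_smul]
  have e2 := cg_fderiv_smul ν sν hν ‖x‖ hn (‖x‖⁻¹ • x) hp
  rw [e1] at e2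
  have e3 : ν (‖x‖⁻¹ • x) = ν x := hν _ (inv_pos.2 hn) x hx
  rw [← e2, e3]
  exact h3

/-- The area formula for the Gauss map.

PROOF.  Put `N x = ‖x‖ • ν x` and `S = {x | 0 < ‖x‖ ∧ ‖x‖ < 1 ∧ ‖x‖⁻¹ • x ∈ B}`, measurable.  For
`x ≠ 0`, `N` has derivative `D x = ‖x‖ • fderiv ν x + (innerSL (‖x‖⁻¹ • x)).smulRight (ν x)`, which
by `cg_fderiv_smul` equals `fderiv ν p + (innerSL p).smulRight (ν p)` with `p = ‖x‖⁻¹ • x`.  By
`addHaar_image_le_lintegral_abs_det_fderiv`,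
`volume (N '' S) ≤ ∫⁻ x in S, ENNReal.ofReal |(D x).det| ≤ ∫⁻ x in ball 0 1 \ {0},
ENNReal.ofReal (φ (‖x‖⁻¹ • x))` (by `hle` on `S`), which is
`(n+1)⁻¹ * ∫⁻ φ` by `cg_polar`, `= (n+1)⁻¹ * ENNReal.ofReal (∫ φ)` (`φ` is continuous on the compact
sphere, so integrable: `ofReal_integral_eq_lintegral_ofReal`) `< (n+1)⁻¹ * volume.toSphere univ =
volume (ball 0 1)` (`Measure.toSphere_apply_univ`).  If every unit vector were in `ν '' B`, then
`N '' S ⊇ ball 0 1 \ {0}` (`y = ‖y‖ • u`, `u = ν p`, `y = N (‖y‖ • p)`), so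
`volume (N '' S) ≥ volume (ball 0 1)`, a contradiction. -/
theorem cg_select (n : ℕ) (ν : EuclideanSpace ℝ (Fin (n + 1)) → EuclideanSpace ℝ (Fin (n + 1)))
    (sν : ContDiffOn ℝ ∞ ν {0}ᶜ) (hν : ∀ t : ℝ, 0 < t → ∀ x, x ≠ 0 → ν (t • x) = ν x)
    (B : Set (EuclideanSpace ℝ (Fin (n + 1)))) (hB : IsClosed B) (hBs : B ⊆ sphere 0 1)
    (φ : EuclideanSpace ℝ (Fin (n + 1)) → ℝ) (hφ : ContinuousOn φ (sphere 0 1))
    (hφ0 : ∀ p ∈ sphere (0 : EuclideanSpace ℝ (Fin (n + 1))) 1, 0 ≤ φ p)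
    (hle : ∀ p ∈ B, |(fderiv ℝ ν p + (innerSL ℝ p).smulRight (ν p)).det| ≤ φ p)
    (hint : ∫ p : sphere (0 : EuclideanSpace ℝ (Fin (n + 1))) 1, φ p
        ∂((volume : Measure (EuclideanSpace ℝ (Fin (n + 1)))).toSphere) <
      ((volume : Measure (EuclideanSpace ℝ (Fin (n + 1)))).toSphere univ).toReal) :
    ∃ u : EuclideanSpace ℝ (Fin (n + 1)), ‖u‖ = 1 ∧ ∀ p ∈ B, ν p ≠ u := by
  by_contra hcon
  push Not at hcon
  let N : (EuclideanSpace ℝ (Fin (n + 1))) → (EuclideanSpace ℝ (Fin (n + 1))) := fun x => ‖x‖ • ν x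
  let S : Set (EuclideanSpace ℝ (Fin (n + 1))) := {x | 0 < ‖x‖ ∧ ‖x‖ < 1 ∧ ‖x‖⁻¹ • x ∈ B}
  have hSm : MeasurableSet S := by
    have m1 : Measurable (fun x : (EuclideanSpace ℝ (Fin (n + 1))) => ‖x‖⁻¹ • x) := (measurable_norm.inv).smul measurable_id
    exact (measurableSet_lt measurable_const measurable_norm).inter
      ((measurableSet_lt measurable_norm measurable_const).inter (m1 hB.measurableSet))
  have hN : ∀ x ∈ S, HasFDerivWithinAt N (fderiv ℝ ν (‖x‖⁻¹ • x) +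
      (innerSL ℝ (‖x‖⁻¹ • x)).smulRight (ν (‖x‖⁻¹ • x))) S x := by
    intro x hx
    exact (cgSelect_deriv ν sν hν x (norm_pos_iff.1 hx.1)).hasFDerivWithinAt
  have h1 := addHaar_image_le_lintegral_abs_det_fderiv (volume : Measure (EuclideanSpace ℝ (Fin (n + 1)))) hSm hN
  have h2 : ∫⁻ x in S, ENNReal.ofReal |(fderiv ℝ ν (‖x‖⁻¹ • x) +
      (innerSL ℝ (‖x‖⁻¹ • x)).smulRight (ν (‖x‖⁻¹ • x))).det| ≤
      ∫⁻ x in S, ENNReal.ofReal (φ (‖x‖⁻¹ • x)) := by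
    refine setLIntegral_mono' hSm ?_
    intro x hx
    exact ENNReal.ofReal_le_ofReal (hle _ hx.2.2)
  have hSsub : S ⊆ ball (0 : (EuclideanSpace ℝ (Fin (n + 1)))) 1 \ {0} := by
    intro x hx
    refine ⟨?_, ?_⟩
    · rw [mem_ball_zero_iff]; exact hx.2.1
    · rw [Set.mem_singleton_iff]; exact norm_pos_iff.1 hx.1
  have h3 : ∫⁻ x in S, ENNReal.ofReal (φ (‖x‖⁻¹ • x)) ≤
      ∫⁻ x in ball (0 : (EuclideanSpace ℝ (Fin (n + 1)))) 1 \ {0}, ENNReal.ofReal (φ (‖x‖⁻¹ • x)) :=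
    lintegral_mono_set hSsub
  have hcont : Continuous (fun p : sphere (0 : (EuclideanSpace ℝ (Fin (n + 1)))) 1 => φ p) := by
    exact continuousOn_iff_continuous_restrict.1 hφ
  have h4 := cg_polar n (fun x => ENNReal.ofReal (φ x)) (hcont.measurable.ennreal_ofReal)
  have hint' : Integrable (fun p : sphere (0 : (EuclideanSpace ℝ (Fin (n + 1)))) 1 => φ p) (volume : Measure (EuclideanSpace ℝ (Fin (n + 1)))).toSphere := by
    have := (hcont.continuousOn (s := Set.univ)).integrableOn_compact (isCompact_univ)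
      (μ := (volume : Measure (EuclideanSpace ℝ (Fin (n + 1)))).toSphere)
    rwa [integrableOn_univ] at this
  have h5 := ofReal_integral_eq_lintegral_ofReal hint'
    (Filter.Eventually.of_forall (fun p => hφ0 p p.2))
  have hpos : 0 ≤ ∫ p : sphere (0 : (EuclideanSpace ℝ (Fin (n + 1)))) 1, φ p ∂(volume : Measure (EuclideanSpace ℝ (Fin (n + 1)))).toSphere :=
    integral_nonneg (fun p => hφ0 p p.2)
  have h6 : ENNReal.ofReal (∫ p : sphere (0 : (EuclideanSpace ℝ (Fin (n + 1)))) 1, φ p ∂(volume : Measure (EuclideanSpace ℝ (Fin (n + 1)))).toSphere) <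
      (volume : Measure (EuclideanSpace ℝ (Fin (n + 1)))).toSphere univ :=
    (ENNReal.ofReal_lt_iff_lt_toReal hpos (measure_ne_top _ _)).2 hint
  rw [Measure.toSphere_apply_univ] at h6
  have hfr : (Module.finrank ℝ (EuclideanSpace ℝ (Fin (n + 1))) : ENNReal) = (n : ENNReal) + 1 := by
    rw [finrank_euclideanSpace_fin]
    push_cast
    rfl
  rw [hfr] at h6
  have h7 : ((n : ENNReal) + 1)⁻¹ * ENNReal.ofReal
      (∫ p : sphere (0 : (EuclideanSpace ℝ (Fin (n + 1)))) 1, φ p ∂(volume : Measure (EuclideanSpace ℝ (Fin (n + 1)))).toSphere) < volume (ball (0 : (EuclideanSpace ℝ (Fin (n + 1)))) 1) := by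
    have a1 : ((n : ENNReal) + 1) ≠ 0 := by simp
    have a2 : ((n : ENNReal) + 1) ≠ ⊤ := by finiteness
    calc _ < ((n : ENNReal) + 1)⁻¹ * (((n : ENNReal) + 1) * volume (ball (0 : (EuclideanSpace ℝ (Fin (n + 1)))) 1)) :=
          (ENNReal.mul_lt_mul_iff_right (ENNReal.inv_ne_zero.2 a2) (ENNReal.inv_ne_top.2 a1)).2 h6
      _ = _ := by rw [← mul_assoc, ENNReal.inv_mul_cancel a1 a2, one_mul]
  have hsub : ball (0 : (EuclideanSpace ℝ (Fin (n + 1)))) 1 \ {0} ⊆ N '' S := by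
    rintro y ⟨hy1, hy0⟩
    rw [mem_ball_zero_iff] at hy1
    rw [Set.mem_singleton_iff] at hy0
    have hn : 0 < ‖y‖ := norm_pos_iff.2 hy0
    obtain ⟨p, hpB, hp⟩ := hcon (‖y‖⁻¹ • y) (by
      rw [norm_smul, norm_inv, norm_norm, inv_mul_cancel₀ hn.ne'])
    have hp1 : ‖p‖ = 1 := by simpa using hBs hpB
    have hp0 : p ≠ 0 := by
      intro h
      rw [h, norm_zero] at hp1
      exact zero_ne_one hp1
    have hx : ‖‖y‖ • p‖ = ‖y‖ := by rw [norm_smul, norm_norm, hp1, mul_one]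
    refine ⟨‖y‖ • p, ⟨?_, ?_, ?_⟩, ?_⟩
    · rw [hx]; exact hn
    · rw [hx]; exact hy1
    · rw [hx, smul_smul, inv_mul_cancel₀ hn.ne', one_smul]; exact hpB
    · show ‖‖y‖ • p‖ • ν (‖y‖ • p) = y
      rw [hx, hν _ hn p hp0, hp, smul_smul, mul_inv_cancel₀ hn.ne', one_smul]
  have h8 : volume (ball (0 : (EuclideanSpace ℝ (Fin (n + 1)))) 1) ≤ volume (N '' S) := by
    refine le_trans (le_of_eq ?_) (measure_mono hsub)
    rw [measure_diff_null (measure_singleton _)]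
  have h9 := (h8.trans h1).trans (h2.trans (h3.trans (le_of_eq h4)))
  rw [← h5] at h9
  exact absurd h9 (not_le.2 h7)

end Pool.Schoen
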