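import Mathlib
import Pool.Agent.H.MP_6c077c_gt.CG.Crit
import Pool.Agent.H.MP_6c077c_gt.CG.Defining
import Pool.Agent.H.MP_6c077c_gt.CG.Second
import Pool.Agent.H.MP_6c077c_gt.CG.Cont
import Pool.Agent.H.MP_6c077c_gt.CG.Oper
import Pool.Agent.H.MP_6c077c_gt.CG.Select

/-! Conformal gap theorem: main step. -/

set_option autoImplicit false

namespace Pool.Schoen

open scoped ContDiff RealInnerProductSpace
open Metric Set MeasureTheory

section cont

variable {E : Type*} [NormedAddCommGroup E] [InnerProductSpace ℝ E] [FiniteDimensional ℝ E]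

omit [FiniteDimensional ℝ E] in
private theorem main_cont_det : Continuous fun A : E →L[ℝ] E => A.det := by
  exact ContinuousLinearMap.continuous_det

private theorem main_cont_trace : Continuous fun A : E →L[ℝ] E => LinearMap.trace ℝ E (A : E →ₗ[ℝ] E) := by
  have h : Continuous (fun A : E →L[ℝ] E => ((LinearMap.trace ℝ E).comp
      (ContinuousLinearMap.coeLM ℝ : (E →L[ℝ] E) →ₗ[ℝ] (E →ₗ[ℝ] E))) A) :=
    LinearMap.continuous_of_finiteDimensional _
  exact h

private theorem main_cont_T (n : ℕ) : Continuous fun S : E →L[ℝ] E => cgT n S := by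
  unfold cgT
  have h1 : Continuous fun S : E →L[ℝ] E => LinearMap.trace ℝ E ((S : E →ₗ[ℝ] E) ∘ₗ (S : E →ₗ[ℝ] E)) :=
    main_cont_trace.comp (continuous_id.clm_comp continuous_id)
  have h2 := main_cont_trace (E := E)
  exact Real.continuous_sqrt.comp (h1.sub ((h2.pow 2).div_const _))

/-- the sign of the normal component of the gradient. -/
private theorem main_sign (hdim : 2 ≤ Module.finrank ℝ E) {f ν : E → E} (h : HSphere f ν)
    (F : E → ℝ) (hF : ContDiff ℝ ∞ F) (hreg : ∀ x, F x = 0 → gradient F x ≠ 0)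
    (hF0 : ∀ p ∈ sphere (0 : E) 1, F (f p) = 0) :
    ∃ σ : ℝ, (σ = 1 ∨ σ = -1) ∧ ∀ p ∈ sphere (0 : E) 1, 0 < σ * ⟪gradient F (f p), ν p⟫ := by
  have hgc : Continuous (gradient F) := by
    have h1 : ContDiff ℝ ∞ (fderiv ℝ F) := hF.fderiv_right (by simp)
    exact (InnerProductSpace.toDual ℝ E).symm.continuous.comp h1.continuous
  have hsub : sphere (0 : E) 1 ⊆ {0}ᶜ := by
    intro x hx hx0
    rw [mem_singleton_iff.1 hx0] at hx
    simp at hx
  have hc : ContinuousOn (fun p => ⟪gradient F (f p), ν p⟫) (sphere (0 : E) 1) :=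
    ((hgc.comp_continuousOn (h.sf.continuousOn.mono hsub)).inner (h.sν.continuousOn.mono hsub))
  have hne : ∀ p ∈ sphere (0 : E) 1, ⟪gradient F (f p), ν p⟫ ≠ 0 := by
    intro p hp h0
    have h1 := (cg_second h F hF hF0 p hp).1
    rw [h0, zero_smul] at h1
    exact hreg _ (hF0 p hp) h1
  have hrank : 1 < Module.rank ℝ E := by
    rw [← Module.finrank_eq_rank]
    exact_mod_cast (by omega : 1 < Module.finrank ℝ E)
  have hconn : IsConnected (sphere (0 : E) 1) := isConnected_sphere hrank 0 zero_le_one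
  obtain ⟨p₀, hp₀⟩ := hconn.nonempty
  have key : ∀ σ : ℝ, 0 < σ * ⟪gradient F (f p₀), ν p₀⟫ →
      ∀ p ∈ sphere (0 : E) 1, 0 < σ * ⟪gradient F (f p), ν p⟫ := by
    intro σ hσ p hp
    by_contra hcon
    push Not at hcon
    have hσ0 : σ ≠ 0 := by
      rintro rfl
      simp at hσ
    have hc' : ContinuousOn (fun p => σ * ⟪gradient F (f p), ν p⟫) (sphere (0 : E) 1) :=
      continuousOn_const.mul hc
    have := hconn.isPreconnected.intermediate_value hp hp₀ hc' ⟨hcon, hσ.le⟩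
    obtain ⟨q, hq, hq0⟩ := this
    simp only at hq0
    rcases mul_eq_zero.1 hq0 with h1 | h1
    · exact hσ0 h1
    · exact hne q hq h1
  rcases lt_or_gt_of_ne (hne p₀ hp₀) with h1 | h1
  · exact ⟨-1, Or.inr rfl, key (-1) (by linarith)⟩
  · exact ⟨1, Or.inl rfl, key 1 (by linarith)⟩

end cont

/-- The Euclidean space of dimension `m + 2`. -/
abbrev CGE (m : ℕ) : Type := EuclideanSpace ℝ (Fin (m + 1 + 1))

theorem cg_main (m : ℕ) (hm : 1 ≤ m)
    (f ν : EuclideanSpace ℝ (Fin (m + 1 + 1)) → EuclideanSpace ℝ (Fin (m + 1 + 1)))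
    (h : HSphere f ν)
    (hint : ∫ p : sphere (0 : EuclideanSpace ℝ (Fin (m + 1 + 1))) 1,
        cgT (m + 1) (cgS f ν p) ^ (m + 1) * |(cgL f ν p).det|
        ∂((volume : Measure (EuclideanSpace ℝ (Fin (m + 1 + 1)))).toSphere) <
      m * Real.sqrt ((m + 1) / m) ^ (m + 1) *
        ((volume : Measure (EuclideanSpace ℝ (Fin (m + 1 + 1)))).toSphere univ).toReal) :
    Carries (f '' sphere 0 1) (sphere (0 : EuclideanSpace ℝ (Fin (m + 1 + 1))) 1) := by
  have hfr : Module.finrank ℝ (CGE m) = m + 1 + 1 := finrank_euclideanSpace_fin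
  set c : ℝ := m * Real.sqrt ((m + 1) / m) ^ (m + 1) with hc
  have hm0 : (0 : ℝ) < m := by exact_mod_cast hm
  have hc0 : 0 < c := by
    rw [hc]
    have : 0 < Real.sqrt (((m : ℝ) + 1) / m) := Real.sqrt_pos.2 (by positivity)
    positivity
  set φ : CGE m → ℝ := fun p => c⁻¹ * (cgT (m + 1) (cgS f ν p) ^ (m + 1) * |(cgL f ν p).det|) with hφ
  obtain ⟨hcL, hcS⟩ := cg_cont h
  have hφc : ContinuousOn φ (sphere 0 1) := by
    have h1 : ContinuousOn (fun p => cgT (m + 1) (cgS f ν p)) (sphere (0 : CGE m) 1) :=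
      (main_cont_T (E := CGE m) (m + 1)).comp_continuousOn hcS
    have h2 : ContinuousOn (fun p => (cgL f ν p).det) (sphere (0 : CGE m) 1) :=
      (main_cont_det (E := CGE m)).comp_continuousOn hcL
    exact continuousOn_const.mul ((h1.pow (m + 1)).mul h2.abs)
  have hφ0 : ∀ p ∈ sphere (0 : CGE m) 1, 0 ≤ φ p := by
    intro p _
    have : 0 ≤ cgT (m + 1) (cgS f ν p) := Real.sqrt_nonneg _
    simp only [hφ]
    positivity
  have hle : ∀ p ∈ cgBad f ν, |(fderiv ℝ ν p + (innerSL ℝ p).smulRight (ν p)).det| ≤ φ p := by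
    rintro p ⟨hp, h1, h2⟩
    have hcomp : ((cgK (cgS f ν p) (ν p)).comp (cgL f ν p)).det =
        LinearMap.det ((cgK (cgS f ν p) (ν p) : CGE m →L[ℝ] CGE m) : CGE m →ₗ[ℝ] CGE m) *
          LinearMap.det ((cgL f ν p : CGE m →L[ℝ] CGE m) : CGE m →ₗ[ℝ] CGE m) :=
      LinearMap.det_comp _ _
    rw [← cg_K_comp h p hp, hcomp, abs_mul]
    have h3 := cg_oper m hm hfr (cgS f ν p) (cg_S_symm h p hp) (ν p) (h.unit p hp)
      (cg_S_normal h p hp) h1 h2
    rw [← hc] at h3
    have h4 : |LinearMap.det ((cgK (cgS f ν p) (ν p) : CGE m →L[ℝ] CGE m) : CGE m →ₗ[ℝ] CGE m)| ≤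
        c⁻¹ * cgT (m + 1) (cgS f ν p) ^ (m + 1) := by
      rw [← div_eq_inv_mul, le_div_iff₀ hc0]
      exact h3
    calc _ ≤ (c⁻¹ * cgT (m + 1) (cgS f ν p) ^ (m + 1)) * |LinearMap.det ((cgL f ν p : CGE m →L[ℝ] CGE m) : CGE m →ₗ[ℝ] CGE m)| :=
          mul_le_mul_of_nonneg_right h4 (abs_nonneg _)
      _ = φ p := by simp only [hφ]; rw [mul_assoc]
  have hint' : ∫ p : sphere (0 : CGE m) 1, φ p ∂((volume : Measure (CGE m)).toSphere) <
      ((volume : Measure (CGE m)).toSphere univ).toReal := by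
    simp only [hφ]
    rw [integral_const_mul, ← div_eq_inv_mul, div_lt_iff₀ hc0, mul_comm]
    exact hint
  obtain ⟨u, hu1, hu⟩ := cg_select (m + 1) ν h.sν h.hν (cgBad f ν) (cg_bad_closed h)
    (fun p hp => hp.1) φ hφc hφ0 hle hint'
  obtain ⟨F, hF, hb, hreg, hset⟩ := cg_defining (by rw [hfr]; omega) h
  have hF0 : ∀ p ∈ sphere (0 : CGE m) 1, F (f p) = 0 := by
    intro p hp
    have : f p ∈ {x | F x = 0} := by rw [hset]; exact ⟨p, hp, rfl⟩
    exact this
  obtain ⟨σ, hσ, hσp⟩ := main_sign (by rw [hfr]; omega) h F hF hreg hF0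
  have hσ2 : σ * σ = 1 := by rcases hσ with rfl | rfl <;> norm_num
  have he1 : ‖(-σ) • u‖ = 1 := by
    rw [norm_smul, hu1, mul_one, Real.norm_eq_abs, abs_neg]
    rcases hσ with rfl | rfl <;> norm_num
  have hMc : IsConnected {x | F x = 0} := by
    rw [hset]
    have hrank : 1 < Module.rank ℝ (CGE m) := by
      rw [← Module.finrank_eq_rank, hfr]
      exact_mod_cast (by omega : 1 < m + 1 + 1)
    refine (isConnected_sphere hrank 0 zero_le_one).image _ (h.sf.continuousOn.mono ?_)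
    intro x hx hx0
    rw [mem_singleton_iff.1 hx0] at hx
    simp at hx
  rw [← hset]
  refine cg_criterion (by rw [hfr]; omega) F hF hb hreg hMc ((-σ) • u) he1 ?_
  intro x hx
  obtain ⟨hx0, l, hl, hgl⟩ := hx
  have hxm : x ∈ f '' sphere (0 : CGE m) 1 := by rw [← hset]; exact hx0
  obtain ⟨p, hp, rfl⟩ := hxm
  obtain ⟨hs1, hs2⟩ := cg_second h F hF hF0 p hp
  set lam : ℝ := ⟪gradient F (f p), ν p⟫ with hlam
  have hlamσ : 0 < σ * lam := hσp p hp
  -- `ν p = u`
  have hνu : ν p = u := by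
    have h1 : lam • ν p = (l * σ) • u := by
      rw [← hs1, hgl, smul_smul, ← neg_smul]
      congr 1
      ring
    have h2 : (σ * lam) • ν p = l • u := by
      have := congrArg (fun z => σ • z) h1
      simp only [smul_smul] at this
      rw [this]
      congr 1
      calc σ * (l * σ) = l * (σ * σ) := by ring
        _ = l := by rw [hσ2, mul_one]
    have h3 : σ * lam = l := by
      have := congrArg norm h2
      rw [norm_smul, norm_smul, h.unit p hp, hu1, Real.norm_eq_abs, Real.norm_eq_abs,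
        abs_of_pos hlamσ, abs_of_pos hl] at this
      linarith
    rw [h3] at h2
    exact smul_right_injective (CGE m) hl.ne' h2
  have hbad : p ∉ cgBad f ν := fun hpb => hu p hpb hνu
  have hperp : ∀ w : CGE m, ⟪w, (-σ) • u⟫ = 0 → ⟪w, ν p⟫ = 0 := by
    intro w hw
    rw [inner_smul_right] at hw
    rw [hνu]
    rcases mul_eq_zero.1 hw with h1 | h1
    · exfalso
      have : σ = 0 := by linarith
      rw [this] at hσ2
      norm_num at hσ2
    · exact h1
  have hcases : (∀ w : CGE m, w ≠ 0 → ⟪w, ν p⟫ = 0 → 0 < ⟪cgS f ν p w, w⟫) ∨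
      (∀ w : CGE m, w ≠ 0 → ⟪w, ν p⟫ = 0 → ⟪cgS f ν p w, w⟫ < 0) := by
    by_contra hcon
    push Not at hcon
    obtain ⟨⟨w, hw1, hw2, hw3⟩, ⟨w', hw1', hw2', hw3'⟩⟩ := hcon
    exact hbad ⟨hp, ⟨w, hw1, hw2, hw3⟩, ⟨w', hw1', hw2', hw3'⟩⟩
  have hlam0 : lam ≠ 0 := by
    intro h0
    rw [h0, mul_zero] at hlamσ
    exact lt_irrefl _ hlamσ
  rcases lt_or_gt_of_ne hlam0 with hneg | hpos
  · rcases hcases with h1 | h1
    · right
      intro w hw hw0
      rw [hs2 w (hperp w hw)]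
      exact mul_neg_of_neg_of_pos hneg (h1 w hw0 (hperp w hw))
    · left
      intro w hw hw0
      rw [hs2 w (hperp w hw)]
      exact mul_pos_of_neg_of_neg hneg (h1 w hw0 (hperp w hw))
  · rcases hcases with h1 | h1
    · left
      intro w hw hw0
      rw [hs2 w (hperp w hw)]
      exact mul_pos hpos (h1 w hw0 (hperp w hw))
    · right
      intro w hw hw0
      rw [hs2 w (hperp w hw)]
      exact mul_neg_of_pos_of_neg hpos (h1 w hw0 (hperp w hw))

end Pool.Schoen
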