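import Mathlib
import Pool.Agent.H.MP_6c077c_gt.Manifold
import Pool.Agent.H.MP_6c077c_gt.CG.Defs

/-! Conformal gap theorem: from maps of the sphere to maps constant on rays. -/

set_option autoImplicit false

namespace Pool.Schoen

open scoped ContDiff RealInnerProductSpace Manifold
open Metric Set

variable {F : Type*} [NormedAddCommGroup F] [NormedSpace ℝ F]

/-- The extension of a map of the sphere which is constant on rays. -/
noncomputable def radialExt (n : ℕ) (h : sphere (0 : EuclideanSpace ℝ (Fin (n + 1))) 1 → F)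
    (x : EuclideanSpace ℝ (Fin (n + 1))) : F := h (manifold_proj n x)

theorem ofSphere_at (n : ℕ) (h : sphere (0 : EuclideanSpace ℝ (Fin (n + 1))) 1 → F)
    (hh : ContMDiff (𝓡 n) 𝓘(ℝ, F) ∞ h) (x : EuclideanSpace ℝ (Fin (n + 1))) (hx : x ≠ 0) :
    ContDiffAt ℝ ∞ (radialExt n h) x := by
  have h1 : ContDiffAt ℝ ∞ (fun y => h (manifold_proj n y)) x := by
    rw [← contMDiffAt_iff_contDiffAt]
    exact (hh _).comp x (manifold_proj_smooth n x hx)
  exact h1

/-- PROOF.  See `manifold_ext_smooth` (same proof without the factor `‖x‖`). -/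
theorem radialExt_smooth (n : ℕ) (h : sphere (0 : EuclideanSpace ℝ (Fin (n + 1))) 1 → F)
    (hh : ContMDiff (𝓡 n) 𝓘(ℝ, F) ∞ h) : ContDiffOn ℝ ∞ (radialExt n h) {0}ᶜ :=
  fun x hx => (ofSphere_at n h hh x hx).contDiffWithinAt

/-- PROOF.  See `manifold_ext_hom`. -/
theorem radialExt_hom (n : ℕ) (h : sphere (0 : EuclideanSpace ℝ (Fin (n + 1))) 1 → F)
    (t : ℝ) (ht : 0 < t) (x : EuclideanSpace ℝ (Fin (n + 1))) (hx : x ≠ 0) :
    radialExt n h (t • x) = radialExt n h x := by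
  have hp : manifold_proj n (t • x) = manifold_proj n x := by
    apply Subtype.ext
    rw [manifold_proj_coe n _ (smul_ne_zero ht.ne' hx), manifold_proj_coe n _ hx, norm_smul,
      Real.norm_eq_abs, abs_of_pos ht, smul_smul]
    congr 1
    have := norm_ne_zero_iff.2 hx
    field_simp
  rw [radialExt, radialExt, hp]

theorem radialExt_sphere (n : ℕ) (h : sphere (0 : EuclideanSpace ℝ (Fin (n + 1))) 1 → F)
    (p : sphere (0 : EuclideanSpace ℝ (Fin (n + 1))) 1) : radialExt n h p = h p := by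
  rw [radialExt, manifold_proj_sphere]

theorem ofSphere_euler (n : ℕ) (h : sphere (0 : EuclideanSpace ℝ (Fin (n + 1))) 1 → F)
    (hh : ContMDiff (𝓡 n) 𝓘(ℝ, F) ∞ h) (p : sphere (0 : EuclideanSpace ℝ (Fin (n + 1))) 1) :
    fderiv ℝ (radialExt n h) p p = 0 := by
  have hp : (p : EuclideanSpace ℝ (Fin (n + 1))) ≠ 0 := ne_zero_of_mem_unit_sphere p
  have h1 : HasFDerivAt (radialExt n h) (fderiv ℝ (radialExt n h) p)
      ((1 : ℝ) • (p : EuclideanSpace ℝ (Fin (n + 1)))) := by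
    rw [one_smul]
    exact ((ofSphere_at n h hh p hp).differentiableAt (by simp)).hasFDerivAt
  have h2 : HasDerivAt (fun t : ℝ => t • (p : EuclideanSpace ℝ (Fin (n + 1)))) p 1 := by
    simpa using (hasDerivAt_id (1 : ℝ)).smul_const (p : EuclideanSpace ℝ (Fin (n + 1)))
  have h3 := h1.comp_hasDerivAt (1 : ℝ) h2
  have h4 : HasDerivAt (fun _ : ℝ => radialExt n h p) 0 1 := hasDerivAt_const _ _
  have h5 : (radialExt n h ∘ fun t : ℝ => t • (p : EuclideanSpace ℝ (Fin (n + 1))))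
      =ᶠ[nhds 1] (fun _ : ℝ => radialExt n h p) := by
    filter_upwards [lt_mem_nhds (zero_lt_one' ℝ)] with t ht
    exact radialExt_hom n h t ht p hp
  exact ((h4.congr_of_eventuallyEq h5).unique h3).symm

theorem ofSphere_chain (n : ℕ) (h : sphere (0 : EuclideanSpace ℝ (Fin (n + 1))) 1 → F)
    (hh : ContMDiff (𝓡 n) 𝓘(ℝ, F) ∞ h) (p : sphere (0 : EuclideanSpace ℝ (Fin (n + 1))) 1)
    (v : TangentSpace (𝓡 n) p) :
    fderiv ℝ (radialExt n h) p (mfderiv (𝓡 n) 𝓘(ℝ, EuclideanSpace ℝ (Fin (n + 1)))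
      ((↑) : sphere (0 : EuclideanSpace ℝ (Fin (n + 1))) 1 → EuclideanSpace ℝ (Fin (n + 1))) p v)
      = mfderiv (𝓡 n) 𝓘(ℝ, F) h p v := by
  have := Fact.mk (@finrank_euclideanSpace_fin ℝ _ (n + 1))
  have hp : (p : EuclideanSpace ℝ (Fin (n + 1))) ≠ 0 := ne_zero_of_mem_unit_sphere p
  have h1 : (radialExt n h) ∘ ((↑) : sphere (0 : EuclideanSpace ℝ (Fin (n + 1))) 1 →
      EuclideanSpace ℝ (Fin (n + 1))) = h := by
    funext q
    exact radialExt_sphere n h q
  have h2 : MDifferentiableAt 𝓘(ℝ, EuclideanSpace ℝ (Fin (n + 1))) 𝓘(ℝ, F) (radialExt n h)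
      (p : EuclideanSpace ℝ (Fin (n + 1))) :=
    ((ofSphere_at n h hh p hp).differentiableAt (by simp)).mdifferentiableAt
  have h3 : MDifferentiableAt (𝓡 n) 𝓘(ℝ, EuclideanSpace ℝ (Fin (n + 1)))
      ((↑) : sphere (0 : EuclideanSpace ℝ (Fin (n + 1))) 1 → EuclideanSpace ℝ (Fin (n + 1))) p :=
    (contMDiff_coe_sphere (m := ∞) p).mdifferentiableAt (by simp)
  have h4 := mfderiv_comp p h2 h3
  rw [h1] at h4
  rw [h4, mfderiv_eq_fderiv]
  rfl

/-- PROOF.  `radialExt n h = ‖·‖⁻¹ • manifold_ext n h` off the origin; or directly as in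
`manifold_ext_chain`, with zero radial derivative (as in `cg_radial`).  Here `v = ⟪v, p⟫ • p +
manifold_D n p w` is the decomposition given by `manifold_key`. -/
theorem radialExt_der (n : ℕ) (h : sphere (0 : EuclideanSpace ℝ (Fin (n + 1))) 1 → F)
    (hh : ContMDiff (𝓡 n) 𝓘(ℝ, F) ∞ h)
    (p : sphere (0 : EuclideanSpace ℝ (Fin (n + 1))) 1) (v : EuclideanSpace ℝ (Fin (n + 1)))
    (w : TangentSpace (𝓡 n) p)
    (hvw : v = ⟪v, (p : EuclideanSpace ℝ (Fin (n + 1)))⟫ • (p : EuclideanSpace ℝ (Fin (n + 1))) +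
      manifold_D n p w) :
    fderiv ℝ (radialExt n h) p v = manifold_T n h p w := by
  have h1 : fderiv ℝ (radialExt n h) p v = fderiv ℝ (radialExt n h) p
      (⟪v, (p : EuclideanSpace ℝ (Fin (n + 1)))⟫ • (p : EuclideanSpace ℝ (Fin (n + 1))) +
      manifold_D n p w) := congrArg _ hvw
  rw [h1, map_add, map_smul, ofSphere_euler n h hh p, smul_zero, zero_add]
  exact ofSphere_chain n h hh p w

/-- PROOF.  Smoothness and homogeneity from the lemmas above; injectivity: `radialExt_sphere`.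
Immersion: if `⟪u, p⟫ = 0` and `fderiv (radialExt n f) p u = 0`, take `w` from `manifold_key` for
`v = u`; then `mfderiv f p w = 0`, so `w = 0` and `u = manifold_D n p 0 = 0` (see the proof of
`exists_sthick`).  `orth`: `radialExt_der` and `hνd`. -/
theorem cg_ofSphere (n : ℕ)
    (f ν : sphere (0 : EuclideanSpace ℝ (Fin (n + 1))) 1 → EuclideanSpace ℝ (Fin (n + 1)))
    (hf : ContMDiff (𝓡 n) 𝓘(ℝ, EuclideanSpace ℝ (Fin (n + 1))) ∞ f)
    (hinj : Function.Injective f)
    (himm : ∀ p, Function.Injective (mfderiv (𝓡 n) 𝓘(ℝ, EuclideanSpace ℝ (Fin (n + 1))) f p))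
    (hν : ContMDiff (𝓡 n) 𝓘(ℝ, EuclideanSpace ℝ (Fin (n + 1))) ∞ ν)
    (hν1 : ∀ p, ‖ν p‖ = 1)
    (hνd : ∀ p v, @inner ℝ (EuclideanSpace ℝ (Fin (n + 1))) _
      (mfderiv (𝓡 n) 𝓘(ℝ, EuclideanSpace ℝ (Fin (n + 1))) f p v) (ν p) = 0) :
    HSphere (radialExt n f) (radialExt n ν) := by
  constructor
  · exact radialExt_smooth n f hf
  · exact radialExt_smooth n ν hν
  · exact fun t ht x hx => radialExt_hom n f t ht x hx
  · exact fun t ht x hx => radialExt_hom n ν t ht x hx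
  · intro p hp q hq hpq
    have h1 := radialExt_sphere n f ⟨p, hp⟩
    have h2 := radialExt_sphere n f ⟨q, hq⟩
    simp only at h1 h2
    rw [h1, h2] at hpq
    exact congrArg Subtype.val (hinj hpq)
  · intro p hp u hup hu
    obtain ⟨w, hw⟩ := manifold_key n ⟨p, hp⟩ u
    have h1 := radialExt_der n f hf ⟨p, hp⟩ u w hw
    simp only at h1
    rw [hu] at h1
    have h2 : w = 0 := by
      have h3 := himm ⟨p, hp⟩
      rw [injective_iff_map_eq_zero] at h3
      exact h3 w h1.symm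
    have h4 : manifold_D n ⟨p, hp⟩ w = 0 := by
      rw [h2, manifold_D, map_zero]
      rfl
    rw [hw, h4]
    simp only
    rw [hup, zero_smul, zero_add]
  · intro p hp
    have h1 := radialExt_sphere n ν ⟨p, hp⟩
    simp only at h1
    rw [h1, hν1]
  · intro p hp u
    obtain ⟨w, hw⟩ := manifold_key n ⟨p, hp⟩ u
    have h1 := radialExt_der n f hf ⟨p, hp⟩ u w hw
    have h2 := radialExt_sphere n ν ⟨p, hp⟩
    simp only at h1 h2
    rw [h1, h2]
    exact hνd ⟨p, hp⟩ w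

end Pool.Schoen
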